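import Pool.Agent.Helper59.ZD.Rows
import Pool.Agent.Helper20.EH.Unit
import Pool.Agent.Helper20.CKP.TwoRows
import Pool.Agent.Helper17.ZD.Rows

set_option autoImplicit false

/-!
# The subgroups `U(1, m)` and `Sp(1, m)` of `O(r, n)` for odd `n`
-/

namespace Pool.Agent.Helper59.ZD

open Matrix Module Pool.Agent.Helper40.CK Pool.Agent.Helper20.CKP Pool.Agent.Helper29.CKP
  Pool.Agent.Helper20.EH Pool.Agent.Helper17.ZD

variable {K : Type} [RCLike K]

theorem star_alg (x : ℝ) : star (algebraMap ℝ K x) = algebraMap ℝ K x := by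
  rw [RCLike.algebraMap_eq_ofReal, RCLike.star_def, RCLike.conj_ofReal]

theorem map_alg_conjTranspose {l m : ℕ} (M : Matrix (Fin l) (Fin m) ℝ) :
    (M.map (algebraMap ℝ K))ᴴ = Mᵀ.map (algebraMap ℝ K) := by
  ext i j
  rw [conjTranspose_apply, Matrix.map_apply, Matrix.map_apply, transpose_apply, star_alg]

theorem gram_alg {r l m : ℕ} (U : Matrix (Fin r) (Fin l) K) (F : Matrix (Fin l) (Fin m) ℝ) {c : ℝ}
    (hF : F * Fᵀ = c • (1 : Matrix (Fin l) (Fin l) ℝ)) :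
    (U * F.map (algebraMap ℝ K)) * (U * F.map (algebraMap ℝ K))ᴴ =
      (algebraMap ℝ K c) • (U * Uᴴ) := by
  have h1 : F.map (algebraMap ℝ K) * (F.map (algebraMap ℝ K))ᴴ =
      (algebraMap ℝ K c) • (1 : Matrix (Fin l) (Fin l) K) := by
    rw [map_alg_conjTranspose, ← Matrix.map_mul, hF]
    ext i j
    rw [Matrix.map_apply, Matrix.smul_apply, Matrix.smul_apply, smul_eq_mul, map_mul, smul_eq_mul]
    by_cases hij : i = j
    · subst hij
      rw [Matrix.one_apply_eq, Matrix.one_apply_eq, map_one]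
    · rw [Matrix.one_apply_ne hij, Matrix.one_apply_ne hij, map_zero]
  rw [conjTranspose_mul, Matrix.mul_assoc, ← Matrix.mul_assoc (F.map _), h1, Matrix.smul_mul,
    Matrix.one_mul, Matrix.mul_smul]

theorem map_neg' {l m : ℕ} (M : Matrix (Fin l) (Fin m) ℝ) :
    (-M).map (algebraMap ℝ K) = -(M.map (algebraMap ℝ K)) := by
  ext i j
  rw [Matrix.map_apply, Matrix.neg_apply, Matrix.neg_apply, Matrix.map_apply, map_neg]

theorem odd_card (N : ℕ) (hN0 : 0 < N) (hN : Even N) :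
    Odd (Finset.univ.filter fun i : Fin N => decide ((i : ℕ) ≠ 0) = true).card := by
  have h1 : (Finset.univ.filter fun i : Fin N => decide ((i : ℕ) ≠ 0) = true) =
      Finset.univ.erase ⟨0, hN0⟩ := by
    ext i
    rw [Finset.mem_filter, Finset.mem_erase, decide_eq_true_eq]
    constructor
    · rintro ⟨-, h⟩
      exact ⟨fun h' => h (by rw [h']), Finset.mem_univ _⟩
    · rintro ⟨h, -⟩
      exact ⟨Finset.mem_univ _, fun h' => h (Fin.ext h')⟩
  rw [h1, Finset.card_erase_of_mem (Finset.mem_univ _), Finset.card_univ, Fintype.card_fin]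
  exact Nat.Even.sub_odd hN0 hN odd_one

/-- If the space `p` of `H` is that of a family of `k` orthogonal rows, `k` even, with a last row
which depends isometrically on the parameter in `ℝ ^ N`, `N` even, and `N + k ≤ n + 1`, then there is
no cocompact discontinuous group. -/
theorem false_of_rows {r n N k' : ℕ} {H : Subgroup (UpqK K r n)}
    (hH : IsReductive (H.map (UpqK K r n).subtype)) (had : AdmitsCocompact H)
    {U : Matrix (Fin r) (Fin (k' + 1)) K} (hU : Uᴴ * U = 1) {A : Matrix (Fin n) (Fin N) ℝ}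
    (hA : Aᵀ * A = 1) {J : Matrix (Fin (k' + 1)) (Fin (k' + 1)) ℝ} (hJ : Jᵀ = -J)
    (hJ2 : J * Jᵀ = 1) (R : (Fin N → ℝ) →ₗ[ℝ] Matrix (Fin (k' + 1)) (Fin N) ℝ)
    (hR : ∀ w, R w * (R w)ᵀ = (w ⬝ᵥ w) • (1 : Matrix (Fin (k' + 1)) (Fin (k' + 1)) ℝ))
    (hl : ∀ w, R w (Fin.last k') = w)
    (hX : ∀ X, X ∈ pSpace (H.map (UpqK K r n).subtype) ↔
      ∃ w : Fin N → ℝ, X = pcK K r n (U * (R w * Aᵀ).map (algebraMap ℝ K)))
    (hN0 : 0 < N) (hN : Even N) (hn : N + k' ≤ n) : False := by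
  have hRc : Continuous R := R.continuous_of_finiteDimensional
  obtain ⟨g, hg1, hg2', hg3', hg4⟩ := rows_htp hN0 hn hJ hJ2 hA hRc hR hl
  have hg2 : ∀ y, g 0 y = R y * Aᵀ := hg2'
  have hg3 : ∀ y, g 1 y = R (Tr y) * Aᵀ := hg3'
  have hdot : ∀ w : Fin N → ℝ, w ≠ 0 → w ⬝ᵥ w ≠ 0 := fun w hw h => hw (dotProduct_self_eq_zero.1 h)
  have hgram0 : ∀ w : Fin N → ℝ, (R w * Aᵀ) * (R w * Aᵀ)ᵀ =
      (w ⬝ᵥ w) • (1 : Matrix (Fin (k' + 1)) (Fin (k' + 1)) ℝ) := by
    intro w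
    rw [← hg2 w, hg4]
  have hne : ∀ (F : Matrix (Fin (k' + 1)) (Fin n) ℝ) (c : ℝ), c ≠ 0 →
      F * Fᵀ = c • (1 : Matrix (Fin (k' + 1)) (Fin (k' + 1)) ℝ) →
      U * F.map (algebraMap ℝ K) ≠ 0 := by
    intro F c hc hF h
    have h1 := gram_alg U F hF
    rw [h, Matrix.zero_mul] at h1
    have h2 : (algebraMap ℝ K c) • (U * Uᴴ) = 0 := h1.symm
    have hc' : algebraMap ℝ K c ≠ 0 := fun h => hc ((map_eq_zero _).1 h)
    have h3 : U * Uᴴ = 0 := (smul_eq_zero.1 h2).resolve_left hc'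
    have h4 : Uᴴ * (U * Uᴴ) * U = 0 := by rw [h3, Matrix.mul_zero, Matrix.zero_mul]
    have h5 : Uᴴ * (U * Uᴴ) * U = (Uᴴ * U) * (Uᴴ * U) := by
      simp only [Matrix.mul_assoc]
    rw [h5, hU, Matrix.one_mul] at h4
    have h6 := congrFun (congrFun h4 0) 0
    rw [Matrix.one_apply_eq, Matrix.zero_apply] at h6
    exact one_ne_zero h6
  -- the dimension
  let φ : (Fin N → ℝ) →ₗ[ℝ] Matrix (Fin ((r + n) + (r + n))) (Fin ((r + n) + (r + n))) ℝ :=
    { toFun := fun w => pcK K r n (U * (R w * Aᵀ).map (algebraMap ℝ K))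
      map_add' := fun w w' => by
        rw [← map_add, ← Matrix.mul_add]
        congr 2
        rw [map_add, Matrix.add_mul, Matrix.map_add _ (map_add _)]
      map_smul' := fun c w => by
        rw [RingHom.id_apply, ← map_smul, ← Matrix.mul_smul]
        congr 2
        rw [map_smul, Matrix.smul_mul]
        ext i j
        rw [Matrix.map_apply, Matrix.smul_apply, Matrix.smul_apply, Matrix.map_apply, smul_eq_mul,
          map_mul, Algebra.smul_def] }
  have hφ : Function.Injective φ := by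
    rw [← LinearMap.ker_eq_bot, LinearMap.ker_eq_bot']
    intro w hw
    by_contra hw0
    have h1 : pcK K r n (U * (R w * Aᵀ).map (algebraMap ℝ K)) = pcK K r n 0 := by
      rw [map_zero]
      exact hw
    exact hne _ _ (hdot w hw0) (hgram0 w) (pcK_inj h1)
  have hrange : pSpace (H.map (UpqK K r n).subtype) = LinearMap.range φ := by
    ext X
    rw [hX, LinearMap.mem_range]
    exact ⟨fun ⟨w, h⟩ => ⟨w, h.symm⟩, fun ⟨w, h⟩ => ⟨w, h.symm⟩⟩
  have hv : finrank ℝ (pSpace (H.map (UpqK K r n).subtype)) = N := by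
    rw [hrange, LinearMap.finrank_range_of_inj hφ, finrank_fin_fun]
  have hmapc : Continuous fun M : Matrix (Fin (k' + 1)) (Fin n) ℝ => M.map (algebraMap ℝ K) := by
    refine continuous_pi fun i => continuous_pi fun j => ?_
    exact (continuous_algebraMap ℝ K).comp ((continuous_apply j).comp (continuous_apply i))
  refine false_of_path hH had hv (fun t w => U * (g t w).map (algebraMap ℝ K)) ?_ ?_ ?_
    (fun i => decide ((i : ℕ) ≠ 0)) (Or.inr ⟨odd_card N hN0 hN, ?_⟩)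
  · exact (continuous_const.matrix_mul (hmapc.comp hg1)).continuousOn
  · intro t _ w hw
    refine ⟨U * (R w * Aᵀ).map (algebraMap ℝ K), hne _ _ (hdot w hw) (hgram0 w),
      (hX _).2 ⟨w, rfl⟩, ?_⟩
    rw [gram_alg U _ (hg4 t w), gram_alg U _ (hgram0 w)]
  · intro w _
    show U * (g 0 (-w)).map (algebraMap ℝ K) = -(U * (g 0 w).map (algebraMap ℝ K))
    rw [hg2, hg2, map_neg, Matrix.neg_mul, map_neg', Matrix.mul_neg]
  · intro w _
    show U * (g 1 w).map (algebraMap ℝ K) = U * (g 0 (chg _ w)).map (algebraMap ℝ K)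
    rw [hg3, hg2]
    have h1 : Tr w = chg (fun i : Fin N => decide ((i : ℕ) ≠ 0)) w := by
      funext i
      unfold Tr chg
      by_cases hi : (i : ℕ) = 0
      · rw [if_pos hi, if_neg]
        simpa using hi
      · rw [if_neg hi, if_pos]
        simpa using hi
    rw [h1]

/-- All elements are real. -/
theorem real_of_finrank (hK : finrank ℝ K = 1) (x : K) : algebraMap ℝ K (RCLike.re x) = x := by
  rw [RCLike.algebraMap_eq_ofReal]
  rcases RCLike.I_eq_zero_or_im_I_eq_one (K := K) with hI | hI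
  · have h1 := RCLike.re_add_im x
    rw [hI, mul_zero, add_zero] at h1
    exact h1
  · exfalso
    have := finrank_K hI
    omega

theorem exists_real {l m : ℕ} (hK : finrank ℝ K = 1) (M : Matrix (Fin l) (Fin m) K) :
    ∃ M' : Matrix (Fin l) (Fin m) ℝ, M = M'.map (algebraMap ℝ K) := by
  refine ⟨M.map RCLike.re, ?_⟩
  ext i j
  rw [Matrix.map_apply, Matrix.map_apply, real_of_finrank hK]

theorem exists_real_vec {m : ℕ} (hK : finrank ℝ K = 1) (v : Fin m → K) :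
    ∃ v' : Fin m → ℝ, v = algebraMap ℝ K ∘ v' := by
  refine ⟨fun i => RCLike.re (v i), ?_⟩
  funext i
  exact (real_of_finrank hK _).symm

theorem map_inj {l m : ℕ} {M M' : Matrix (Fin l) (Fin m) ℝ}
    (h : M.map (algebraMap ℝ K) = M'.map (algebraMap ℝ K)) : M = M' := by
  ext i j
  have := congrFun (congrFun h i) j
  rw [Matrix.map_apply, Matrix.map_apply] at this
  exact (algebraMap ℝ K).injective this

theorem map_one' {m : ℕ} : (1 : Matrix (Fin m) (Fin m) ℝ).map (algebraMap ℝ K) = 1 := by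
  rw [Matrix.map_one _ (map_zero _) (map_one _)]

theorem map_mulVec' {l m : ℕ} (M : Matrix (Fin l) (Fin m) ℝ) (v : Fin m → ℝ) :
    (M.map (algebraMap ℝ K)) *ᵥ (algebraMap ℝ K ∘ v) = algebraMap ℝ K ∘ (M *ᵥ v) := by
  funext i
  exact (RingHom.map_mulVec (algebraMap ℝ K) M v i).symm

/-- A skew matrix with square `-1` has an even size. -/
theorem even_of_skew {N : ℕ} {S : Matrix (Fin N) (Fin N) ℝ} (hS : Sᵀ = -S) (hS2 : S * S = -1) :
    Even N := by
  by_contra h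
  rw [Nat.not_even_iff_odd] at h
  have h1 : S.det = -S.det := by
    have h2 := congrArg Matrix.det hS
    rw [det_transpose, det_neg, Fintype.card_fin, h.neg_one_pow, neg_one_mul] at h2
    exact h2
  have h3 : S.det = 0 := by linarith
  have h4 := congrArg Matrix.det hS2
  rw [det_mul, h3, det_neg, Fintype.card_fin, h.neg_one_pow, det_one] at h4
  norm_num at h4

/-- The linear map `rows2 S`. -/
def rows2L {N : ℕ} (S : Matrix (Fin N) (Fin N) ℝ) :
    (Fin N → ℝ) →ₗ[ℝ] Matrix (Fin 2) (Fin N) ℝ where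
  toFun := rows2 S
  map_add' w w' := by
    unfold rows2
    rw [Matrix.mulVec_add, neg_add]
    ext i j
    fin_cases i <;> rfl
  map_smul' c w := by
    unfold rows2
    rw [Matrix.mulVec_smul, ← smul_neg]
    ext i j
    fin_cases i <;> rfl

/-- The linear map `rows4 I J`. -/
def rows4L {N : ℕ} (I J : Matrix (Fin N) (Fin N) ℝ) :
    (Fin N → ℝ) →ₗ[ℝ] Matrix (Fin 4) (Fin N) ℝ where
  toFun := rows4 I J
  map_add' w w' := by
    unfold rows4
    rw [Matrix.mulVec_add, Matrix.mulVec_add, Matrix.mulVec_add, neg_add, neg_add]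
    ext i j
    fin_cases i <;> rfl
  map_smul' c w := by
    unfold rows4
    rw [Matrix.mulVec_smul, Matrix.mulVec_smul, Matrix.mulVec_smul, ← smul_neg, ← smul_neg]
    ext i j
    fin_cases i <;> rfl

/-- The space `p` of `H` is not that of `U(1, m)` in `O(r, 2 m + 1)`. -/
theorem not_two (hK : finrank ℝ K = 1) {r n N : ℕ} {H : Subgroup (UpqK K r n)}
    (hH : IsReductive (H.map (UpqK K r n).subtype)) (had : AdmitsCocompact H)
    {U : Matrix (Fin r) (Fin 2) K} {A : Matrix (Fin n) (Fin N) K}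
    {S : Matrix (Fin N) (Fin N) K} (hn : N + 1 ≤ n) (hN0 : 0 < N) (hU : Uᴴ * U = 1)
    (hA : Aᴴ * A = 1) (hS : Sᵀ = -S) (hSS : S * Sᴴ = 1)
    (hX : ∀ X, X ∈ pSpace (H.map (UpqK K r n).subtype) ↔
      ∃ y : Fin N → K, X = pcK K r n (U * Matrix.of ![A *ᵥ y, A *ᵥ (S *ᵥ star y)])) : False := by
  obtain ⟨A', rfl⟩ := exists_real hK A
  obtain ⟨S', rfl⟩ := exists_real hK S
  have hA' : A'ᵀ * A' = 1 := by
    apply map_inj (K := K)
    rw [Matrix.map_mul, ← map_alg_conjTranspose, hA, map_one']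
  have hS' : S'ᵀ = -S' := by
    apply map_inj (K := K)
    rw [map_neg', ← hS, Matrix.transpose_map]
  have hSS' : S' * S' = -1 := by
    have h1 : S' * S'ᵀ = 1 := by
      apply map_inj (K := K)
      rw [Matrix.map_mul, ← map_alg_conjTranspose, hSS, map_one']
    rw [hS', Matrix.mul_neg] at h1
    rw [← h1, neg_neg]
  have hJ : (!![0, -1; 1, 0] : Matrix (Fin 2) (Fin 2) ℝ)ᵀ = -!![0, -1; 1, 0] := by
    ext i j
    fin_cases i <;> fin_cases j <;> simp
  have hJ2 : (!![0, -1; 1, 0] : Matrix (Fin 2) (Fin 2) ℝ) * (!![0, -1; 1, 0])ᵀ = 1 := by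
    ext i j
    fin_cases i <;> fin_cases j <;> simp [Matrix.mul_apply, Fin.sum_univ_succ]
  refine false_of_rows (k' := 1) hH had hU hA' hJ hJ2 (rows2L S') (rows2_gram hS' hSS')
    (fun w => rfl) ?_ hN0 (even_of_skew hS' hSS') hn
  intro X
  rw [hX]
  have hkey : ∀ y' : Fin N → ℝ, Matrix.of ![(A'.map (algebraMap ℝ K)) *ᵥ (algebraMap ℝ K ∘ y'),
      (A'.map (algebraMap ℝ K)) *ᵥ ((S'.map (algebraMap ℝ K)) *ᵥ star (algebraMap ℝ K ∘ y'))] =
      (Matrix.of ![A' *ᵥ y', A' *ᵥ (S' *ᵥ y')]).map (algebraMap ℝ K) := by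
    intro y'
    have h1 : star (algebraMap ℝ K ∘ y') = algebraMap ℝ K ∘ y' := by
      funext i
      exact star_alg (y' i)
    rw [h1, map_mulVec', map_mulVec', map_mulVec']
    ext i j
    fin_cases i <;> rfl
  constructor
  · rintro ⟨y, rfl⟩
    obtain ⟨y', rfl⟩ := exists_real_vec hK y
    obtain ⟨w, hw⟩ := (exists_rows2 A' hSS' _).1 ⟨y', rfl⟩
    refine ⟨w, ?_⟩
    rw [hkey, hw]
    rfl
  · rintro ⟨w, rfl⟩
    obtain ⟨y', hy'⟩ := (exists_rows2 A' hSS' (rows2 S' w * A'ᵀ)).2 ⟨w, rfl⟩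
    refine ⟨algebraMap ℝ K ∘ y', ?_⟩
    rw [hkey, ← hy']
    rfl

/-- The space `p` of `H` is not that of `Sp(1, m)` in `O(r, 4 m + 3)`. -/
theorem not_four (hK : finrank ℝ K = 1) {r n N : ℕ} {H : Subgroup (UpqK K r n)}
    (hH : IsReductive (H.map (UpqK K r n).subtype)) (had : AdmitsCocompact H)
    {U : Matrix (Fin r) (Fin 4) K} {A : Matrix (Fin n) (Fin N) K}
    {I J : Matrix (Fin N) (Fin N) K} (hn : N + 3 ≤ n) (hN0 : 0 < N) (hU : Uᴴ * U = 1)
    (hA : Aᴴ * A = 1) (hI : Iᵀ = -I) (hJ : Jᵀ = -J) (hI2 : I * I = -1) (hJ2 : J * J = -1)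
    (hIJ : I * J = -(J * I))
    (hX : ∀ X, X ∈ pSpace (H.map (UpqK K r n).subtype) ↔
      ∃ y : Fin N → K, X = pcK K r n
        (U * Matrix.of ![A *ᵥ y, A *ᵥ (I *ᵥ y), A *ᵥ (J *ᵥ y), A *ᵥ ((I * J) *ᵥ y)])) :
    False := by
  obtain ⟨A', rfl⟩ := exists_real hK A
  obtain ⟨I', rfl⟩ := exists_real hK I
  obtain ⟨J', rfl⟩ := exists_real hK J
  have hA' : A'ᵀ * A' = 1 := by
    apply map_inj (K := K)
    rw [Matrix.map_mul, ← map_alg_conjTranspose, hA, map_one']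
  have hI' : I'ᵀ = -I' := by
    apply map_inj (K := K)
    rw [map_neg', ← hI, Matrix.transpose_map]
  have hJ' : J'ᵀ = -J' := by
    apply map_inj (K := K)
    rw [map_neg', ← hJ, Matrix.transpose_map]
  have hI2' : I' * I' = -1 := by
    apply map_inj (K := K)
    rw [map_neg', Matrix.map_mul, hI2, map_one']
  have hJ2' : J' * J' = -1 := by
    apply map_inj (K := K)
    rw [map_neg', Matrix.map_mul, hJ2, map_one']
  have hIJ' : I' * J' = -(J' * I') := by
    apply map_inj (K := K)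
    rw [map_neg', Matrix.map_mul, Matrix.map_mul, hIJ]
  have hC : (!![0, -1, 0, 0; 1, 0, 0, 0; 0, 0, 0, -1; 0, 0, 1, 0] : Matrix (Fin 4) (Fin 4) ℝ)ᵀ =
      -!![0, -1, 0, 0; 1, 0, 0, 0; 0, 0, 0, -1; 0, 0, 1, 0] := by
    ext i j
    fin_cases i <;> fin_cases j <;> simp
  have hC2 : (!![0, -1, 0, 0; 1, 0, 0, 0; 0, 0, 0, -1; 0, 0, 1, 0] : Matrix (Fin 4) (Fin 4) ℝ) *
      (!![0, -1, 0, 0; 1, 0, 0, 0; 0, 0, 0, -1; 0, 0, 1, 0])ᵀ = 1 := by
    ext i j
    fin_cases i <;> fin_cases j <;> simp [Matrix.mul_apply, Fin.sum_univ_succ]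
  refine false_of_rows (k' := 3) hH had hU hA' hC hC2 (rows4L I' J')
    (rows4_gram hI' hJ' hI2' hJ2' hIJ') (fun w => rfl) ?_ hN0 (even_of_skew hI' hI2') hn
  intro X
  rw [hX]
  have hkey : ∀ y' : Fin N → ℝ, Matrix.of ![(A'.map (algebraMap ℝ K)) *ᵥ (algebraMap ℝ K ∘ y'),
      (A'.map (algebraMap ℝ K)) *ᵥ ((I'.map (algebraMap ℝ K)) *ᵥ (algebraMap ℝ K ∘ y')),
      (A'.map (algebraMap ℝ K)) *ᵥ ((J'.map (algebraMap ℝ K)) *ᵥ (algebraMap ℝ K ∘ y')),
      (A'.map (algebraMap ℝ K)) *ᵥ (((I'.map (algebraMap ℝ K)) * (J'.map (algebraMap ℝ K))) *ᵥ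
        (algebraMap ℝ K ∘ y'))] =
      (Matrix.of ![A' *ᵥ y', A' *ᵥ (I' *ᵥ y'), A' *ᵥ (J' *ᵥ y'),
        A' *ᵥ ((I' * J') *ᵥ y')]).map (algebraMap ℝ K) := by
    intro y'
    rw [← Matrix.map_mul, map_mulVec', map_mulVec', map_mulVec', map_mulVec', map_mulVec',
      map_mulVec', map_mulVec']
    ext i j
    fin_cases i <;> rfl
  constructor
  · rintro ⟨y, rfl⟩
    obtain ⟨y', rfl⟩ := exists_real_vec hK y
    obtain ⟨w, hw⟩ := (exists_rows4 A' hI2' hJ2' hIJ' _).1 ⟨y', rfl⟩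
    refine ⟨w, ?_⟩
    rw [hkey, hw]
    rfl
  · rintro ⟨w, rfl⟩
    obtain ⟨y', hy'⟩ := (exists_rows4 A' hI2' hJ2' hIJ' (rows4 I' J' w * A'ᵀ)).2 ⟨w, rfl⟩
    refine ⟨algebraMap ℝ K ∘ y', ?_⟩
    rw [hkey, ← hy']
    rfl

end Pool.Agent.Helper59.ZD
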