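import Pool.Agent.Helper59.ZD.Deg

set_option autoImplicit false
set_option linter.unusedSectionVars false

/-!
# The degree of the composition with the square of a complex coordinate
-/

namespace Pool.Agent.Helper59.ZD

open Finset Pool.Agent.Helper29.ZBU

variable {κ : Type} [Fintype κ] [DecidableEq κ] {d : ℕ}

/-- The translation of a flag. -/
def shF (a : κ → ℤ) (τ : Flag κ d) : Flag κ d := (τ.1 + a, τ.2)

theorem vtx_shF (a : κ → ℤ) (τ : Flag κ d) (l : ℕ) (k : κ) :
    vtx (shF a τ) l k = vtx τ l k + 2 * a k := by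
  show (if ((τ.2.1.symm k : Fin d) : ℕ) < l then 2 * (τ.1 k + a k) + 1 else
    2 * (τ.1 k + a k + bi (τ.2.2 k))) = (if ((τ.2.1.symm k : Fin d) : ℕ) < l then
      2 * τ.1 k + 1 else 2 * (τ.1 k + bi (τ.2.2 k))) + 2 * a k
  split_ifs <;> ring

/-- The sum over the flags of a translate of the inner cube. -/
theorem sum_shift (e : Fin d ≃ κ) (g : (κ → ℝ) → Fin d → ℝ) {M : ℕ} (hM : 0 < M) (a : κ → ℤ)
    (ha : ∀ k, |a k| ≤ (M : ℤ)) (P : Flag κ d → Prop) [DecidablePred P]
    (hP : ∀ τ, P τ ↔ ∀ k, -(M : ℤ) ≤ τ.1 k - a k ∧ τ.1 k - a k < M) :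
    ∑ τ ∈ (flags κ d (2 * M)).filter P, sn e τ * ∏ j : Fin d,
      (sgm g (2 * M) 0 j (vtx τ (j + 1)) - sgm g (2 * M) 0 j (vtx τ j)) =
      TZ e M (sgm (fun z => g ((1 / 2 : ℝ) • z + fun k => (a k : ℝ) / (2 * M))) M 0) := by
  have hM' : (0 : ℝ) < M := by exact_mod_cast hM
  unfold TZ
  symm
  refine Finset.sum_nbij' (shF a) (shF (-a)) ?_ ?_ ?_ ?_ ?_
  · intro τ hτ
    rw [mem_flags] at hτ
    rw [Finset.mem_filter, mem_flags, hP]
    constructor
    · intro k
      show -((2 * M : ℕ) : ℤ) ≤ τ.1 k + a k ∧ τ.1 k + a k < ((2 * M : ℕ) : ℤ)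
      have h1 := abs_le.1 (ha k)
      have h2 := hτ k
      push_cast
      omega
    · intro k
      show -(M : ℤ) ≤ τ.1 k + a k - a k ∧ τ.1 k + a k - a k < M
      have h2 := hτ k
      omega
  · intro τ hτ
    rw [Finset.mem_filter, hP] at hτ
    rw [mem_flags]
    intro k
    show -(M : ℤ) ≤ τ.1 k + -a k ∧ τ.1 k + -a k < M
    have h2 := hτ.2 k
    omega
  · intro τ _
    refine Prod.ext ?_ rfl
    show τ.1 + a + -a = τ.1
    rw [add_neg_cancel_right]
  · intro τ _
    refine Prod.ext ?_ rfl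
    show τ.1 + -a + a = τ.1
    rw [neg_add_cancel_right]
  · intro τ hτ
    have h3 : ∀ (l : ℕ) (j : Fin d), sgm g (2 * M) 0 j (vtx (shF a τ) l) =
        sgm (fun z => g ((1 / 2 : ℝ) • z + fun k => (a k : ℝ) / (2 * M))) M 0 j (vtx τ l) := by
      intro l j
      have h4 : ‖pt M (vtx τ l)‖ ≤ 1 := norm_pt_le hM fun k => vtx_abs hτ l k
      have h5 : pt (2 * M) (vtx (shF a τ) l) =
          (1 / 2 : ℝ) • pt M (vtx τ l) + fun k => (a k : ℝ) / (2 * M) := by
        funext k
        show ((vtx (shF a τ) l k : ℤ) : ℝ) / (2 * ((2 * M : ℕ) : ℝ)) =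
          (1 / 2 : ℝ) * ((vtx τ l k : ℝ) / (2 * M)) + (a k : ℝ) / (2 * M)
        rw [vtx_shF]
        push_cast
        field_simp
      have h6 : ‖pt (2 * M) (vtx (shF a τ) l)‖ ≤ 1 := by
        refine norm_pt_le (by omega) fun k => ?_
        rw [vtx_shF]
        have h7 := abs_le.1 (ha k)
        have h8 := abs_le.1 (vtx_abs hτ l k)
        rw [abs_le]
        push_cast
        omega
      unfold sgm
      rw [if_pos h6, if_pos h4, h5]
      rfl
    show sn e τ * _ = sn e τ * _
    simp only [h3]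

/-- The square of the complex number with the coordinates `i` and `i'`, minus `s / 4`. -/
noncomputable def qm (i i' : κ) (s : ℝ) (z : κ → ℝ) : κ → ℝ := fun k =>
  if k = i then z i ^ 2 - z i' ^ 2 - s / 4 else if k = i' then 2 * z i * z i' else z k

/-- The square of the complex number with the coordinates `i` and `i'`. -/
def sqm (i i' : κ) (z : κ → ℝ) : κ → ℝ := fun k =>
  if k = i then z i ^ 2 - z i' ^ 2 else if k = i' then 2 * z i * z i' else z k

theorem qm_zero (i i' : κ) (z : κ → ℝ) : qm i i' 0 z = sqm i i' z := by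
  funext k
  unfold qm sqm
  rw [zero_div, sub_zero]

theorem continuous_qm (i i' : κ) : Continuous fun z : ℝ × (κ → ℝ) => qm i i' z.1 z.2 := by
  refine continuous_pi fun k => ?_
  unfold qm
  split_ifs
  · fun_prop
  · fun_prop
  · fun_prop

/-- If a function is zero at the coordinates other than `i` and `i'`, its norm is determined by the
two values. -/
theorem norm_lt_one_of {i i' : κ} {z : κ → ℝ} (h : ∀ k, k ≠ i → k ≠ i' → z k = 0)
    (h1 : |z i| < 1) (h2 : |z i'| < 1) : ‖z‖ < 1 := by
  rw [pi_norm_lt_iff one_pos]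
  intro k
  rw [Real.norm_eq_abs]
  by_cases hk : k = i
  · rw [hk]
    exact h1
  · by_cases hk' : k = i'
    · rw [hk']
      exact h2
    · rw [h k hk hk', abs_zero]
      exact one_pos

theorem qm_ne {i i' : κ} (hii : i ≠ i') {s : ℝ} (hs : s ∈ Set.Icc (0 : ℝ) 1) {z : κ → ℝ}
    (hz : ‖z‖ = 1) : qm i i' s z ≠ 0 := by
  intro h
  have h1 : z i ^ 2 - z i' ^ 2 - s / 4 = 0 := by
    have := congrFun h i
    unfold qm at this
    rwa [if_pos rfl] at this
  have h2 : 2 * z i * z i' = 0 := by
    have := congrFun h i'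
    unfold qm at this
    rwa [if_neg hii.symm, if_pos rfl] at this
  have h3 : ∀ k, k ≠ i → k ≠ i' → z k = 0 := by
    intro k hk hk'
    have := congrFun h k
    unfold qm at this
    rwa [if_neg hk, if_neg hk'] at this
  have hs1 := hs.1
  have hs2 := hs.2
  have h4 : z i * z i' = 0 := by linarith
  have h5 : z i' = 0 := by
    rcases mul_eq_zero.1 h4 with h5 | h5
    · rw [h5] at h1
      have : z i' ^ 2 ≤ 0 := by nlinarith
      exact pow_eq_zero_iff (two_ne_zero) |>.1 (le_antisymm this (sq_nonneg _))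
    · exact h5
  have h6 : |z i| < 1 := by
    rw [abs_lt]
    rw [h5] at h1
    constructor <;> nlinarith
  have h7 := norm_lt_one_of h3 h6 (by rw [h5, abs_zero]; exact one_pos)
  rw [hz] at h7
  exact lt_irrefl _ h7

/-- The homotopy of the identity and of the map `qm` on the right cube. -/
noncomputable def hm (i i' : κ) (t : ℝ) (z : κ → ℝ) : κ → ℝ := fun k =>
  if k = i then (2 * z i + t * (z i ^ 2 - z i' ^ 2)) * (2 - t) / 4 else
    if k = i' then (2 * z i' + t * (2 * z i * z i')) * (2 - t) / 4 else z k * (2 - t) / 2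

theorem continuous_hm (i i' : κ) : Continuous fun z : ℝ × (κ → ℝ) => hm i i' z.1 z.2 := by
  refine continuous_pi fun k => ?_
  unfold hm
  split_ifs
  · fun_prop
  · fun_prop
  · fun_prop

theorem hm_zero (i i' : κ) (z : κ → ℝ) : hm i i' 0 z = z := by
  funext k
  unfold hm
  split_ifs with h1 h2
  · rw [h1]
    ring
  · rw [h2]
    ring
  · ring

theorem hm_ne {i i' : κ} (hii : i ≠ i') {t : ℝ} (ht : t ∈ Set.Icc (0 : ℝ) 1) {z : κ → ℝ}
    (hz : ‖z‖ = 1) : hm i i' t z ≠ 0 := by
  intro h
  have ht1 := ht.1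
  have ht2 := ht.2
  have h1 : 2 * z i + t * (z i ^ 2 - z i' ^ 2) = 0 := by
    have := congrFun h i
    unfold hm at this
    rw [if_pos rfl] at this
    have h4 : (2 * z i + t * (z i ^ 2 - z i' ^ 2)) * (2 - t) = 0 := by
      have h5 : (2 * z i + t * (z i ^ 2 - z i' ^ 2)) * (2 - t) / 4 = 0 := this
      linarith
    rcases mul_eq_zero.1 h4 with h5 | h5
    · exact h5
    · linarith
  have h2 : z i' * (1 + t * z i) = 0 := by
    have := congrFun h i'
    unfold hm at this
    rw [if_neg hii.symm, if_pos rfl] at this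
    have h4 : (2 * z i' + t * (2 * z i * z i')) * (2 - t) = 0 := by
      have h5 : (2 * z i' + t * (2 * z i * z i')) * (2 - t) / 4 = 0 := this
      linarith
    rcases mul_eq_zero.1 h4 with h5 | h5
    · linarith
    · linarith
  have h3 : ∀ k, k ≠ i → k ≠ i' → z k = 0 := by
    intro k hk hk'
    have := congrFun h k
    unfold hm at this
    rw [if_neg hk, if_neg hk'] at this
    have h5 : z k * (2 - t) / 2 = 0 := this
    have h4 : z k * (2 - t) = 0 := by linarith
    rcases mul_eq_zero.1 h4 with h6 | h6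
    · exact h6
    · linarith
  have hzi : |z i| ≤ 1 := by
    rw [← hz, ← Real.norm_eq_abs]
    exact norm_le_pi_norm z i
  have hzi' := abs_le.1 hzi
  have h5 : z i' = 0 ∧ z i = 0 := by
    rcases mul_eq_zero.1 h2 with h5 | h5
    · refine ⟨h5, ?_⟩
      rw [h5] at h1
      have h6 : z i * (2 + t * z i) = 0 := by nlinarith
      rcases mul_eq_zero.1 h6 with h7 | h7
      · exact h7
      · exfalso
        nlinarith
    · exfalso
      have h6 : z i = t * z i' ^ 2 := by nlinarith
      have h7 : 0 ≤ z i := by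
        rw [h6]
        positivity
      nlinarith [mul_nonneg ht1 h7]
  have h7 := norm_lt_one_of h3 (by rw [h5.2, abs_zero]; exact one_pos)
    (by rw [h5.1, abs_zero]; exact one_pos)
  rw [hz] at h7
  exact lt_irrefl _ h7

/-- The degree of the composition with the square of a complex coordinate. -/
theorem IsDeg.double (hd : 0 < d) {e : Fin d ≃ κ} {f : (κ → ℝ) → Fin d → ℝ} {δ : ℤ}
    (h : IsDeg e f δ) (hf : Continuous f) (h0 : ∀ z, z ≠ 0 → f z ≠ 0) {i i' : κ} (hii : i ≠ i') :
    IsDeg e (fun z => f (sqm i i' z)) (2 * δ) := by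
  classical
  let g : (κ → ℝ) → Fin d → ℝ := fun z => f (qm i i' 1 z)
  have hqc := continuous_qm i i'
  have hgc : Continuous g := hf.comp (hqc.comp (continuous_const.prodMk continuous_id))
  have h1 : (1 : ℝ) ∈ Set.Icc (0 : ℝ) 1 := ⟨zero_le_one, le_rfl⟩
  obtain ⟨δ', hδ'⟩ := exists_deg hd e g hgc.continuousOn fun z hz => h0 _ (qm_ne hii h1 hz)
  -- the right cube
  let gR : (κ → ℝ) → Fin d → ℝ := fun z => f (hm i i' 1 z)
  have hR : IsDeg e gR δ := by
    have h2 := IsDeg.htp hd (H := fun t z => f (hm i i' t z)) (δ := δ) (e := e) (by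
      have : (fun z => f (hm i i' 0 z)) = f := by
        funext z
        rw [hm_zero]
      show IsDeg e (fun z => f (hm i i' 0 z)) δ
      rw [this]
      exact h) ((hf.comp (continuous_hm i i')).continuousOn) fun t ht z hz =>
        h0 _ (hm_ne hii ht hz)
    exact h2
  have hL : IsDeg e (fun z => gR (ZD.flip {i, i'} z)) δ := by
    have h2 := hR.flip {i, i'}
    have h3 : ({i, i'} : Finset κ).card = 2 := Finset.card_pair hii
    rw [h3] at h2
    norm_num at h2
    exact h2
  -- the other flags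
  let A : Set (κ → ℝ) := Metric.closedBall 0 1 ∩ ⋃ k ∈ {k : κ | k ≠ i}, {z | 1 / 2 ≤ |z k|}
  have hA : IsCompact A := by
    refine (isCompact_closedBall 0 1).inter_right ?_
    refine Set.Finite.isClosed_biUnion (Set.toFinite _) fun k _ => ?_
    exact isClosed_le continuous_const (continuous_apply k).abs
  have hA1 : ∀ z ∈ A, ‖z‖ ≤ 1 := by
    intro z hz
    have := hz.1
    rwa [mem_closedBall_zero_iff] at this
  have hA2 : ∀ z ∈ A, g z ≠ 0 := by
    intro z hz
    obtain ⟨-, h3⟩ := hz
    rw [Set.mem_iUnion₂] at h3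
    obtain ⟨k, hk, hk'⟩ := h3
    have hk1 : k ≠ i := hk
    have hk2 : 1 / 2 ≤ |z k| := hk'
    refine h0 _ fun h4 => ?_
    have h5 := congrFun h4 k
    unfold qm at h5
    rw [if_neg hk1] at h5
    by_cases hki : k = i'
    · rw [if_pos hki] at h5
      have h5' : 2 * z i * z i' = 0 := h5
      have h6 := congrFun h4 i
      unfold qm at h6
      rw [if_pos rfl] at h6
      have h6' : z i ^ 2 - z i' ^ 2 - 1 / 4 = 0 := h6
      have h7 : z i' ≠ 0 := by
        intro h8
        rw [hki, h8, abs_zero] at hk2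
        norm_num at hk2
      have h8 : z i = 0 := by
        rcases mul_eq_zero.1 h5' with h9 | h9
        · linarith
        · exact absurd h9 h7
      rw [h8] at h6'
      nlinarith [sq_nonneg (z i')]
    · rw [if_neg hki] at h5
      have h5' : z k = 0 := h5
      rw [h5', abs_zero] at hk2
      norm_num at hk2
  obtain ⟨M₀, hM₀, hsm⟩ := small_flag g hA hA1 hgc.continuousOn hA2
  obtain ⟨k₁, hk₁⟩ := hδ'
  obtain ⟨k₂, hk₂⟩ := hR
  obtain ⟨k₃, hk₃⟩ := hL
  let k : ℕ := max M₀ (max k₁ (max k₂ k₃))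
  set M : ℕ := 2 ^ k with hMd
  have hM : 0 < M := by positivity
  have hM' : (0 : ℝ) < M := by exact_mod_cast hM
  have e1 := hk₁ (k + 1) (((le_max_left _ _).trans (le_max_right _ _)).trans (Nat.le_succ _)) 0
  have e2 := hk₂ k ((le_max_left _ _).trans ((le_max_right _ _).trans (le_max_right _ _))) 0
  have e3 := hk₃ k ((le_max_right _ _).trans ((le_max_right _ _).trans (le_max_right _ _))) 0
  have hM2 : 2 ^ (k + 1) = 2 * M := by
    rw [hMd]
    ring
  rw [hM2] at e1
  have hMM : M₀ ≤ 2 * M := by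
    have h3 : k < 2 ^ k := Nat.lt_two_pow_self
    have h4 : M₀ ≤ k := le_max_left _ _
    omega
  let aR : κ → ℤ := fun k' => if k' = i then (M : ℤ) else 0
  let aL : κ → ℤ := fun k' => if k' = i then -(M : ℤ) else 0
  let PR : Flag κ d → Prop := fun τ => ∀ k', -(M : ℤ) ≤ τ.1 k' - aR k' ∧ τ.1 k' - aR k' < M
  let PL : Flag κ d → Prop := fun τ => ∀ k', -(M : ℤ) ≤ τ.1 k' - aL k' ∧ τ.1 k' - aL k' < M
  have hsR := sum_shift e g hM aR (by
    intro k'
    show |if k' = i then (M : ℤ) else 0| ≤ (M : ℤ)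
    split_ifs
    · rw [abs_of_nonneg (Int.natCast_nonneg M)]
    · rw [abs_zero]
      exact Int.natCast_nonneg M) PR fun τ => Iff.rfl
  have hsL := sum_shift e g hM aL (by
    intro k'
    show |if k' = i then -(M : ℤ) else 0| ≤ (M : ℤ)
    split_ifs
    · rw [abs_neg, abs_of_nonneg (Int.natCast_nonneg M)]
    · rw [abs_zero]
      exact Int.natCast_nonneg M) PL fun τ => Iff.rfl
  have hgR : (fun z => g ((1 / 2 : ℝ) • z + fun k' => (aR k' : ℝ) / (2 * M))) = gR := by
    funext z
    have h3 : ∀ k', ((1 / 2 : ℝ) • z + fun k' => (aR k' : ℝ) / (2 * M)) k' =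
        if k' = i then (z k' + 1) / 2 else z k' / 2 := by
      intro k'
      show (1 / 2 : ℝ) * z k' + (((if k' = i then (M : ℤ) else 0 : ℤ)) : ℝ) / (2 * M) = _
      split_ifs
      · push_cast
        field_simp
      · push_cast
        ring
    show f (qm i i' 1 _) = f (hm i i' 1 z)
    congr 1
    funext k'
    unfold qm hm
    rw [h3, h3, h3, if_pos rfl, if_neg hii.symm]
    split_ifs
    · ring
    · ring
    · ring
  have hgL : (fun z => g ((1 / 2 : ℝ) • z + fun k' => (aL k' : ℝ) / (2 * M))) =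
      fun z => gR (ZD.flip {i, i'} z) := by
    funext z
    have h3 : ∀ k', ((1 / 2 : ℝ) • z + fun k' => (aL k' : ℝ) / (2 * M)) k' =
        if k' = i then (z k' - 1) / 2 else z k' / 2 := by
      intro k'
      show (1 / 2 : ℝ) * z k' + (((if k' = i then -(M : ℤ) else 0 : ℤ)) : ℝ) / (2 * M) = _
      split_ifs
      · push_cast
        field_simp
        ring
      · push_cast
        ring
    have h4 : ZD.flip {i, i'} z i = -z i := by
      unfold ZD.flip
      rw [if_pos (by simp)]
    have h5 : ZD.flip {i, i'} z i' = -z i' := by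
      unfold ZD.flip
      rw [if_pos (by simp)]
    show f (qm i i' 1 _) = f (hm i i' 1 _)
    congr 1
    funext k'
    unfold qm hm
    rw [h3, h3, h3, if_pos rfl, if_neg hii.symm, h4, h5]
    split_ifs with h6 h7
    · ring
    · ring
    · have h8 : ZD.flip {i, i'} z k' = z k' := by
        unfold ZD.flip
        rw [if_neg]
        simp [h6, h7]
      rw [h8]
      ring
  rw [hgR, e2] at hsR
  rw [hgL, e3] at hsL
  -- the sum
  have hsum : TZ e (2 * M) (sgm g (2 * M) 0) = δ + δ := by
    rw [TZ_split e (2 * M) _ PR, hsR]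
    congr 1
    rw [← hsL]
    symm
    refine Finset.sum_subset ?_ ?_
    · intro τ hτ
      rw [Finset.mem_filter] at hτ ⊢
      refine ⟨hτ.1, fun h3 => ?_⟩
      have h4 := hτ.2 i
      have h5 := h3 i
      simp only [aR, aL, if_true] at h4 h5
      omega
    · intro τ hτ hτ'
      rw [Finset.mem_filter] at hτ hτ'
      have h3 : ¬ PL τ := fun h4 => hτ' ⟨hτ.1, h4⟩
      rw [hsm (2 * M) hMM 0 τ, mul_zero]
      intro l
      refine ⟨?_, ?_⟩
      · rw [mem_closedBall_zero_iff]
        exact norm_pt_le (by omega) fun k' => vtx_abs hτ.1 l k'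
      · rw [Set.mem_iUnion₂]
        by_contra hc
        push Not at hc
        have h4 : ∀ k', k' ≠ i → -(M : ℤ) ≤ τ.1 k' ∧ τ.1 k' < M := by
          intro k' hk'
          by_contra h5
          exact hc k' hk' (pt_abs_ge hM (vtx_outer h5 l))
        have h5 := (mem_flags.1 hτ.1) i
        push_cast at h5
        by_cases h6 : 0 ≤ τ.1 i
        · refine hτ.2 fun k' => ?_
          show -(M : ℤ) ≤ τ.1 k' - (if k' = i then (M : ℤ) else 0) ∧
            τ.1 k' - (if k' = i then (M : ℤ) else 0) < M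
          by_cases hk' : k' = i
          · rw [if_pos hk', hk']
            omega
          · rw [if_neg hk']
            have := h4 k' hk'
            omega
        · refine h3 fun k' => ?_
          show -(M : ℤ) ≤ τ.1 k' - (if k' = i then -(M : ℤ) else 0) ∧
            τ.1 k' - (if k' = i then -(M : ℤ) else 0) < M
          by_cases hk' : k' = i
          · rw [if_pos hk', hk']
            omega
          · rw [if_neg hk']
            have := h4 k' hk'
            omega
  have hδδ : δ' = 2 * δ := by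
    rw [← e1, hsum]
    ring
  have hg2 : IsDeg e g (2 * δ) := by
    rw [← hδδ]
    exact ⟨k₁, hk₁⟩
  have h2 := IsDeg.htp hd (H := fun t z => f (qm i i' (1 - t) z)) (δ := 2 * δ) (e := e) (by
    show IsDeg e (fun z => f (qm i i' (1 - 0) z)) (2 * δ)
    rw [sub_zero]
    exact hg2) ((hf.comp (hqc.comp (((continuous_const.sub continuous_fst).prodMk
      continuous_snd)))).continuousOn) fun t ht z hz =>
        h0 _ (qm_ne hii ⟨by linarith [ht.2], by linarith [ht.1]⟩ hz)
  have h3 : (fun z => f (sqm i i' z)) = fun z => f (qm i i' (1 - 1) z) := by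
    funext z
    rw [sub_self, qm_zero]
  rw [h3]
  exact h2

end Pool.Agent.Helper59.ZD
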