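import Pool.Agent.Helper59.ZD.Geo
import Pool.Agent.Helper59.ZD.Dbl

set_option autoImplicit false
set_option linter.unusedSectionVars false

/-!
# There is no odd map of a large sphere to the complement of the two-frames
-/

namespace Pool.Agent.Helper59.ZD

open Matrix

variable {ι : Type} [Fintype ι] [DecidableEq ι] {m d : ℕ}

/-- The join of a map with a family of frames. -/
def jn (F : (Fin m → ℝ) → Fin d → ℝ) (L : Matrix (Fin 3) (ι × Bool) ℝ →ₗ[ℝ] (Fin d → ℝ))
    (ω : (ι × Bool → ℝ) → Matrix (Fin 3) (ι × Bool) ℝ) (z : Fin m ⊕ (ι × Bool) → ℝ) :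
    Fin d → ℝ := F (fun i => z (Sum.inl i)) - L (ω fun j => z (Sum.inr j))

theorem norm_inr {J : Type} [Fintype J] {z : Fin m ⊕ J → ℝ} (h : ‖z‖ = 1)
    (h0 : (fun i => z (Sum.inl i)) = 0) : ‖fun j => z (Sum.inr j)‖ = 1 := by
  refine le_antisymm ?_ ?_
  · rw [← h, pi_norm_le_iff_of_nonneg (norm_nonneg _)]
    intro j
    exact norm_le_pi_norm z (Sum.inr j)
  · rw [← h, pi_norm_le_iff_of_nonneg (norm_nonneg _)]
    rintro (i | j)
    · have : z (Sum.inl i) = 0 := congrFun h0 i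
      rw [this, norm_zero]
      exact norm_nonneg _
    · exact norm_le_pi_norm (fun j => z (Sum.inr j)) j

theorem continuous_jn {F : (Fin m → ℝ) → Fin d → ℝ} (hF : Continuous F)
    (L : Matrix (Fin 3) (ι × Bool) ℝ →ₗ[ℝ] (Fin d → ℝ)) {X : Type} [TopologicalSpace X]
    {Ω : X → (ι × Bool → ℝ) → Matrix (Fin 3) (ι × Bool) ℝ}
    (hΩ : Continuous fun z : X × (ι × Bool → ℝ) => Ω z.1 z.2) :
    Continuous fun z : X × (Fin m ⊕ (ι × Bool) → ℝ) => jn F L (Ω z.1) z.2 := by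
  have hL : Continuous L := L.continuous_of_finiteDimensional
  have h1 : Continuous fun z : X × (Fin m ⊕ (ι × Bool) → ℝ) => fun i => z.2 (Sum.inl i) := by
    fun_prop
  have h2 : Continuous fun z : X × (Fin m ⊕ (ι × Bool) → ℝ) =>
      (z.1, fun j => z.2 (Sum.inr j)) := by
    fun_prop
  exact (hF.comp h1).sub (hL.comp (hΩ.comp h2))

section

variable {F : (Fin m → ℝ) → Fin d → ℝ} {L : Matrix (Fin 3) (ι × Bool) ℝ →ₗ[ℝ] (Fin d → ℝ)}
  (hF : Continuous F) (hF0 : F 0 = 0) (hL : ∀ Y, L Y = 0 → Y = 0)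
  (hFL : ∀ x, x ≠ 0 → ∀ Y ∈ Cn (ι × Bool), F x ≠ L Y)

include hF0 hL hFL

theorem jn_ne {ω : (ι × Bool → ℝ) → Matrix (Fin 3) (ι × Bool) ℝ} {z : Fin m ⊕ (ι × Bool) → ℝ}
    (hω : (ω fun j => z (Sum.inr j)) ∈ Cn (ι × Bool))
    (h : (fun i => z (Sum.inl i)) = 0 → (ω fun j => z (Sum.inr j)) ≠ 0) : jn F L ω z ≠ 0 := by
  intro h1
  have h2 : F (fun i => z (Sum.inl i)) = L (ω fun j => z (Sum.inr j)) := sub_eq_zero.1 h1
  by_cases hx : (fun i => z (Sum.inl i)) = 0
  · rw [hx, hF0] at h2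
    exact h hx (hL _ h2.symm)
  · exact hFL _ hx _ hω h2

include hF

theorem jn_htp (hd : 0 < d) {e : Fin d ≃ Fin m ⊕ (ι × Bool)} {δ : ℤ}
    {Ω : ℝ → (ι × Bool → ℝ) → Matrix (Fin 3) (ι × Bool) ℝ}
    (hΩ : Continuous fun z : ℝ × (ι × Bool → ℝ) => Ω z.1 z.2)
    (hmem : ∀ t ∈ Set.Icc (0 : ℝ) 1, ∀ y, Ω t y ∈ Cn (ι × Bool))
    (hne : ∀ t ∈ Set.Icc (0 : ℝ) 1, ∀ y, ‖y‖ = 1 → Ω t y ≠ 0)
    (h : IsDeg e (jn F L (Ω 0)) δ) : IsDeg e (jn F L (Ω 1)) δ := by
  refine IsDeg.htp hd (H := fun t => jn F L (Ω t)) h (continuous_jn hF L hΩ).continuousOn ?_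
  intro t ht z hz
  exact jn_ne hF0 hL hFL (hmem t ht _) fun h0 => hne t ht _ (norm_inr hz h0)

theorem jn_deg (hd : 0 < d) (e : Fin d ≃ Fin m ⊕ (ι × Bool))
    {ω : (ι × Bool → ℝ) → Matrix (Fin 3) (ι × Bool) ℝ} (hω : Continuous ω)
    (hmem : ∀ y, ω y ∈ Cn (ι × Bool)) (hne : ∀ y, ‖y‖ = 1 → ω y ≠ 0) :
    ∃ δ, IsDeg e (jn F L ω) δ := by
  have h1 : Continuous (jn F L ω) := by
    have h2 := continuous_jn (X := ℝ) hF L (Ω := fun _ => ω) (hω.comp continuous_snd)
    exact h2.comp (continuous_const.prodMk continuous_id : Continuous fun z :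
      Fin m ⊕ (ι × Bool) → ℝ => ((0 : ℝ), z))
  refine exists_deg hd e _ h1.continuousOn fun z hz => ?_
  exact jn_ne hF0 hL hFL (hmem _) fun h0 => hne _ (norm_inr hz h0)

end

theorem jn_sqm (F : (Fin m → ℝ) → Fin d → ℝ)
    (L : Matrix (Fin 3) (ι × Bool) ℝ →ₗ[ℝ] (Fin d → ℝ))
    (ω : (ι × Bool → ℝ) → Matrix (Fin 3) (ι × Bool) ℝ) (i i' : ι × Bool)
    (z : Fin m ⊕ (ι × Bool) → ℝ) : jn F L ω (sqm (Sum.inr i) (Sum.inr i') z) =
      jn F L (fun y => ω (sqm i i' y)) z := by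
  unfold jn
  congr 2
  congr 1
  funext j
  unfold sqm
  by_cases h1 : j = i
  · rw [if_pos h1, if_pos (by rw [h1])]
  · rw [if_neg h1, if_neg (by simpa using h1)]
    by_cases h2 : j = i'
    · rw [if_pos h2, if_pos (by rw [h2])]
    · rw [if_neg h2, if_neg (by simpa using h2)]

theorem jn_flip (F : (Fin m → ℝ) → Fin d → ℝ)
    (L : Matrix (Fin 3) (ι × Bool) ℝ →ₗ[ℝ] (Fin d → ℝ))
    (ω : (ι × Bool → ℝ) → Matrix (Fin 3) (ι × Bool) ℝ) (i : ι × Bool)
    (z : Fin m ⊕ (ι × Bool) → ℝ) (h : (ω (ZD.flip {i} fun j => z (Sum.inr j))) =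
      ω fun j => z (Sum.inr j)) : jn F L ω (ZD.flip {Sum.inr i} z) = jn F L ω z := by
  unfold jn
  have h1 : (fun k => ZD.flip {Sum.inr i} z (Sum.inl k)) = fun k => z (Sum.inl k) := by
    funext k
    unfold ZD.flip
    rw [if_neg (by simp)]
  have h2 : (fun j => ZD.flip {Sum.inr i} z (Sum.inr j)) = ZD.flip {i} fun j => z (Sum.inr j) := by
    funext j
    unfold ZD.flip
    by_cases hj : j = i
    · rw [if_pos (by simp [hj]), if_pos (by simp [hj])]
    · rw [if_neg (by simp [hj]), if_neg (by simp [hj])]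
  rw [h1, h2, h]

theorem sqm_ne {J : Type} [Fintype J] [DecidableEq J] {i i' : J} (hii : i ≠ i') {z : J → ℝ}
    (hz : z ≠ 0) : sqm i i' z ≠ 0 := by
  intro h
  apply hz
  have h1 : z i ^ 2 - z i' ^ 2 = 0 := by
    have := congrFun h i
    unfold sqm at this
    rwa [if_pos rfl] at this
  have h2 : 2 * z i * z i' = 0 := by
    have := congrFun h i'
    unfold sqm at this
    rwa [if_neg hii.symm, if_pos rfl] at this
  have h3 : (z i ^ 2 + z i' ^ 2) ^ 2 = 0 := by
    have : (z i ^ 2 + z i' ^ 2) ^ 2 = (z i ^ 2 - z i' ^ 2) ^ 2 + (2 * z i * z i') ^ 2 := by ring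
    rw [this, h1, h2]
    norm_num
  have h4 : z i ^ 2 + z i' ^ 2 = 0 := pow_eq_zero_iff (two_ne_zero) |>.1 h3
  have h5 : z i = 0 := by nlinarith [sq_nonneg (z i), sq_nonneg (z i')]
  have h6 : z i' = 0 := by nlinarith [sq_nonneg (z i), sq_nonneg (z i')]
  funext k
  by_cases hk : k = i
  · rw [hk, h5]
    rfl
  · by_cases hk' : k = i'
    · rw [hk', h6]
      rfl
    · have := congrFun h k
      unfold sqm at this
      rwa [if_neg hk, if_neg hk'] at this

theorem continuous_sqm {J : Type} [Fintype J] [DecidableEq J] (i i' : J) :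
    Continuous (sqm i i') := by
  refine continuous_pi fun k => ?_
  unfold sqm
  split_ifs
  · fun_prop
  · fun_prop
  · fun_prop

theorem rh_flip (o : ι) (y : ι × Bool → ℝ) : rh o (ZD.flip {(o, false)} y) = rh o y := by
  have h1 : ZD.flip {(o, false)} y (o, false) = -y (o, false) := by
    unfold ZD.flip
    rw [if_pos (by simp)]
  have h2 : ZD.flip {(o, false)} y (o, true) = y (o, true) := by
    unfold ZD.flip
    rw [if_neg (by simp)]
  unfold rh
  rw [h1, h2, abs_neg]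

theorem zt_flip (o : ι) (y : ι × Bool → ℝ) : zt o (ZD.flip {(o, false)} y) = zt o y := by
  funext j
  unfold zt
  rw [rh_flip]
  by_cases hj : j.1 = o
  · rw [if_pos hj, if_pos hj]
  · rw [if_neg hj, if_neg hj]
    unfold ZD.flip
    rw [if_neg]
    intro h
    rw [Finset.mem_singleton] at h
    rw [h] at hj
    exact hj rfl

theorem lm_zero {r : ℝ} (h : 1 / 2 ≤ r) : lm 0 r = 0 := by
  unfold lm
  rw [max_eq_right (by linarith)]
  ring

theorem lm_one (r : ℝ) : lm 1 r = 1 := by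
  unfold lm
  ring

theorem rh_ge {o : ι} {y : ι × Bool → ℝ} (h : 1 / 2 ≤ |y (o, false)| ∨ 1 / 2 ≤ |y (o, true)|) :
    1 / 2 ≤ rh o y := by
  rcases h with h | h
  · exact h.trans (le_max_left _ _)
  · exact h.trans (le_max_right _ _)

theorem Hm_out (o o' : ι) (ε : ℝ) {y : ι × Bool → ℝ} (h : 1 / 2 ≤ rh o y) :
    Hm o o' ε 0 y = fr o ε (zt o y) := by
  unfold Hm
  rw [lm_zero h, Gm_zero o o' ε (un_unit _ _)]

/-- The line from the last stage of the homotopy to the fourth power. -/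
noncomputable def Ln (o o' : ι) (s : ℝ) (y : ι × Bool → ℝ) : Matrix (Fin 3) (ι × Bool) ℝ :=
  (1 - s) • Hm o o' (-1) 1 y +
    s • fr o (-1) (sqm (o, false) (o, true) (sqm (o, false) (o, true) y))

theorem Hm_neg_one {o o' : ι} (hoo : o ≠ o') (y : ι × Bool → ℝ) :
    Hm o o' (-1) 1 y = fr o (-1) (mo o
      (((un (y (o, false)) (y (o, true))).1 ^ 2 - (un (y (o, false)) (y (o, true))).2 ^ 2) ^ 2 -
        (2 * (un (y (o, false)) (y (o, true))).1 * (un (y (o, false)) (y (o, true))).2) ^ 2)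
      (2 * ((un (y (o, false)) (y (o, true))).1 ^ 2 - (un (y (o, false)) (y (o, true))).2 ^ 2) *
        (2 * (un (y (o, false)) (y (o, true))).1 * (un (y (o, false)) (y (o, true))).2))
      (zt o y)) := by
  unfold Hm
  rw [lm_one, Gm_one_neg hoo (un_unit _ _)]

theorem Ln_mem {o o' : ι} (hoo : o ≠ o') (s : ℝ) (y : ι × Bool → ℝ) :
    Ln o o' s y ∈ Cn (ι × Bool) := by
  unfold Ln
  rw [Hm_neg_one hoo, fr_smul_add]
  exact fr_mem o (by norm_num) _

theorem Ln_ne {o o' : ι} (hoo : o ≠ o') {s : ℝ} (hs : s ∈ Set.Icc (0 : ℝ) 1)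
    {y : ι × Bool → ℝ} (hy : ‖y‖ = 1) : Ln o o' s y ≠ 0 := by
  intro h
  unfold Ln at h
  rw [Hm_neg_one hoo, fr_smul_add] at h
  have h1 := fr_eq_zero o h
  have hs0 := hs.1
  have hs1 := hs.2
  -- the other planes
  have h2 : ∀ k b, k ≠ o → y (k, b) = 0 := by
    intro k b hk
    have h3 := congrFun h1 (k, b)
    have h4 : (1 - s) * mo o _ _ (zt o y) (k, b) +
      s * sqm (o, false) (o, true) (sqm (o, false) (o, true) y) (k, b) = 0 := h3
    have h5 : ((k, b) : ι × Bool) ≠ (o, false) := fun h => hk (Prod.ext_iff.1 h).1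
    have h6 : ((k, b) : ι × Bool) ≠ (o, true) := fun h => hk (Prod.ext_iff.1 h).1
    unfold mo zt sqm at h4
    rw [if_neg (by exact hk), if_neg (by exact hk), if_neg h5, if_neg h6, if_neg h5, if_neg h6] at h4
    linarith
  -- the plane `o`
  set a := y (o, false) with ha
  set b := y (o, true) with hb
  have hab : rh o y = 1 := by
    refine le_antisymm ?_ ?_
    · refine max_le ?_ ?_
      · rw [← hy, ← Real.norm_eq_abs]
        exact norm_le_pi_norm y _
      · rw [← hy, ← Real.norm_eq_abs]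
        exact norm_le_pi_norm y _
    · rw [← hy]
      have h3 : 0 ≤ rh o y := (abs_nonneg _).trans (le_max_left _ _)
      rw [pi_norm_le_iff_of_nonneg h3]
      rintro ⟨k, c⟩
      rw [Real.norm_eq_abs]
      by_cases hk : k = o
      · rw [hk]
        cases c
        · exact le_max_left _ _
        · exact le_max_right _ _
      · rw [h2 k c hk, abs_zero]
        exact h3
  have h0 : ¬ (a = 0 ∧ b = 0) := by
    rintro ⟨h3, h4⟩
    have h5 : rh o y = 0 := by
      unfold rh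
      rw [← ha, ← hb, h3, h4, abs_zero, max_self]
    rw [hab] at h5
    exact one_ne_zero h5
  have hr2 := sq_pos_of h0
  set r := Real.sqrt (a ^ 2 + b ^ 2) with hr
  have hrp : 0 < r := Real.sqrt_pos.2 hr2
  have hun : un a b = (a / r, b / r) := if_neg h0
  have hu := un_unit a b
  rw [hun] at h1 hu
  set u := a / r with hud
  set v := b / r with hvd
  have hau : a = r * u := by
    rw [hud]
    field_simp
  have hbv : b = r * v := by
    rw [hvd]
    field_simp
  have huv : u ^ 2 + v ^ 2 = 1 := hu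
  have hz1 : zt o y (o, false) = 1 := by
    unfold zt
    rw [if_pos rfl, if_neg (by simp), hab]
    norm_num
  have hz2 : zt o y (o, true) = 0 := by
    unfold zt
    rw [if_pos rfl, if_pos rfl]
  have hne : ((o, true) : ι × Bool) ≠ (o, false) := by simp
  have e1 : (1 - s) * ((u ^ 2 - v ^ 2) ^ 2 - (2 * u * v) ^ 2) +
      s * ((a ^ 2 - b ^ 2) ^ 2 - (2 * a * b) ^ 2) = 0 := by
    have h3 := congrFun h1 (o, false)
    have h4 : (1 - s) * mo o ((u ^ 2 - v ^ 2) ^ 2 - (2 * u * v) ^ 2)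
      (2 * (u ^ 2 - v ^ 2) * (2 * u * v)) (zt o y) (o, false) +
      s * sqm (o, false) (o, true) (sqm (o, false) (o, true) y) (o, false) = 0 := h3
    have h5 : mo o ((u ^ 2 - v ^ 2) ^ 2 - (2 * u * v) ^ 2)
      (2 * (u ^ 2 - v ^ 2) * (2 * u * v)) (zt o y) (o, false) =
        (u ^ 2 - v ^ 2) ^ 2 - (2 * u * v) ^ 2 := by
      unfold mo
      rw [if_pos rfl, if_neg (by simp)]
      show _ * zt o y (o, false) - _ * zt o y (o, true) = _
      rw [hz1, hz2]
      ring
    have h6 : sqm (o, false) (o, true) (sqm (o, false) (o, true) y) (o, false) =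
        (a ^ 2 - b ^ 2) ^ 2 - (2 * a * b) ^ 2 := by
      unfold sqm
      rw [if_pos rfl, if_pos rfl, if_neg hne, if_pos rfl]
    rw [h5, h6] at h4
    exact h4
  have e2 : (1 - s) * (2 * (u ^ 2 - v ^ 2) * (2 * u * v)) +
      s * (2 * (a ^ 2 - b ^ 2) * (2 * a * b)) = 0 := by
    have h3 := congrFun h1 (o, true)
    have h4 : (1 - s) * mo o ((u ^ 2 - v ^ 2) ^ 2 - (2 * u * v) ^ 2)
      (2 * (u ^ 2 - v ^ 2) * (2 * u * v)) (zt o y) (o, true) +
      s * sqm (o, false) (o, true) (sqm (o, false) (o, true) y) (o, true) = 0 := h3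
    have h5 : mo o ((u ^ 2 - v ^ 2) ^ 2 - (2 * u * v) ^ 2)
      (2 * (u ^ 2 - v ^ 2) * (2 * u * v)) (zt o y) (o, true) =
        2 * (u ^ 2 - v ^ 2) * (2 * u * v) := by
      unfold mo
      rw [if_pos rfl, if_pos rfl]
      show _ * zt o y (o, false) + _ * zt o y (o, true) = _
      rw [hz1, hz2]
      ring
    have h6 : sqm (o, false) (o, true) (sqm (o, false) (o, true) y) (o, true) =
        2 * (a ^ 2 - b ^ 2) * (2 * a * b) := by
      unfold sqm
      rw [if_neg hne, if_pos rfl, if_pos rfl, if_neg hne, if_pos rfl]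
    rw [h5, h6] at h4
    exact h4
  set A := (u ^ 2 - v ^ 2) ^ 2 - (2 * u * v) ^ 2 with hA
  set B := 2 * (u ^ 2 - v ^ 2) * (2 * u * v) with hB
  have hAB : A ^ 2 + B ^ 2 = 1 := by
    have : A ^ 2 + B ^ 2 = (u ^ 2 + v ^ 2) ^ 4 := by
      rw [hA, hB]
      ring
    rw [this, huv, one_pow]
  have f1 : ((1 - s) + s * r ^ 4) * A = 0 := by
    rw [← e1, hau, hbv, hA]
    ring
  have f2 : ((1 - s) + s * r ^ 4) * B = 0 := by
    rw [← e2, hau, hbv, hB]
    ring
  have hc : 0 < (1 - s) + s * r ^ 4 := by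
    rcases hs0.eq_or_lt with h3 | h3
    · rw [← h3]
      norm_num
    · have : 0 < s * r ^ 4 := by positivity
      linarith
  have hA0 : A = 0 := (mul_eq_zero.1 f1).resolve_left hc.ne'
  have hB0 : B = 0 := (mul_eq_zero.1 f2).resolve_left hc.ne'
  rw [hA0, hB0] at hAB
  norm_num at hAB

/-- **There is no odd map** of a sphere of dimension `d - 2 card ι - 1` to the complement of the
cone of the two-frames in all planes of rows. -/
theorem no_odd {o o' : ι} (hoo : o ≠ o') {m d : ℕ} (hd : m + 2 * Fintype.card ι = d)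
    {F : (Fin m → ℝ) → Fin d → ℝ} {L : Matrix (Fin 3) (ι × Bool) ℝ →ₗ[ℝ] (Fin d → ℝ)}
    (hF : Continuous F) (hF0 : F 0 = 0) (hodd : ∀ x, F (-x) = -F x)
    (hL : ∀ Y, L Y = 0 → Y = 0) (hFL : ∀ x, x ≠ 0 → ∀ Y ∈ Cn (ι × Bool), F x ≠ L Y) : False := by
  classical
  have hcard : Fintype.card (Fin m ⊕ (ι × Bool)) = d := by
    rw [Fintype.card_sum, Fintype.card_fin, Fintype.card_prod, Fintype.card_bool]
    omega
  have hd0 : 0 < d := by
    have : 0 < Fintype.card ι := Fintype.card_pos_iff.2 ⟨o⟩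
    omega
  let e : Fin d ≃ Fin m ⊕ (ι × Bool) := (Fintype.equivFinOfCardEq hcard).symm
  have h11 : (1 : ℝ) ^ 2 = 1 := by norm_num
  have h1m : (-1 : ℝ) ^ 2 = 1 := by norm_num
  have hpc : Continuous fun z : ℝ × (ι × Bool → ℝ) => Hm o o' 1 z.1 z.2 :=
    continuous_Hm hoo (Or.inl rfl)
  have hmc : Continuous fun z : ℝ × (ι × Bool → ℝ) => Hm o o' (-1) z.1 z.2 :=
    continuous_Hm hoo (Or.inr rfl)
  have hslice : ∀ {Ω : ℝ → (ι × Bool → ℝ) → Matrix (Fin 3) (ι × Bool) ℝ},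
      Continuous (fun z : ℝ × (ι × Bool → ℝ) => Ω z.1 z.2) → ∀ t, Continuous (Ω t) := by
    intro Ω h t
    exact h.comp (continuous_const.prodMk continuous_id)
  obtain ⟨δp, hp⟩ := jn_deg hF hF0 hL hFL hd0 e (hslice hpc 0) (Hm_mem o o' h11 0)
    fun y hy => Hm_ne o o' h11 0 hy
  obtain ⟨δm, hm⟩ := jn_deg hF hF0 hL hFL hd0 e (hslice hmc 0) (Hm_mem o o' h1m 0)
    fun y hy => Hm_ne o o' h1m 0 hy
  have hout : ∀ ε : ℝ, ∀ z : Fin m ⊕ (ι × Bool) → ℝ, ‖z‖ ≤ 1 →
      (1 / 2 ≤ |z (Sum.inr (o, false))| ∨ 1 / 2 ≤ |z (Sum.inr (o, true))|) →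
      jn F L (Hm o o' ε 0) (ZD.flip {Sum.inr (o, false)} z) = jn F L (Hm o o' ε 0) z := by
    intro ε z _ h
    refine jn_flip F L _ _ z ?_
    have h1 : 1 / 2 ≤ rh o fun j => z (Sum.inr j) := rh_ge h
    rw [Hm_out o o' ε h1, Hm_out o o' ε (by rw [rh_flip]; exact h1), zt_flip]
  have hδ : δp = δm := by
    refine hp.region hm (Sum.inr (o, false)) (Sum.inr (o, true)) ?_ (hout 1) (hout (-1))
    intro z _ h h'
    have h1 : rh o (fun j => z (Sum.inr j)) ≤ 1 / 2 := max_le h h'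
    unfold jn
    congr 2
    unfold Hm Gm
    rw [fr_of_zero 1 (-1) (zt_zero h1)]
  have hp1 : IsDeg e (jn F L (Hm o o' 1 1)) δp :=
    jn_htp hF hF0 hL hFL hd0 hpc (fun t _ y => Hm_mem o o' h11 t y)
      (fun t _ y hy => Hm_ne o o' h11 t hy) hp
  have hm1 : IsDeg e (jn F L (Hm o o' (-1) 1)) δm :=
    jn_htp hF hF0 hL hFL hd0 hmc (fun t _ y => Hm_mem o o' h1m t y)
      (fun t _ y hy => Hm_ne o o' h1m t hy) hm
  have hp0 : δp = 0 := by
    refine hp1.zero {Sum.inr (o, false)} (by rw [Finset.card_singleton]; exact odd_one) fun z => ?_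
    refine jn_flip F L _ _ z ?_
    have h1 : ∀ y : ι × Bool → ℝ, Hm o o' 1 1 y = fr o 1 (zt o y) := by
      intro y
      unfold Hm
      rw [lm_one, Gm_one_pos hoo (un_unit _ _)]
    rw [h1, h1, zt_flip]
  have hfrc : Continuous (fr o (-1) : (ι × Bool → ℝ) → Matrix (Fin 3) (ι × Bool) ℝ) :=
    continuous_fr o (-1) continuous_id
  have hsq := continuous_sqm ((o, false) : ι × Bool) (o, true)
  have hm2 : IsDeg e (jn F L fun y => fr o (-1)
      (sqm (o, false) (o, true) (sqm (o, false) (o, true) y))) δm := by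
    have h0 : Ln o o' 0 = Hm o o' (-1) 1 := by
      funext y
      unfold Ln
      rw [sub_zero, one_smul, zero_smul, add_zero]
    have h1 : Ln o o' 1 = fun y => fr o (-1)
        (sqm (o, false) (o, true) (sqm (o, false) (o, true) y)) := by
      funext y
      unfold Ln
      rw [sub_self, one_smul, zero_smul, zero_add]
    have h2 := jn_htp hF hF0 hL hFL hd0 (e := e) (δ := δm) (Ω := Ln o o') ?_
      (fun s _ y => Ln_mem hoo s y) (fun s hs y hy => Ln_ne hoo hs hy) (by rw [h0]; exact hm1)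
    · rw [h1] at h2
      exact h2
    · unfold Ln
      refine Continuous.add ?_ ?_
      · exact (continuous_const.sub continuous_fst).smul ((hslice hmc 1).comp continuous_snd)
      · exact continuous_fst.smul (hfrc.comp (hsq.comp (hsq.comp continuous_snd)))
  have hfr0 : ∀ z : Fin m ⊕ (ι × Bool) → ℝ, z ≠ 0 → jn F L (fr o (-1)) z ≠ 0 := by
    intro z hz
    refine jn_ne hF0 hL hFL (fr_mem o h1m _) fun h1 h2 => hz ?_
    have h3 := fr_eq_zero o h2
    funext k
    rcases k with k | k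
    · exact congrFun h1 k
    · exact congrFun h3 k
  have hfc : Continuous (jn F L (fr o (-1))) := by
    have h2 := continuous_jn (X := ℝ) hF L (Ω := fun _ => fr o (-1)) (hfrc.comp continuous_snd)
    exact h2.comp (continuous_const.prodMk continuous_id : Continuous fun z :
      Fin m ⊕ (ι × Bool) → ℝ => ((0 : ℝ), z))
  obtain ⟨δ0, h0⟩ := jn_deg hF hF0 hL hFL hd0 e hfrc (fr_mem o h1m) fun y hy h => by
    have h3 := fr_eq_zero o h
    rw [h3, norm_zero] at hy
    exact zero_ne_one hy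
  have hii : (Sum.inr (o, false) : Fin m ⊕ (ι × Bool)) ≠ Sum.inr (o, true) := by simp
  have h4 := h0.double hd0 hfc hfr0 hii
  have h5 := h4.double hd0 (hfc.comp (continuous_sqm _ _))
    (fun z hz => hfr0 _ (sqm_ne hii hz)) hii
  have h6 : (fun z => jn F L (fr o (-1)) (sqm (Sum.inr (o, false)) (Sum.inr (o, true))
      (sqm (Sum.inr (o, false)) (Sum.inr (o, true)) z))) = jn F L fun y => fr o (-1)
      (sqm (o, false) (o, true) (sqm (o, false) (o, true) y)) := by
    funext z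
    rw [jn_sqm, jn_sqm]
  have h7 : δm = 2 * (2 * δ0) := by
    refine hm2.unique ?_
    rw [← h6]
    exact h5
  have h8 : (δ0 : ZMod 2) = 1 := by
    refine h0.odd fun z _ => ?_
    unfold jn
    have h9 : (fun i => (-z) (Sum.inl i)) = -fun i => z (Sum.inl i) := rfl
    have h10 : fr o (-1) (fun j => (-z) (Sum.inr j)) = -fr o (-1) fun j => z (Sum.inr j) := by
      have h12 := fr_smul_add o (-1) (-1) 0 (fun j => z (Sum.inr j)) 0
      rw [zero_smul, add_zero, zero_smul, add_zero, neg_one_smul, neg_one_smul] at h12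
      rw [h12]
      rfl
    rw [h9, hodd, h10, map_neg]
    abel
  have h9 : δ0 = 0 := by omega
  rw [h9] at h8
  exact absurd h8 (by decide)

end Pool.Agent.Helper59.ZD
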