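import Pool.Agent.Helper59.ZD.Final
import Pool.Agent.Helper59.ZD.Top

set_option autoImplicit false

/-!
# The subgroups `U(1, m)` of `O(r, 2 m)` for `r ≥ 3`
-/

namespace Pool.Agent.Helper59.ZD

open Matrix Module Pool.Agent.Helper17.CKF Pool.Agent.Helper40.CK Pool.Agent.Helper20.CKP
  Pool.Agent.Helper29.CKP Pool.Agent.Helper20.EH Pool.Agent.Helper17.ZD

section

variable {m : ℕ} {G : Type} [Group G] [TopologicalSpace G] [IsTopologicalGroup G]

/-- The odd map of a cocompact discontinuous group, in coordinates. -/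
theorem exists_coord (M : MatGroup G m) {p q : Submodule ℝ (Matrix (Fin m) (Fin m) ℝ)}
    {H Γ : Subgroup G} (hG : Cartan M ⊤ p) (hH : Cartan M H q)
    (hΓ : IsCocompactDiscontinuousGroup Γ H) :
    ∃ (l : ℕ) (F : (Fin l → ℝ) → p), l + finrank ℝ q = finrank ℝ p ∧ Continuous F ∧ F 0 = 0 ∧
      (∀ x, F (-x) = -F x) ∧ ∀ x, x ≠ 0 → ∀ k : G, M.ι k * (M.ι k)ᵀ = 1 → ∀ Y ∈ q,
        (F x : Matrix (Fin m) (Fin m) ℝ) ≠ M.ι k * Y * (M.ι k)ᵀ := by
  classical
  obtain ⟨F, hFc, hF⟩ := odd_map M hG hH hΓ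
  obtain ⟨E, hE, hE1, hE2⟩ := Pool.Agent.Helper20.CKP.finrank_perp q p
  have hqp := cartan_le hG hH
  have hx0 : ∀ x : E, x ≠ 0 → (x : Matrix (Fin m) (Fin m) ℝ) ≠ 0 := fun x hx h =>
    hx (Subtype.ext h)
  have hFx := fun (x : E) (hx : x ≠ 0) => hF x ((hE x).1 x.2).1 ((hE x).1 x.2).2 (hx0 x hx)
  have hF0 : ∀ x : E, x ≠ 0 → F x ≠ 0 := by
    intro x hx h
    refine (hFx x hx).2.2 1 ?_ 0 q.zero_mem ?_
    · rw [map_one, transpose_one, one_mul]
    · rw [h, mul_zero, zero_mul]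
  let f₁ : E → Matrix (Fin m) (Fin m) ℝ :=
    resc (fun x : E => fro (x : Matrix (Fin m) (Fin m) ℝ)) fun x => F x
  have hf₁ : Continuous f₁ := by
    refine continuous_resc (continuous_fro.comp continuous_subtype_val) ?_ ?_ hF0
    · exact fro_zero
    refine hFc.comp continuous_subtype_val.continuousOn ?_
    intro x hx
    exact ⟨((hE x).1 x.2).1, ((hE x).1 x.2).2, hx0 x hx⟩
  have hf₁0 : f₁ 0 = 0 := by
    show (fro (0 : Matrix (Fin m) (Fin m) ℝ) * _) • _ = (0 : Matrix (Fin m) (Fin m) ℝ)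
    rw [fro_zero, zero_mul, zero_smul]
  have hp₁ : ∀ x, f₁ x ∈ p := by
    intro x
    by_cases hx : x = 0
    · rw [hx, hf₁0]
      exact p.zero_mem
    · exact p.smul_mem _ (hFx x hx).1
  let C : (Fin (finrank ℝ E) → ℝ) ≃ₗ[ℝ] E :=
    LinearEquiv.ofFinrankEq _ _ (by rw [finrank_fin_fun])
  have hCc : Continuous C := LinearMap.continuous_of_finiteDimensional C.toLinearMap
  refine ⟨finrank ℝ E, fun x => ⟨f₁ (C x), hp₁ _⟩, le_antisymm (hE2 hqp hG.symm) hE1, ?_, ?_, ?_,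
    ?_⟩
  · exact (hf₁.comp hCc).subtype_mk _
  · refine Subtype.ext ?_
    show f₁ (C 0) = 0
    rw [map_zero, hf₁0]
  · intro x
    refine Subtype.ext ?_
    show f₁ (C (-x)) = -f₁ (C x)
    rw [map_neg]
    by_cases hx : C x = 0
    · rw [hx, neg_zero, hf₁0, neg_zero]
    · show (fro (-(C x : Matrix (Fin m) (Fin m) ℝ)) *
        (fro (F (-(C x : Matrix (Fin m) (Fin m) ℝ))))⁻¹) •
        F (-(C x : Matrix (Fin m) (Fin m) ℝ)) = -((fro (C x : Matrix (Fin m) (Fin m) ℝ) *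
          (fro (F (C x : Matrix (Fin m) (Fin m) ℝ)))⁻¹) • F (C x : Matrix (Fin m) (Fin m) ℝ))
      rw [(hFx _ hx).2.1, fro_neg, fro_neg, smul_neg]
  · intro x hx k hk Y hY h
    have hx' : C x ≠ 0 := fun h => hx (C.map_eq_zero_iff.1 h)
    have h1 : f₁ (C x) = M.ι k * Y * (M.ι k)ᵀ := h
    have hc : 0 < fro (C x : Matrix (Fin m) (Fin m) ℝ) *
        (fro (F (C x : Matrix (Fin m) (Fin m) ℝ)))⁻¹ :=
      mul_pos (fro_pos (hx0 _ hx')) (inv_pos.2 (fro_pos (hF0 _ hx')))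
    set c := fro (C x : Matrix (Fin m) (Fin m) ℝ) *
        (fro (F (C x : Matrix (Fin m) (Fin m) ℝ)))⁻¹ with hcd
    have h2 : f₁ (C x) = c • F (C x : Matrix (Fin m) (Fin m) ℝ) := rfl
    refine (hFx _ hx').2.2 k hk (c⁻¹ • Y) (q.smul_mem _ hY) ?_
    rw [mul_smul_comm, smul_mul_assoc, ← h1, h2, smul_smul, inv_mul_cancel₀ hc.ne', one_smul]

end

variable {K : Type} [RCLike K]

/-- A third orthonormal column. -/
theorem exists_third {r : ℕ} (hr : 3 ≤ r) (U : Matrix (Fin r) (Fin 2) K) :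
    ∃ u : Fin r → K, Uᴴ *ᵥ u = 0 ∧ star u ⬝ᵥ u = 1 := by
  have h1 : LinearMap.ker (Matrix.mulVecLin Uᴴ) ≠ ⊥ := by
    refine LinearMap.ker_ne_bot_of_finrank_lt ?_
    rw [Module.finrank_fintype_fun_eq_card, Module.finrank_fintype_fun_eq_card, Fintype.card_fin,
      Fintype.card_fin]
    omega
  obtain ⟨w, hw, hw0⟩ := (Submodule.ne_bot_iff _).1 h1
  have hw' : Uᴴ *ᵥ w = 0 := hw
  have h2 : star w ⬝ᵥ w = algebraMap ℝ K (∑ i, ‖w i‖ ^ 2) := by
    rw [dotProduct, map_sum]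
    refine Finset.sum_congr rfl fun i _ => ?_
    rw [Pi.star_apply, RCLike.star_def, RCLike.conj_mul, map_pow, RCLike.algebraMap_eq_ofReal]
  have h3 : 0 < ∑ i, ‖w i‖ ^ 2 := by
    obtain ⟨i, hi⟩ : ∃ i, w i ≠ 0 := by
      by_contra hc
      push Not at hc
      exact hw0 (funext hc)
    refine Finset.sum_pos' (fun i _ => by positivity) ⟨i, Finset.mem_univ _, ?_⟩
    have := norm_pos_iff.2 hi
    positivity
  set s := ∑ i, ‖w i‖ ^ 2 with hs
  refine ⟨algebraMap ℝ K (Real.sqrt s)⁻¹ • w, ?_, ?_⟩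
  · rw [mulVec_smul, hw', smul_zero]
  · rw [star_smul, star_alg, smul_dotProduct, dotProduct_smul, h2, smul_eq_mul, smul_eq_mul,
      ← map_mul, ← map_mul, ← map_one (algebraMap ℝ K)]
    congr 1
    have h4 : Real.sqrt s ≠ 0 := (Real.sqrt_pos.2 h3).ne'
    field_simp
    rw [Real.sq_sqrt h3.le]

/-- The matrix with the third column. -/
def col3 {r : ℕ} (U : Matrix (Fin r) (Fin 2) K) (u : Fin r → K) : Matrix (Fin r) (Fin 3) K :=
  Matrix.of fun i => ![U i 0, U i 1, u i]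

theorem col3_orth {r : ℕ} {U : Matrix (Fin r) (Fin 2) K} {u : Fin r → K} (hU : Uᴴ * U = 1)
    (hu : Uᴴ *ᵥ u = 0) (hu' : star u ⬝ᵥ u = 1) : (col3 U u)ᴴ * col3 U u = 1 := by
  have h1 : ∀ a b : Fin 2, ∑ i, star (U i a) * U i b = if a = b then 1 else 0 := by
    intro a b
    have := congrFun (congrFun hU a) b
    rw [Matrix.mul_apply, Matrix.one_apply] at this
    exact this
  have h2 : ∀ a : Fin 2, ∑ i, star (U i a) * u i = 0 := by
    intro a
    exact congrFun hu a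
  have h3 : ∀ a : Fin 2, ∑ i, star (u i) * U i a = 0 := by
    intro a
    have h4 := congrArg star (h2 a)
    rw [star_sum, star_zero] at h4
    rw [← h4]
    refine Finset.sum_congr rfl fun i _ => ?_
    rw [star_mul, star_star]
  have h5 : ∑ i, star (u i) * u i = 1 := hu'
  ext a b
  rw [Matrix.mul_apply]
  fin_cases a <;> fin_cases b
  · exact h1 0 0
  · exact h1 0 1
  · exact h2 0
  · exact h1 1 0
  · exact h1 1 1
  · exact h2 1
  · exact h3 0
  · exact h3 1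
  · exact h5

theorem col3_D3 {r : ℕ} (U : Matrix (Fin r) (Fin 2) K) (u : Fin r → K) :
    col3 U u * D3.map (algebraMap ℝ K) * (col3 U u)ᴴ = U * Uᴴ := by
  ext i j
  have h3 : (U * Uᴴ) i j = U i 0 * star (U j 0) + U i 1 * star (U j 1) := by
    rw [Matrix.mul_apply, Fin.sum_univ_two]
    rfl
  have h1 : ∀ k : Fin 3, (col3 U u * D3.map (algebraMap ℝ K)) i k =
      col3 U u i k * algebraMap ℝ K (![1, 1, 0] k) := by
    intro k
    have h2 : D3.map (algebraMap ℝ K) = Matrix.diagonal fun k => algebraMap ℝ K (![1, 1, 0] k) := by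
      unfold D3
      rw [Matrix.diagonal_map (map_zero _)]
    rw [h2, Matrix.mul_diagonal]
  rw [h3, Matrix.mul_apply, Fin.sum_univ_three, h1, h1, h1]
  show U i 0 * algebraMap ℝ K 1 * star (U j 0) + U i 1 * algebraMap ℝ K 1 * star (U j 1) +
    u i * algebraMap ℝ K 0 * star (u j) = U i 0 * star (U j 0) + U i 1 * star (U j 1)
  rw [map_one, map_zero]
  ring

theorem map_mul_conj {l m : ℕ} (Y : Matrix (Fin l) (Fin m) ℝ) :
    Y.map (algebraMap ℝ K) * (Y.map (algebraMap ℝ K))ᴴ = (Y * Yᵀ).map (algebraMap ℝ K) := by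
  rw [map_alg_conjTranspose, ← Matrix.map_mul]

theorem map_smul' {l m : ℕ} (c : ℝ) (Y : Matrix (Fin l) (Fin m) ℝ) :
    (c • Y).map (algebraMap ℝ K) = (algebraMap ℝ K c) • Y.map (algebraMap ℝ K) := by
  ext i j
  rw [Matrix.map_apply, Matrix.smul_apply, Matrix.smul_apply, Matrix.map_apply, smul_eq_mul,
    map_mul, smul_eq_mul]

/-- The unitary matrix which extends the action of `P` on the three columns. -/
theorem exists_ext {r : ℕ} {V : Matrix (Fin r) (Fin 3) K} (hV : Vᴴ * V = 1)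
    {P : Matrix (Fin 3) (Fin 3) ℝ} (hP : P * Pᵀ = 1) :
    ∃ W : Matrix (Fin r) (Fin r) K, W * Wᴴ = 1 ∧ W * V = V * P.map (algebraMap ℝ K) := by
  set P' := P.map (algebraMap ℝ K) with hP'
  have hPP : P' * P'ᴴ = 1 := by rw [hP', map_mul_conj, hP, map_one']
  have hPP' : P'ᴴ * P' = 1 := mul_eq_one_comm.1 hPP
  have hW : (V * P' * Vᴴ + (1 - V * Vᴴ))ᴴ * (V * P' * Vᴴ + (1 - V * Vᴴ)) = 1 := by
    have h1 : (V * P' * Vᴴ + (1 - V * Vᴴ))ᴴ = V * P'ᴴ * Vᴴ + (1 - V * Vᴴ) := by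
      simp only [conjTranspose_add, conjTranspose_sub, conjTranspose_mul, conjTranspose_one,
        conjTranspose_conjTranspose, Matrix.mul_assoc]
    have e1 : (V * P'ᴴ * Vᴴ) * (V * P' * Vᴴ) = V * Vᴴ := by
      calc (V * P'ᴴ * Vᴴ) * (V * P' * Vᴴ) = V * (P'ᴴ * (Vᴴ * V) * P') * Vᴴ := by
            simp only [Matrix.mul_assoc]
        _ = V * Vᴴ := by rw [hV, Matrix.mul_one, hPP', Matrix.mul_one]
    have e2 : (V * P'ᴴ * Vᴴ) * (V * Vᴴ) = V * P'ᴴ * Vᴴ := by
      calc (V * P'ᴴ * Vᴴ) * (V * Vᴴ) = V * P'ᴴ * (Vᴴ * V) * Vᴴ := by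
            simp only [Matrix.mul_assoc]
        _ = _ := by rw [hV, Matrix.mul_one]
    have e3 : (V * Vᴴ) * (V * P' * Vᴴ) = V * P' * Vᴴ := by
      calc (V * Vᴴ) * (V * P' * Vᴴ) = V * (Vᴴ * V) * P' * Vᴴ := by
            simp only [Matrix.mul_assoc]
        _ = _ := by rw [hV, Matrix.mul_one]
    have e4 : (V * Vᴴ) * (V * Vᴴ) = V * Vᴴ := by
      calc (V * Vᴴ) * (V * Vᴴ) = V * (Vᴴ * V) * Vᴴ := by
            simp only [Matrix.mul_assoc]
        _ = _ := by rw [hV, Matrix.mul_one]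
    rw [h1]
    simp only [Matrix.add_mul, Matrix.mul_add, Matrix.sub_mul, Matrix.mul_sub, Matrix.one_mul,
      Matrix.mul_one, e1, e2, e3, e4]
    abel
  refine ⟨_, mul_eq_one_comm.1 hW, ?_⟩
  rw [Matrix.add_mul, Matrix.sub_mul, Matrix.one_mul, Matrix.mul_assoc (V * P'), hV, Matrix.mul_one,
    Matrix.mul_assoc V Vᴴ V, hV, Matrix.mul_one, sub_self, add_zero]

/-- The space `p` of `H` is not that of `U(1, m)` in `O(r, 2 m)`, `r ≥ 3`, `m ≥ 2`. -/
theorem not_two_even (hK : finrank ℝ K = 1) {r n : ℕ} (hr : 3 ≤ r) {H : Subgroup (UpqK K r n)}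
    (hH : IsReductive (H.map (UpqK K r n).subtype)) (had : AdmitsCocompact H)
    {U : Matrix (Fin r) (Fin 2) K} {A : Matrix (Fin n) (Fin n) K}
    {S : Matrix (Fin n) (Fin n) K} (hn : 4 ≤ n) (hU : Uᴴ * U = 1)
    (hA : Aᴴ * A = 1) (hS : Sᵀ = -S) (hSS : S * Sᴴ = 1)
    (hX : ∀ X, X ∈ pSpace (H.map (UpqK K r n).subtype) ↔
      ∃ y : Fin n → K, X = pcK K r n (U * Matrix.of ![A *ᵥ y, A *ᵥ (S *ᵥ star y)])) : False := by
  obtain ⟨A', rfl⟩ := exists_real hK A
  obtain ⟨S', rfl⟩ := exists_real hK S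
  have hA' : A'ᵀ * A' = 1 := by
    apply map_inj (K := K)
    rw [Matrix.map_mul, ← map_alg_conjTranspose, hA, map_one']
  have hS' : S'ᵀ = -S' := by
    apply map_inj (K := K)
    rw [map_neg', ← hS, Matrix.transpose_map]
  have hSS' : S' * S' = -1 := by
    have h1 : S' * S'ᵀ = 1 := by
      apply map_inj (K := K)
      rw [Matrix.map_mul, ← map_alg_conjTranspose, hSS, map_one']
    rw [hS', Matrix.mul_neg] at h1
    rw [← h1, neg_neg]
  have heven := even_of_skew hS' hSS'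
  obtain ⟨m, hm⟩ := heven
  -- the elements of `p`
  have hkey : ∀ y' : Fin n → ℝ, Matrix.of ![(A'.map (algebraMap ℝ K)) *ᵥ (algebraMap ℝ K ∘ y'),
      (A'.map (algebraMap ℝ K)) *ᵥ ((S'.map (algebraMap ℝ K)) *ᵥ star (algebraMap ℝ K ∘ y'))] =
      (Matrix.of ![A' *ᵥ y', A' *ᵥ (S' *ᵥ y')]).map (algebraMap ℝ K) := by
    intro y'
    have h1 : star (algebraMap ℝ K ∘ y') = algebraMap ℝ K ∘ y' := by
      funext i
      exact star_alg (y' i)
    rw [h1, map_mulVec', map_mulVec', map_mulVec']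
    ext i j
    fin_cases i <;> rfl
  have hX' : ∀ X, X ∈ pSpace (H.map (UpqK K r n).subtype) ↔ ∃ w : Fin n → ℝ,
      X = pcK K r n (U * (rows2 S' w * A'ᵀ).map (algebraMap ℝ K)) := by
    intro X
    rw [hX]
    constructor
    · rintro ⟨y, rfl⟩
      obtain ⟨y', rfl⟩ := exists_real_vec hK y
      obtain ⟨w, hw⟩ := (exists_rows2 A' hSS' _).1 ⟨y', rfl⟩
      exact ⟨w, by rw [hkey, hw]⟩
    · rintro ⟨w, rfl⟩
      obtain ⟨y', hy'⟩ := (exists_rows2 A' hSS' (rows2 S' w * A'ᵀ)).2 ⟨w, rfl⟩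
      exact ⟨algebraMap ℝ K ∘ y', by rw [hkey, ← hy']⟩
  have hgram : ∀ w : Fin n → ℝ, (rows2 S' w * A'ᵀ) * (rows2 S' w * A'ᵀ)ᵀ =
      (w ⬝ᵥ w) • (1 : Matrix (Fin 2) (Fin 2) ℝ) := by
    intro w
    rw [transpose_mul, transpose_transpose, Matrix.mul_assoc, ← Matrix.mul_assoc A'ᵀ, hA',
      Matrix.one_mul, rows2_gram hS' hSS']
  have hdot : ∀ w : Fin n → ℝ, w ≠ 0 → w ⬝ᵥ w ≠ 0 := fun w hw h => hw (dotProduct_self_eq_zero.1 h)
  -- the dimension
  let φ : (Fin n → ℝ) →ₗ[ℝ] Matrix (Fin ((r + n) + (r + n))) (Fin ((r + n) + (r + n))) ℝ :=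
    { toFun := fun w => pcK K r n (U * (rows2L S' w * A'ᵀ).map (algebraMap ℝ K))
      map_add' := fun w w' => by
        rw [← map_add, ← Matrix.mul_add]
        congr 2
        rw [map_add, Matrix.add_mul, Matrix.map_add _ (map_add _)]
      map_smul' := fun c w => by
        rw [RingHom.id_apply, ← map_smul, ← Matrix.mul_smul]
        congr 2
        rw [map_smul, Matrix.smul_mul]
        ext i j
        rw [Matrix.map_apply, Matrix.smul_apply, Matrix.smul_apply, Matrix.map_apply, smul_eq_mul,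
          map_mul, Algebra.smul_def] }
  have hφ : Function.Injective φ := by
    rw [← LinearMap.ker_eq_bot, LinearMap.ker_eq_bot']
    intro w hw
    by_contra hw0
    have h1 : pcK K r n (U * (rows2 S' w * A'ᵀ).map (algebraMap ℝ K)) = pcK K r n 0 := by
      rw [map_zero]
      exact hw
    have h2 := pcK_inj h1
    have h3 : Uᴴ * (U * (rows2 S' w * A'ᵀ).map (algebraMap ℝ K)) = 0 := by
      rw [h2, Matrix.mul_zero]
    rw [← Matrix.mul_assoc, hU, Matrix.one_mul] at h3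
    have h4 : rows2 S' w * A'ᵀ = 0 := by
      apply map_inj (K := K)
      rw [h3, Matrix.map_zero _ (map_zero _)]
    have h5 := hgram w
    rw [h4, Matrix.zero_mul] at h5
    have h6 := congrFun (congrFun h5 0) 0
    rw [Matrix.smul_apply, Matrix.one_apply_eq, smul_eq_mul, mul_one] at h6
    exact hdot w hw0 h6.symm
  have hrange : pSpace (H.map (UpqK K r n).subtype) = LinearMap.range φ := by
    ext X
    rw [hX', LinearMap.mem_range]
    exact ⟨fun ⟨w, h⟩ => ⟨w, h.symm⟩, fun ⟨w, h⟩ => ⟨w, h.symm⟩⟩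
  have hv : finrank ℝ (pSpace (H.map (UpqK K r n).subtype)) = n := by
    rw [hrange, LinearMap.finrank_range_of_inj hφ, finrank_fin_fun]
  -- the odd map
  obtain ⟨Γ, hΓ⟩ := had
  set M := oneM (isReductive_upqK K r n).closed with hM
  have hCG : Cartan M ⊤ (pSpace (UpqK K r n)) := cartan_top (isReductive_upqK K r n)
  have hCH : Cartan M H (pSpace (H.map (UpqK K r n).subtype)) := cartan_one _ hH
  obtain ⟨l, F, hl, hFc, hF0, hFodd, hF⟩ := exists_coord M hCG hCH hΓ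
  obtain ⟨u, hu, hu'⟩ := exists_third hr U
  set V := col3 U u with hV
  have hVV : Vᴴ * V = 1 := col3_orth hU hu hu'
  let ε : Fin n ≃ Fin m × Bool := Fintype.equivOfCardEq (by
    rw [Fintype.card_prod, Fintype.card_fin, Fintype.card_fin, Fintype.card_bool]
    omega)
  let B : pSpace (UpqK K r n) ≃ₗ[ℝ] (Fin (finrank ℝ (pSpace (UpqK K r n))) → ℝ) :=
    LinearEquiv.ofFinrankEq _ _ (by rw [finrank_fin_fun])
  have hBc : Continuous B := LinearMap.continuous_of_finiteDimensional B.toLinearMap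
  let L₀ : Matrix (Fin 3) (Fin m × Bool) ℝ →ₗ[ℝ]
      Matrix (Fin ((r + n) + (r + n))) (Fin ((r + n) + (r + n))) ℝ :=
    { toFun := fun Y => pcK K r n (V * (Y.submatrix id ε).map (algebraMap ℝ K))
      map_add' := fun Y Y' => by
        rw [← map_add, ← Matrix.mul_add]
        congr 2
        rw [← Matrix.map_add _ (map_add _)]
        rfl
      map_smul' := fun c Y => by
        rw [RingHom.id_apply, ← map_smul, ← Matrix.mul_smul]
        congr 2
        ext i j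
        rw [Matrix.map_apply, Matrix.smul_apply, Matrix.map_apply, Algebra.smul_def]
        show algebraMap ℝ K (c * Y i (ε j)) = algebraMap ℝ K c * algebraMap ℝ K (Y i (ε j))
        rw [map_mul] }
  have hL₀ : ∀ Y, L₀ Y ∈ pSpace (UpqK K r n) := fun Y => mem_pSpace_upqK.2 ⟨_, rfl⟩
  let L : Matrix (Fin 3) (Fin m × Bool) ℝ →ₗ[ℝ] (Fin (finrank ℝ (pSpace (UpqK K r n))) → ℝ) :=
    B.toLinearMap ∘ₗ L₀.codRestrict _ hL₀
  have hLapp : ∀ Y, L Y = B ⟨L₀ Y, hL₀ Y⟩ := fun Y => rfl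
  have hm2 : 2 ≤ m := by omega
  refine no_odd (ι := Fin m) (o := ⟨0, by omega⟩) (o' := ⟨1, by omega⟩) (by simp) (m := l)
    (d := finrank ℝ (pSpace (UpqK K r n))) ?_ (F := fun x => B (F x)) (L := L) (hBc.comp hFc) ?_
    ?_ ?_ ?_
  · rw [← hl, hv, Fintype.card_fin]
    omega
  · show B (F 0) = 0
    rw [hF0, map_zero]
  · intro x
    show B (F (-x)) = -B (F x)
    rw [hFodd, map_neg]
  · intro Y hY
    rw [hLapp, LinearEquiv.map_eq_zero_iff] at hY
    have h1 : pcK K r n (V * (Y.submatrix id ε).map (algebraMap ℝ K)) = pcK K r n 0 := by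
      rw [map_zero]
      exact congrArg Subtype.val hY
    have h2 := pcK_inj h1
    have h3 : Vᴴ * (V * (Y.submatrix id ε).map (algebraMap ℝ K)) = 0 := by
      rw [h2, Matrix.mul_zero]
    rw [← Matrix.mul_assoc, hVV, Matrix.one_mul] at h3
    have h4 : Y.submatrix id ε = 0 := by
      apply map_inj (K := K)
      rw [h3, Matrix.map_zero _ (map_zero _)]
    ext i j
    have h5 := congrFun (congrFun h4 i) (ε.symm j)
    rw [Matrix.submatrix_apply, Equiv.apply_symm_apply] at h5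
    exact h5
  · rintro x hx Y ⟨P, c, hP, hc⟩ h
    rw [hLapp] at h
    have h1 : (F x : Matrix (Fin ((r + n) + (r + n))) (Fin ((r + n) + (r + n))) ℝ) =
        pcK K r n (V * (Y.submatrix id ε).map (algebraMap ℝ K)) :=
      congrArg Subtype.val (B.injective h)
    set Y' := Y.submatrix id ε with hY'
    have hYY : Y' * Y'ᵀ = c • (P * D3 * Pᵀ) := by
      rw [← hc]
      ext i j
      rw [Matrix.mul_apply, Matrix.mul_apply]
      exact Equiv.sum_comp ε fun k => Y i k * Y j k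
    -- the constant is not negative
    have hc0 : 0 ≤ c := by
      have h2 : Pᵀ * (Y' * Y'ᵀ) * P = c • D3 := by
        rw [hYY, Matrix.mul_smul, Matrix.smul_mul]
        congr 1
        have hP' : Pᵀ * P = 1 := mul_eq_one_comm.1 hP
        calc Pᵀ * (P * D3 * Pᵀ) * P = (Pᵀ * P) * D3 * (Pᵀ * P) := by
              simp only [Matrix.mul_assoc]
          _ = D3 := by rw [hP', Matrix.one_mul, Matrix.mul_one]
      have h3 : Pᵀ * (Y' * Y'ᵀ) * P = (Pᵀ * Y') * (Pᵀ * Y')ᵀ := by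
        rw [transpose_mul, transpose_transpose]
        simp only [Matrix.mul_assoc]
      have h4 := congrFun (congrFun (h3.symm.trans h2) 0) 0
      have h5 : ((Pᵀ * Y') * (Pᵀ * Y')ᵀ) 0 0 = c := by
        rw [h4]
        show c * 1 = c
        rw [mul_one]
      rw [← h5, Matrix.mul_apply]
      exact Finset.sum_nonneg fun i _ => mul_self_nonneg _
    -- the element of `p`
    let w : Fin n → ℝ := fun i => if (i : ℕ) = 0 then Real.sqrt c else 0
    have hw : w ⬝ᵥ w = c := by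
      rw [dotProduct, Finset.sum_eq_single (⟨0, by omega⟩ : Fin n)]
      · show (if (0 : ℕ) = 0 then Real.sqrt c else 0) * (if (0 : ℕ) = 0 then Real.sqrt c else 0) = c
        rw [if_pos rfl, Real.mul_self_sqrt hc0]
      · intro i _ hi
        have : (i : ℕ) ≠ 0 := fun h => hi (Fin.ext h)
        show (if (i : ℕ) = 0 then Real.sqrt c else 0) * _ = 0
        rw [if_neg this, zero_mul]
      · intro h
        exact absurd (Finset.mem_univ _) h
    set R := rows2 S' w * A'ᵀ with hR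
    have hRR : (U * R.map (algebraMap ℝ K)) * (U * R.map (algebraMap ℝ K))ᴴ =
        algebraMap ℝ K c • (U * Uᴴ) := gram_alg U R (by rw [hR, hgram, hw])
    obtain ⟨W₁, hW₁, hW₁V⟩ := exists_ext hVV hP
    have hg : (V * Y'.map (algebraMap ℝ K)) * (V * Y'.map (algebraMap ℝ K))ᴴ =
        (W₁ * (U * R.map (algebraMap ℝ K))) * (W₁ * (U * R.map (algebraMap ℝ K)))ᴴ := by
      have e1 : (V * Y'.map (algebraMap ℝ K)) * (V * Y'.map (algebraMap ℝ K))ᴴ =
          algebraMap ℝ K c • (V * P.map (algebraMap ℝ K) * D3.map (algebraMap ℝ K) *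
            (V * P.map (algebraMap ℝ K))ᴴ) := by
        rw [conjTranspose_mul, Matrix.mul_assoc, ← Matrix.mul_assoc (Y'.map _), map_mul_conj, hYY,
          map_smul', Matrix.map_mul, Matrix.map_mul, conjTranspose_mul, map_alg_conjTranspose,
          Matrix.smul_mul, Matrix.mul_smul]
        simp only [Matrix.mul_assoc]
      have e2 : (W₁ * (U * R.map (algebraMap ℝ K))) * (W₁ * (U * R.map (algebraMap ℝ K)))ᴴ =
          algebraMap ℝ K c • (W₁ * (U * Uᴴ) * W₁ᴴ) := by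
        rw [conjTranspose_mul, Matrix.mul_assoc, ← Matrix.mul_assoc (U * R.map _), hRR,
          Matrix.smul_mul, Matrix.mul_smul]
        simp only [Matrix.mul_assoc]
      rw [e1, e2, ← col3_D3 U u, ← hV, ← hW₁V]
      congr 1
      simp only [conjTranspose_mul, Matrix.mul_assoc]
    obtain ⟨W, hW, hW'⟩ := exists_unitary hg
    have hW1 : Wᴴ * Wᴴᴴ = 1 := by
      rw [conjTranspose_conjTranspose]
      exact mul_eq_one_comm.1 hW
    obtain ⟨k, hk, hk1, hk2⟩ := conj_upqK (K := K) (r := r) (n := n) (U := W₁) (W := Wᴴ) hW₁ hW1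
    refine hF x hx ⟨k, hk⟩ hk1 (pcK K r n (U * R.map (algebraMap ℝ K))) ((hX' _).2 ⟨w, rfl⟩) ?_
    have h5 := hk2 (U * R.map (algebraMap ℝ K))
    rw [conjTranspose_conjTranspose, ← hW'] at h5
    rw [h1]
    exact h5.symm

/-- The space `p` of `H` is not that of `U(1, N / 2)` in `O(r, n)`, `r ≥ 3`. -/
theorem not_two' (hK : finrank ℝ K = 1) {r n N : ℕ} (hr : 3 ≤ r) {H : Subgroup (UpqK K r n)}
    (hH : IsReductive (H.map (UpqK K r n).subtype)) (had : AdmitsCocompact H)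
    {U : Matrix (Fin r) (Fin 2) K} {A : Matrix (Fin n) (Fin N) K}
    {S : Matrix (Fin N) (Fin N) K} (hn : N ≤ n) (hN : 4 ≤ N) (hU : Uᴴ * U = 1)
    (hA : Aᴴ * A = 1) (hS : Sᵀ = -S) (hSS : S * Sᴴ = 1)
    (hX : ∀ X, X ∈ pSpace (H.map (UpqK K r n).subtype) ↔
      ∃ y : Fin N → K, X = pcK K r n (U * Matrix.of ![A *ᵥ y, A *ᵥ (S *ᵥ star y)])) : False := by
  rcases hn.eq_or_lt with rfl | h
  · exact not_two_even hK hr hH had hN hU hA hS hSS hX
  · exact not_two hK hH had h (by omega) hU hA hS hSS hX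

end Pool.Agent.Helper59.ZD
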