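import Pool.Agent.Helper59.ZD.T

set_option autoImplicit false

/-!
# The reversal theorem

A continuous map on the ring `1/2 ≤ ‖z‖ ≤ 1` of the cube which is odd on the outer boundary and
whose values on the inner boundary are the values on the outer boundary at the point reflected in
an odd number of coordinates has a zero.
-/

namespace Pool.Agent.Helper59.ZD

open Finset Pool.Agent.Helper29.ZBU

variable {κ : Type} [Fintype κ] [DecidableEq κ] {d : ℕ}

/-- The integral sign of the function `g` on the grid, with the values of `t` where `g` is zero and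
outside the cube. -/
noncomputable def sgm (g : (κ → ℝ) → Fin d → ℝ) (N : ℕ) (t : (κ → ℤ) → ℤ) (j : Fin d)
    (x : κ → ℤ) : ℤ :=
  open Classical in
  if ‖pt N x‖ ≤ 1 then (if g (pt N x) j < 0 then 1 else if 0 < g (pt N x) j then 0 else t x)
    else t x

theorem norm_pt_le {N : ℕ} (hN : 0 < N) {x : κ → ℤ} (h : ∀ k, |x k| ≤ 2 * (N : ℤ)) :
    ‖pt N x‖ ≤ 1 := by
  have hN' : (0 : ℝ) < N := by exact_mod_cast hN
  rw [pi_norm_le_iff_of_nonneg zero_le_one]
  intro k
  rw [Real.norm_eq_abs]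
  unfold pt
  rw [abs_div, abs_of_pos (show (0 : ℝ) < 2 * N by positivity), div_le_one (by positivity)]
  have h2 : ((|x k| : ℤ) : ℝ) ≤ ((2 * (N : ℤ) : ℤ) : ℝ) := by exact_mod_cast h k
  push_cast at h2
  exact h2

theorem norm_pt_eq {N : ℕ} (hN : 0 < N) {x : κ → ℤ} (h : ∀ k, |x k| ≤ 2 * (N : ℤ))
    (h' : ∃ k, |x k| = 2 * (N : ℤ)) : ‖pt N x‖ = 1 := by
  refine le_antisymm (norm_pt_le hN h) ?_
  obtain ⟨k, hk⟩ := h'
  have hN' : (0 : ℝ) < N := by exact_mod_cast hN
  have h1 : |pt N x k| = 1 := by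
    unfold pt
    rw [abs_div, abs_of_pos (show (0 : ℝ) < 2 * N by positivity), div_eq_one_iff_eq (by positivity)]
    have h2 : ((|x k| : ℤ) : ℝ) = ((2 * (N : ℤ) : ℤ) : ℝ) := by exact_mod_cast hk
    push_cast at h2
    exact h2
  rw [← h1, ← Real.norm_eq_abs]
  exact norm_le_pi_norm (pt N x) k

/-- The ring of the cube. -/
def Rg (κ : Type) [Fintype κ] : Set (κ → ℝ) := {z | ‖z‖ ≤ 1 ∧ 1 / 2 ≤ ‖z‖}

theorem isCompact_Rg : IsCompact (Rg κ) := by
  have h1 : Rg κ = Metric.closedBall 0 1 ∩ {z | 1 / 2 ≤ ‖z‖} := by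
    ext z
    simp [Rg]
  rw [h1]
  exact (isCompact_closedBall 0 1).inter_right (isClosed_le continuous_const continuous_norm)

/-- If the function has no zero in the ring, then the flags of the ring contribute nothing. -/
theorem ring_sum (hd : 0 < d) (e : Fin d ≃ κ) (g : (κ → ℝ) → Fin d → ℝ)
    (hg : ContinuousOn g (Rg κ)) (h0 : ∀ z ∈ Rg κ, g z ≠ 0) :
    ∃ M₀ : ℕ, 0 < M₀ ∧ ∀ M, M₀ ≤ M → ∀ t : (κ → ℤ) → ℤ,
      TZ e (2 * M) (sgm g (2 * M) t) = TZ e M (sgm g (2 * M) t) := by
  classical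
  have hne : (Rg κ).Nonempty := by
    refine ⟨fun _ => 1, ?_⟩
    have : Nonempty κ := ⟨e ⟨0, hd⟩⟩
    have h1 : ‖(fun _ : κ => (1 : ℝ))‖ = 1 := by
      rw [pi_norm_const]
      norm_num
    show ‖(fun _ : κ => (1 : ℝ))‖ ≤ 1 ∧ 1 / 2 ≤ ‖(fun _ : κ => (1 : ℝ))‖
    rw [h1]
    norm_num
  obtain ⟨x₀, hx₀, hmin⟩ := isCompact_Rg.exists_isMinOn hne hg.norm
  have hδ : 0 < ‖g x₀‖ := norm_pos_iff.mpr (h0 x₀ hx₀)
  have hδ' : ∀ x ∈ Rg κ, ‖g x₀‖ ≤ ‖g x‖ := fun x hx => hmin hx
  have huc := isCompact_Rg.uniformContinuousOn_of_continuous hg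
  rw [Metric.uniformContinuousOn_iff] at huc
  obtain ⟨δ, hδ0, hδ1⟩ := huc (‖g x₀‖ / 2) (by positivity)
  obtain ⟨n, hn⟩ := exists_nat_gt (1 / δ)
  refine ⟨n + 1, Nat.succ_pos n, fun M hM t => ?_⟩
  have hM0 : 0 < M := lt_of_lt_of_le (Nat.succ_pos n) hM
  have hM' : (0 : ℝ) < M := by exact_mod_cast hM0
  have hMδ : 1 / (M : ℝ) < δ := by
    have h1 : 1 / δ < M := by
      refine hn.trans_le ?_
      have : ((n + 1 : ℕ) : ℝ) ≤ M := by exact_mod_cast hM
      push_cast at this
      linarith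
    rw [div_lt_iff₀ hδ0] at h1
    rw [div_lt_iff₀ hM']
    linarith
  have hsub : flags κ d M ⊆ flags κ d (2 * M) := by
    intro τ hτ
    rw [mem_flags] at hτ ⊢
    intro k
    have := hτ k
    push_cast
    omega
  unfold TZ
  symm
  refine Finset.sum_subset hsub fun τ hτ hτ' => ?_
  rw [mul_eq_zero]
  right
  by_contra hc
  rw [Finset.prod_eq_zero_iff] at hc
  push Not at hc
  -- all the points are in the ring
  have hle : ∀ l, ‖pt (2 * M) (vtx τ l)‖ ≤ 1 := fun l =>
    norm_pt_le (by omega) fun k => vtx_abs hτ l k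
  have hmem : ∀ l, pt (2 * M) (vtx τ l) ∈ Rg κ := by
    intro l
    refine ⟨hle l, ?_⟩
    rw [mem_flags] at hτ'
    push Not at hτ'
    obtain ⟨k, hk⟩ := hτ'
    have h1 : 2 * (M : ℤ) ≤ |vtx τ l k| := by
      have hb : bi (τ.2.2 k) = 0 ∨ bi (τ.2.2 k) = 1 := by
        cases τ.2.2 k <;> simp [bi]
      rw [le_abs]
      unfold vtx
      by_cases h : (τ.2.1.symm k : ℕ) < l
      · rw [if_pos h]
        by_cases h2 : -(M : ℤ) ≤ τ.1 k
        · left
          have := hk h2
          omega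
        · right
          omega
      · rw [if_neg h]
        by_cases h2 : -(M : ℤ) ≤ τ.1 k
        · left
          have := hk h2
          omega
        · right
          omega
    have h2 : 1 / 2 ≤ |pt (2 * M) (vtx τ l) k| := by
      unfold pt
      push_cast
      rw [abs_div, abs_of_pos (show (0 : ℝ) < 2 * (2 * M) by positivity),
        le_div_iff₀ (by positivity)]
      have h3 : ((2 * (M : ℤ) : ℤ) : ℝ) ≤ ((|vtx τ l k| : ℤ) : ℝ) := by exact_mod_cast h1
      push_cast at h3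
      linarith
    refine h2.trans ?_
    rw [← Real.norm_eq_abs]
    exact norm_le_pi_norm _ k
  have hdist : ∀ l l', dist (g (pt (2 * M) (vtx τ l))) (g (pt (2 * M) (vtx τ l'))) <
      ‖g x₀‖ / 2 := by
    intro l l'
    refine hδ1 _ (hmem l) _ (hmem l') ?_
    refine lt_of_le_of_lt ?_ hMδ
    rw [dist_pi_le_iff (by positivity)]
    intro k
    rw [Real.dist_eq]
    unfold pt
    push_cast
    rw [← sub_div, abs_div, abs_of_pos (show (0 : ℝ) < 2 * (2 * M) by positivity)]
    have h1 := vtx_sub τ l l' k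
    have h2 : ((|vtx τ l k - vtx τ l' k| : ℤ) : ℝ) ≤ 1 := by exact_mod_cast h1
    push_cast at h2
    refine (div_le_div_of_nonneg_right h2 (by positivity)).trans ?_
    exact one_div_le_one_div_of_le hM' (by linarith)
  have hsmall : ∀ j : Fin d, |g (pt (2 * M) (vtx τ 0)) j| < ‖g x₀‖ := by
    intro j
    have h1 := hc j (mem_univ _)
    have h3 : sgm g (2 * M) t j (vtx τ (j + 1)) ≠ sgm g (2 * M) t j (vtx τ j) :=
      fun h => h1 (sub_eq_zero.mpr h)
    have h4 : g (pt (2 * M) (vtx τ j)) j * g (pt (2 * M) (vtx τ (j + 1))) j ≤ 0 := by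
      by_contra hp
      push Not at hp
      apply h3
      unfold sgm
      rw [if_pos (hle _), if_pos (hle _)]
      rcases lt_trichotomy (g (pt (2 * M) (vtx τ j)) j) 0 with h | h | h
      · have h' : g (pt (2 * M) (vtx τ (j + 1))) j < 0 := by
          by_contra hh
          push Not at hh
          have := mul_nonpos_of_nonpos_of_nonneg h.le hh
          linarith
        rw [if_pos h, if_pos h']
      · rw [h, zero_mul] at hp
        exact absurd hp (lt_irrefl _)
      · have h' : 0 < g (pt (2 * M) (vtx τ (j + 1))) j := by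
          by_contra hh
          push Not at hh
          have := mul_nonpos_of_nonneg_of_nonpos h.le hh
          linarith
        rw [if_neg (by linarith), if_pos h', if_neg (by linarith), if_pos h]
    have h5 : |g (pt (2 * M) (vtx τ j)) j| ≤
        |g (pt (2 * M) (vtx τ j)) j - g (pt (2 * M) (vtx τ (j + 1))) j| := by
      rw [← sq_le_sq]
      nlinarith [sq_nonneg (g (pt (2 * M) (vtx τ (j + 1))) j)]
    have h6 : ∀ l l', |g (pt (2 * M) (vtx τ l)) j - g (pt (2 * M) (vtx τ l')) j| <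
        ‖g x₀‖ / 2 := by
      intro l l'
      have := (dist_le_pi_dist (g (pt (2 * M) (vtx τ l))) (g (pt (2 * M) (vtx τ l'))) j).trans_lt
        (hdist l l')
      rwa [Real.dist_eq] at this
    calc |g (pt (2 * M) (vtx τ 0)) j|
        = |(g (pt (2 * M) (vtx τ 0)) j - g (pt (2 * M) (vtx τ j)) j) +
            g (pt (2 * M) (vtx τ j)) j| := by
          rw [sub_add_cancel]
      _ ≤ |g (pt (2 * M) (vtx τ 0)) j - g (pt (2 * M) (vtx τ j)) j| +
            |g (pt (2 * M) (vtx τ j)) j| := abs_add_le _ _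
      _ < ‖g x₀‖ / 2 + ‖g x₀‖ / 2 := add_lt_add (h6 0 j) (h5.trans_lt (h6 j (j + 1)))
      _ = ‖g x₀‖ := add_halves _
  have h7 : ‖g (pt (2 * M) (vtx τ 0))‖ < ‖g x₀‖ := by
    rw [pi_norm_lt_iff hδ]
    exact hsmall
  exact absurd (hδ' _ (hmem 0)) (not_le.mpr h7)

/-- The tie break: the sign of a boundary coordinate. -/
noncomputable def tb (N : ℕ) (x : κ → ℤ) : ℤ := ((rho (fun _ : κ => ()) N () x).val : ℤ)

/-- The signed sum of an odd map is odd. -/
theorem odd_sum {N : ℕ} (hN : 0 < N) (e : Fin d ≃ κ) (g : (κ → ℝ) → Fin d → ℝ)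
    (hodd : ∀ z, ‖z‖ = 1 → g (-z) = -g z) : ((TZ e N (sgm g N (tb N)) : ℤ) : ZMod 2) = 1 := by
  classical
  rw [TZ_mod]
  have hval : ∀ a : ZMod 2, (((a.val : ℕ) : ℤ) : ZMod 2) = a := by decide
  have hneg : ∀ x : κ → ℤ, neg (fun _ : κ => ()) () x = -x := by
    intro x
    funext k
    show (if () = () then -x k else x k) = -x k
    rw [if_pos rfl]
  have hpn : ∀ x : κ → ℤ, pt N (-x) = -pt N x := by
    intro x
    funext k
    show ((-x k : ℤ) : ℝ) / (2 * N) = -((x k : ℝ) / (2 * N))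
    push_cast
    ring
  have hs : ∀ j : Fin d, Eqv (fun _ : κ => ()) N (fun _ : Unit => (1 : ZMod 2))
      (fun x => ((sgm g N (tb N) j x : ℤ) : ZMod 2)) := by
    rintro j ⟨⟩ x hx
    have ht : ((tb N (-x) : ℤ) : ZMod 2) = ((tb N x : ℤ) : ZMod 2) + 1 := by
      unfold tb
      rw [hval, hval, ← hneg]
      exact rho_neg_self _ hN _ x hx
    show ((sgm g N (tb N) j (neg (fun _ : κ => ()) () x) : ℤ) : ZMod 2) =
      ((sgm g N (tb N) j x : ℤ) : ZMod 2) + 1
    rw [hneg]
    unfold sgm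
    rw [hpn, norm_neg]
    by_cases hle : ‖pt N x‖ ≤ 1
    · rw [if_pos hle, if_pos hle]
      have hle' : ∀ k, |x k| ≤ 2 * (N : ℤ) := by
        intro k
        have hN' : (0 : ℝ) < N := by exact_mod_cast hN
        have h1 := (norm_le_pi_norm (pt N x) k).trans hle
        rw [Real.norm_eq_abs] at h1
        unfold pt at h1
        rw [abs_div, abs_of_pos (show (0 : ℝ) < 2 * N by positivity),
          div_le_one (by positivity)] at h1
        have h2 : ((|x k| : ℤ) : ℝ) ≤ ((2 * (N : ℤ) : ℤ) : ℝ) := by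
          push_cast
          exact h1
        exact_mod_cast h2
      have hbd : ∃ k, |x k| = 2 * (N : ℤ) := by
        obtain ⟨k, -, hk⟩ := hx
        exact ⟨k, hk⟩
      rw [hodd _ (norm_pt_eq hN hle' hbd), Pi.neg_apply]
      rcases lt_trichotomy (g (pt N x) j) 0 with h | h | h
      · rw [if_neg (by linarith), if_pos (by linarith), if_pos h]
        decide
      · rw [if_neg (by linarith), if_neg (by linarith), if_neg (by linarith), if_neg (by linarith)]
        exact ht
      · rw [if_pos (by linarith), if_neg (by linarith), if_pos h]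
        decide
    · rw [if_neg hle, if_neg hle]
      exact ht
  have hcard : Fintype.card κ = d := by
    rw [← Fintype.card_congr e, Fintype.card_fin]
  have h1 := T_count (fun _ : κ => ()) hN hcard hs
  rw [h1]
  have h2 : (univ.filter fun σ : Fin d → Unit => (∀ j, (fun _ : Fin d => fun _ : Unit =>
      (1 : ZMod 2)) j (σ j) = 1) ∧ ∀ i : Unit, (univ.filter fun j => σ j = i).card =
        (univ.filter fun _ : κ => () = i).card) = {fun _ => ()} := by
    ext σ
    rw [Finset.mem_filter, Finset.mem_singleton]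
    constructor
    · intro _
      funext j
      rfl
    · intro _
      refine ⟨mem_univ _, fun _ => rfl, fun i => ?_⟩
      have h3 : (univ.filter fun j : Fin d => σ j = i) = univ := by
        ext j
        simp
      have h4 : (univ.filter fun _ : κ => () = i) = univ := by
        ext j
        simp
      rw [h3, h4, Finset.card_univ, Finset.card_univ, Fintype.card_fin, hcard]
  rw [h2, Finset.card_singleton]
  norm_num

theorem flip_norm (A : Finset κ) (z : κ → ℝ) : ‖flip A z‖ = ‖z‖ := by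
  have h1 : ∀ k, ‖flip A z k‖ = ‖z k‖ := by
    intro k
    unfold flip
    split_ifs
    · rw [norm_neg]
    · rfl
  refine le_antisymm ?_ ?_
  · rw [pi_norm_le_iff_of_nonneg (norm_nonneg _)]
    intro k
    rw [h1]
    exact norm_le_pi_norm z k
  · rw [pi_norm_le_iff_of_nonneg (norm_nonneg _)]
    intro k
    rw [← h1]
    exact norm_le_pi_norm _ k

/-- **The reversal theorem.** Let `f` be continuous on the ring `1/2 ≤ ‖z‖ ≤ 1` of the cube, odd
on the outer boundary, and let `f (z/2) = f (S z)` for the points `z` of the outer boundary, where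
`S` changes the signs of an odd number of coordinates. Then `f` has a zero in the ring. -/
theorem reversal (hd : Fintype.card κ = d) (A : Finset κ) (hA : Odd A.card)
    (f : (κ → ℝ) → Fin d → ℝ) (hf : ContinuousOn f {z | ‖z‖ ≤ 1 ∧ 1 / 2 ≤ ‖z‖})
    (hodd : ∀ z, ‖z‖ = 1 → f (-z) = -f z)
    (hrev : ∀ z, ‖z‖ = 1 → f ((1 / 2 : ℝ) • z) = f (flip A z)) :
    ∃ z, ‖z‖ ≤ 1 ∧ 1 / 2 ≤ ‖z‖ ∧ f z = 0 := by
  classical
  by_contra hc
  push Not at hc
  have hd0 : 0 < d := by
    rcases Nat.eq_zero_or_pos d with h | h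
    · exfalso
      rw [h] at hd
      have h1 : A = ∅ := by
        have : IsEmpty κ := Fintype.card_eq_zero_iff.mp hd
        exact Finset.eq_empty_of_isEmpty A
      rw [h1] at hA
      simp at hA
    · exact h
  let e : Fin d ≃ κ := (Fintype.equivFinOfCardEq hd).symm
  let F : (κ → ℝ) → Fin d → ℝ := fun z => f (‖z‖⁻¹ • z)
  have hRn : ∀ z ∈ Rg κ, ‖z‖ ≠ 0 := by
    intro z hz h
    have := hz.2
    rw [h] at this
    norm_num at this
  have hRs : ∀ z ∈ Rg κ, ‖‖z‖⁻¹ • z‖ = 1 := by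
    intro z hz
    rw [norm_smul, norm_inv, norm_norm, inv_mul_cancel₀ (hRn z hz)]
  have hRR : ∀ z ∈ Rg κ, ‖z‖⁻¹ • z ∈ Rg κ := by
    intro z hz
    refine ⟨(hRs z hz).le, ?_⟩
    rw [hRs z hz]
    norm_num
  have hFc : ContinuousOn F (Rg κ) := by
    refine ContinuousOn.comp (t := Rg κ) hf ?_ hRR
    exact (continuous_norm.continuousOn.inv₀ hRn).smul continuousOn_id
  have hF0 : ∀ z ∈ Rg κ, F z ≠ 0 := fun z hz =>
    hc _ (hRR z hz).1 (hRR z hz).2
  have hf0 : ∀ z ∈ Rg κ, f z ≠ 0 := fun z hz => hc z hz.1 hz.2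
  obtain ⟨M₁, hM₁, h1⟩ := ring_sum hd0 e f hf hf0
  obtain ⟨M₂, hM₂, h2⟩ := ring_sum hd0 e F hFc hF0
  let M : ℕ := max M₁ M₂
  have hM : 0 < M := lt_of_lt_of_le hM₁ (le_max_left _ _)
  have hM' : (0 : ℝ) < M := by exact_mod_cast hM
  have e1 := h1 M (le_max_left _ _) (tb (2 * M))
  have e2 := h2 M (le_max_right _ _) (tb (2 * M))
  -- the outer boundary
  have e3 : TZ e (2 * M) (sgm f (2 * M) (tb (2 * M))) =
      TZ e (2 * M) (sgm F (2 * M) (tb (2 * M))) := by
    refine TZ_congr hd0 e fun j x hx hx' => ?_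
    have h3 := norm_pt_eq (by omega) hx hx'
    have h4 : F (pt (2 * M) x) = f (pt (2 * M) x) := by
      show f (‖pt (2 * M) x‖⁻¹ • pt (2 * M) x) = _
      rw [h3, inv_one, one_smul]
    unfold sgm
    rw [h4]
  -- the inner boundary
  have hhalf : ∀ x : κ → ℤ, pt (2 * M) x = (1 / 2 : ℝ) • pt M x := by
    intro x
    funext k
    show (x k : ℝ) / (2 * ((2 * M : ℕ) : ℝ)) = (1 / 2 : ℝ) * ((x k : ℝ) / (2 * M))
    push_cast
    field_simp
  have htb : ∀ x : κ → ℤ, (∀ k, |x k| ≤ 2 * (M : ℤ)) → tb (2 * M) x = 0 := by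
    intro x hx
    unfold tb
    rw [rho_zero]
    · simp
    · rintro ⟨k, -, hk⟩
      have := hx k
      push_cast at hk
      omega
  let J : Fin d → (κ → ℤ) → ℤ := fun j x =>
    if f (pt M x) j < 0 then 1 else if 0 < f (pt M x) j then 0 else 0
  have hflip : ∀ x : κ → ℤ, pt M (flip A x) = flip A (pt M x) := by
    intro x
    funext k
    show ((if k ∈ A then -x k else x k : ℤ) : ℝ) / (2 * M) =
      if k ∈ A then -((x k : ℝ) / (2 * M)) else (x k : ℝ) / (2 * M)
    split_ifs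
    · push_cast
      ring
    · rfl
  have hinner : ∀ x : κ → ℤ, (∀ k, |x k| ≤ 2 * (M : ℤ)) → ‖pt (2 * M) x‖ ≤ 1 := by
    intro x hx
    refine norm_pt_le (by omega) fun k => ?_
    have := hx k
    push_cast
    omega
  have e4 : TZ e M (sgm f (2 * M) (tb (2 * M))) = TZ e M (fun j x => J j (flip A x)) := by
    refine TZ_congr hd0 e fun j x hx hx' => ?_
    have h3 := norm_pt_eq hM hx hx'
    unfold sgm
    rw [if_pos (hinner x hx), htb x hx, hhalf, hrev _ h3, ← hflip]
  have e5 : TZ e M (sgm F (2 * M) (tb (2 * M))) = TZ e M J := by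
    refine TZ_congr hd0 e fun j x hx hx' => ?_
    have h3 := norm_pt_eq hM hx hx'
    have h4 : F (pt (2 * M) x) = f (pt M x) := by
      show f (‖pt (2 * M) x‖⁻¹ • pt (2 * M) x) = _
      rw [hhalf, norm_smul, h3, smul_smul]
      norm_num
    unfold sgm
    rw [if_pos (hinner x hx), htb x hx, h4]
  have e6 := TZ_flip e M A J
  rw [hA.neg_one_pow] at e6
  have e7 : TZ e (2 * M) (sgm f (2 * M) (tb (2 * M))) = 0 := by
    have : TZ e (2 * M) (sgm f (2 * M) (tb (2 * M))) =
        -TZ e (2 * M) (sgm f (2 * M) (tb (2 * M))) := by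
      calc TZ e (2 * M) (sgm f (2 * M) (tb (2 * M)))
          = TZ e M (fun j x => J j (flip A x)) := by rw [e1, e4]
        _ = -TZ e M J := by rw [e6]; ring
        _ = -TZ e (2 * M) (sgm f (2 * M) (tb (2 * M))) := by rw [e3, e2, e5]
    omega
  have e8 := odd_sum (N := 2 * M) (by omega) e f hodd
  rw [e7] at e8
  exact absurd e8 (by decide)

/-- The reversal theorem, for the change of the signs of the block `true`. -/
theorem reversal_block (hd : Fintype.card κ = d) (β : κ → Bool)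
    (hA : Odd (univ.filter fun k => β k = true).card)
    (f : (κ → ℝ) → Fin d → ℝ) (hf : ContinuousOn f {z | ‖z‖ ≤ 1 ∧ 1 / 2 ≤ ‖z‖})
    (hodd : ∀ z, ‖z‖ = 1 → f (-z) = -f z)
    (hrev : ∀ z, ‖z‖ = 1 → f ((1 / 2 : ℝ) • z) = f (negR β true z)) :
    ∃ z, ‖z‖ ≤ 1 ∧ 1 / 2 ≤ ‖z‖ ∧ f z = 0 := by
  refine reversal hd (univ.filter fun k => β k = true) hA f hf hodd fun z hz => ?_
  rw [hrev z hz]
  congr 1
  funext k
  show (if β k = true then -z k else z k) =
    if k ∈ (univ.filter fun k => β k = true) then -z k else z k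
  simp only [Finset.mem_filter, Finset.mem_univ, true_and]

end Pool.Agent.Helper59.ZD
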