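import Pool.Agent.Helper29.ZBU.Cont

set_option autoImplicit false

/-!
# Signed sums over flags

The degree of a map on the boundary of a cube as a signed sum over the maximal chains of cells.
-/

namespace Pool.Agent.Helper59.ZD

open Finset Pool.Agent.Helper29.ZBU

variable {κ : Type} [Fintype κ] [DecidableEq κ] {d : ℕ}

/-- The sign of a maximal chain of cells. -/
def sn (e : Fin d ≃ κ) (τ : Flag κ d) : ℤ :=
  (Equiv.Perm.sign (τ.2.1.trans e.symm) : ℤ) * ∏ k, (if τ.2.2 k then (-1 : ℤ) else 1)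

theorem prod_flip (b : κ → Bool) (k : κ) :
    ∏ k', (if Function.update b k (!b k) k' then (-1 : ℤ) else 1) =
      -∏ k', (if b k' then (-1 : ℤ) else 1) := by
  rw [← Finset.mul_prod_erase univ _ (mem_univ k),
    ← Finset.mul_prod_erase univ (fun k' => if b k' then (-1 : ℤ) else 1) (mem_univ k)]
  rw [Function.update_self]
  have h1 : ∏ k' ∈ univ.erase k, (if Function.update b k (!b k) k' then (-1 : ℤ) else 1) =
      ∏ k' ∈ univ.erase k, (if b k' then (-1 : ℤ) else 1) := by
    refine Finset.prod_congr rfl fun k' hk' => ?_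
    rw [Function.update_of_ne (Finset.ne_of_mem_erase hk')]
  rw [h1]
  cases b k <;> simp

theorem sn_flip (e : Fin d ≃ κ) (c c' : κ → ℤ) (σ : Fin d ≃ κ) (b : κ → Bool) (k : κ) :
    sn e (c', σ, Function.update b k (!b k)) = -sn e (c, σ, b) := by
  unfold sn
  show _ * ∏ k', (if Function.update b k (!b k) k' then (-1 : ℤ) else 1) = _
  rw [prod_flip, mul_neg]

theorem sn_swap (e : Fin d ≃ κ) (c : κ → ℤ) (σ : Fin d ≃ κ) (b : κ → Bool) {x y : Fin d}
    (hxy : x ≠ y) : sn e (c, (Equiv.swap x y).trans σ, b) = -sn e (c, σ, b) := by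
  unfold sn
  have h1 : ((Equiv.swap x y).trans σ).trans e.symm = (σ.trans e.symm) * Equiv.swap x y := rfl
  show ((Equiv.Perm.sign (((Equiv.swap x y).trans σ).trans e.symm) : ℤˣ) : ℤ) * _ =
    -(((Equiv.Perm.sign (σ.trans e.symm) : ℤˣ) : ℤ) * _)
  rw [h1, map_mul, Equiv.Perm.sign_swap hxy]
  simp

/-- A signed sum over the flags of a function which does not depend on the cell of dimension `l`
is zero. -/
theorem sum_omit {N l : ℕ} (hl : l < d) (e : Fin d ≃ κ) (g : (ℕ → κ → ℤ) → ℤ)
    (hg : ∀ v w, (∀ j, j ≠ l → v j = w j) → g v = g w) :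
    ∑ τ ∈ flags κ d N, sn e τ * g (vtx τ) = 0 := by
  rcases Nat.eq_zero_or_pos l with rfl | hpos
  · -- change the vertex
    let inv : Flag κ d → Flag κ d := fun τ =>
      (τ.1, τ.2.1, Function.update τ.2.2 (τ.2.1 ⟨0, hl⟩) (!τ.2.2 (τ.2.1 ⟨0, hl⟩)))
    refine Finset.sum_involution (fun τ _ => inv τ) ?_ ?_ ?_ ?_
    · intro τ _
      have h1 : g (vtx (inv τ)) = g (vtx τ) := by
        refine hg _ _ fun j hj => ?_
        funext k
        by_cases hk : k = τ.2.1 ⟨0, hl⟩
        · subst hk
          have h2 : ((τ.2.1.symm (τ.2.1 ⟨0, hl⟩) : Fin d) : ℕ) < j := by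
            rw [Equiv.symm_apply_apply]
            show 0 < j
            omega
          show (if ((τ.2.1.symm (τ.2.1 ⟨0, hl⟩) : Fin d) : ℕ) < j then _ else _) =
            (if ((τ.2.1.symm (τ.2.1 ⟨0, hl⟩) : Fin d) : ℕ) < j then _ else _)
          rw [if_pos h2, if_pos h2]
        · show (if _ then _ else 2 * (τ.1 k + bi (Function.update τ.2.2 _ _ k))) = _
          rw [Function.update_of_ne hk]
          rfl
      have h2 : sn e (inv τ) = -sn e τ := sn_flip e τ.1 τ.1 τ.2.1 τ.2.2 _
      rw [h1, h2]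
      ring
    · intro τ _ _ h
      have h1 := congrFun (congrArg (fun σ : Flag κ d => σ.2.2) h) (τ.2.1 ⟨0, hl⟩)
      simp [inv] at h1
    · intro τ hτ
      have h1 : ∀ k, -(N : ℤ) ≤ τ.1 k ∧ τ.1 k < N := mem_flags.1 hτ
      exact (mem_flags (τ := inv τ)).2 h1
    · intro τ _
      show inv (inv τ) = τ
      refine Prod.ext rfl (Prod.ext rfl ?_)
      show Function.update (Function.update τ.2.2 (τ.2.1 ⟨0, hl⟩) (!τ.2.2 (τ.2.1 ⟨0, hl⟩)))
        (τ.2.1 ⟨0, hl⟩) (!(Function.update τ.2.2 (τ.2.1 ⟨0, hl⟩) (!τ.2.2 (τ.2.1 ⟨0, hl⟩))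
          (τ.2.1 ⟨0, hl⟩))) = τ.2.2
      rw [Function.update_self, Function.update_idem, Bool.not_not, Function.update_eq_self]
  · -- change the order of two coordinates
    let a : Fin d := ⟨l - 1, by omega⟩
    let b : Fin d := ⟨l, hl⟩
    have hab : a ≠ b := by
      intro h
      have := congrArg Fin.val h
      simp only [a, b] at this
      omega
    let inv : Flag κ d → Flag κ d := fun τ => (τ.1, (Equiv.swap a b).trans τ.2.1, τ.2.2)
    refine Finset.sum_involution (fun τ _ => inv τ) ?_ ?_ ?_ ?_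
    · intro τ _
      have h1 : g (vtx (inv τ)) = g (vtx τ) := by
        refine hg _ _ fun j hj => ?_
        funext k
        have h2 : (((inv τ).2.1.symm k : Fin d) : ℕ) < j ↔ ((τ.2.1.symm k : Fin d) : ℕ) < j := by
          show ((Equiv.swap a b (τ.2.1.symm k) : Fin d) : ℕ) < j ↔ _
          rcases eq_or_ne (τ.2.1.symm k) a with h | h
          · rw [h, Equiv.swap_apply_left]
            show l < j ↔ l - 1 < j
            omega
          · rcases eq_or_ne (τ.2.1.symm k) b with h' | h'
            · rw [h', Equiv.swap_apply_right]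
              show l - 1 < j ↔ l < j
              omega
            · rw [Equiv.swap_apply_of_ne_of_ne h h']
        unfold vtx
        simp only [h2]
        rfl
      have h2 : sn e (inv τ) = -sn e τ := sn_swap e τ.1 τ.2.1 τ.2.2 hab
      rw [h1, h2]
      ring
    · intro τ _ _ h
      have h1 := congrArg (fun σ : Flag κ d => σ.2.1 a) h
      have h2 : τ.2.1 (Equiv.swap a b a) = τ.2.1 a := h1
      rw [Equiv.swap_apply_left] at h2
      exact hab (τ.2.1.injective h2).symm
    · intro τ hτ
      have h1 : ∀ k, -(N : ℤ) ≤ τ.1 k ∧ τ.1 k < N := mem_flags.1 hτ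
      exact (mem_flags (τ := inv τ)).2 h1
    · intro τ _
      show inv (inv τ) = τ
      refine Prod.ext rfl (Prod.ext ?_ rfl)
      show (Equiv.swap a b).trans ((Equiv.swap a b).trans τ.2.1) = τ.2.1
      rw [← Equiv.trans_assoc, Equiv.swap_swap, Equiv.refl_trans]

/-- A signed sum over the flags of a function which does not depend on the cell of dimension `d`
and is zero on the flags whose facet is in the boundary is zero. -/
theorem sum_top {N : ℕ} (hd : 0 < d) (e : Fin d ≃ κ) (g : (ℕ → κ → ℤ) → ℤ)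
    (hg : ∀ v w, (∀ j, j < d → v j = w j) → g v = g w)
    (hg' : ∀ v : ℕ → κ → ℤ, (∀ j k, |v j k| ≤ 2 * (N : ℤ)) →
      (∀ j, j < d → ∃ k, |v j k| = 2 * (N : ℤ)) → g v = 0) :
    ∑ τ ∈ flags κ d N, sn e τ * g (vtx τ) = 0 := by
  classical
  let last : Fin d := ⟨d - 1, by omega⟩
  let kk : Flag κ d → κ := fun τ => τ.2.1 last
  let ex : Flag κ d → Prop := fun τ => |τ.1 (kk τ) + bi (τ.2.2 (kk τ))| = (N : ℤ)
  let fl : Flag κ d → Flag κ d := fun τ =>
    (Function.update τ.1 (kk τ) (τ.1 (kk τ) + (2 * bi (τ.2.2 (kk τ)) - 1)), τ.2.1,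
      Function.update τ.2.2 (kk τ) (!τ.2.2 (kk τ)))
  let inv : Flag κ d → Flag κ d := fun τ => if ex τ then τ else fl τ
  have hbi : ∀ b : Bool, bi (!b) = 1 - bi b := by
    intro b
    cases b <;> simp [bi]
  have hexfl : ∀ τ, ex (fl τ) ↔ ex τ := by
    intro τ
    show |Function.update τ.1 (kk τ) (τ.1 (kk τ) + (2 * bi (τ.2.2 (kk τ)) - 1)) (kk τ) +
      bi (Function.update τ.2.2 (kk τ) (!τ.2.2 (kk τ)) (kk τ))| = (N : ℤ) ↔
      |τ.1 (kk τ) + bi (τ.2.2 (kk τ))| = (N : ℤ)
    rw [Function.update_self, Function.update_self, hbi]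
    have : τ.1 (kk τ) + (2 * bi (τ.2.2 (kk τ)) - 1) + (1 - bi (τ.2.2 (kk τ))) =
      τ.1 (kk τ) + bi (τ.2.2 (kk τ)) := by ring
    rw [this]
  have hlast : ∀ τ : Flag κ d, ∀ j, j < d → ¬ ((τ.2.1.symm (kk τ) : Fin d) : ℕ) < j := by
    intro τ j hj
    show ¬ ((τ.2.1.symm (τ.2.1 last) : Fin d) : ℕ) < j
    rw [Equiv.symm_apply_apply]
    show ¬ d - 1 < j
    omega
  have hzero : ∀ τ ∈ flags κ d N, ex τ → g (vtx τ) = 0 := by
    intro τ hτ h
    refine hg' _ (fun j k => vtx_abs hτ j k) fun j hj => ⟨kk τ, ?_⟩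
    show |if ((τ.2.1.symm (kk τ) : Fin d) : ℕ) < j then _ else
      2 * (τ.1 (kk τ) + bi (τ.2.2 (kk τ)))| = _
    rw [if_neg (hlast τ j hj), abs_mul, h]
    rfl
  refine Finset.sum_involution (fun τ _ => inv τ) ?_ ?_ ?_ ?_
  · intro τ hτ
    by_cases h : ex τ
    · have h2 : inv τ = τ := if_pos h
      rw [h2, hzero τ hτ h]
      ring
    · have h1 : g (vtx (inv τ)) = g (vtx τ) := by
        show g (vtx (if ex τ then τ else fl τ)) = _
        rw [if_neg h]
        refine hg _ _ fun j hj => ?_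
        funext k
        by_cases hk : k = kk τ
        · subst hk
          show (if ((τ.2.1.symm (kk τ) : Fin d) : ℕ) < j then _ else
            2 * (Function.update τ.1 (kk τ) (τ.1 (kk τ) + (2 * bi (τ.2.2 (kk τ)) - 1)) (kk τ) +
              bi (Function.update τ.2.2 (kk τ) (!τ.2.2 (kk τ)) (kk τ)))) =
            (if ((τ.2.1.symm (kk τ) : Fin d) : ℕ) < j then _ else
              2 * (τ.1 (kk τ) + bi (τ.2.2 (kk τ))))
          rw [if_neg (hlast τ j hj), if_neg (hlast τ j hj), Function.update_self,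
            Function.update_self, hbi]
          ring
        · show (if ((τ.2.1.symm k : Fin d) : ℕ) < j then
            2 * (Function.update τ.1 (kk τ) _ k) + 1 else
            2 * (Function.update τ.1 (kk τ) _ k + bi (Function.update τ.2.2 (kk τ) _ k))) = _
          rw [Function.update_of_ne hk, Function.update_of_ne hk]
          rfl
      have h2 : sn e (inv τ) = -sn e τ := by
        have h3 : inv τ = fl τ := if_neg h
        rw [h3]
        exact sn_flip e τ.1 _ τ.2.1 τ.2.2 _
      rw [h1, h2]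
      ring
  · intro τ hτ hne h
    by_cases he : ex τ
    · rw [hzero τ hτ he, mul_zero] at hne
      exact hne rfl
    · have h1 := congrFun (congrArg (fun σ : Flag κ d => σ.2.2) h) (kk τ)
      simp [inv, he, fl] at h1
  · intro τ hτ
    by_cases he : ex τ
    · have h2 : inv τ = τ := if_pos he
      rw [h2]
      exact hτ
    · have h2 : inv τ = fl τ := if_neg he
      rw [h2]
      rw [mem_flags] at hτ ⊢
      intro k
      show -(N : ℤ) ≤ Function.update τ.1 (kk τ) _ k ∧ Function.update τ.1 (kk τ) _ k < N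
      by_cases hk : k = kk τ
      · subst hk
        rw [Function.update_self]
        have h3 := hτ (kk τ)
        have h4 : |τ.1 (kk τ) + bi (τ.2.2 (kk τ))| ≠ (N : ℤ) := he
        have h5 : bi (τ.2.2 (kk τ)) = 0 ∨ bi (τ.2.2 (kk τ)) = 1 := by
          cases τ.2.2 (kk τ) <;> simp [bi]
        rcases h5 with h5 | h5
        · rw [h5, add_zero] at h4
          rw [h5]
          have h6 : τ.1 (kk τ) ≠ -(N : ℤ) := by
            intro h
            rw [h, abs_neg] at h4
            exact h4 (abs_of_nonneg (Int.natCast_nonneg N))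
          omega
        · rw [h5] at h4 ⊢
          have h6 : τ.1 (kk τ) + 1 ≠ (N : ℤ) := by
            intro h
            rw [h] at h4
            exact h4 (abs_of_nonneg (Int.natCast_nonneg N))
          omega
      · rw [Function.update_of_ne hk]
        exact hτ k
  · intro τ _
    show inv (inv τ) = τ
    by_cases he : ex τ
    · have h2 : inv τ = τ := if_pos he
      rw [h2, h2]
    · have h2 : inv τ = fl τ := if_neg he
      have h3 : inv (fl τ) = fl (fl τ) := if_neg fun h => he ((hexfl τ).1 h)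
      rw [h2, h3]
      refine Prod.ext ?_ (Prod.ext rfl ?_)
      · show Function.update (Function.update τ.1 (kk τ) _) (kk τ)
          (Function.update τ.1 (kk τ) (τ.1 (kk τ) + (2 * bi (τ.2.2 (kk τ)) - 1)) (kk τ) +
          (2 * bi (Function.update τ.2.2 (kk τ) (!τ.2.2 (kk τ)) (kk τ)) - 1)) = τ.1
        rw [Function.update_self, Function.update_self, hbi, Function.update_idem]
        have h4 : τ.1 (kk τ) + (2 * bi (τ.2.2 (kk τ)) - 1) + (2 * (1 - bi (τ.2.2 (kk τ))) - 1) =
          τ.1 (kk τ) := by ring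
        rw [h4, Function.update_eq_self]
      · show Function.update (Function.update τ.2.2 (kk τ) _) (kk τ)
          (!(Function.update τ.2.2 (kk τ) (!τ.2.2 (kk τ)) (kk τ))) = τ.2.2
        rw [Function.update_self, Function.update_idem, Bool.not_not, Function.update_eq_self]

end Pool.Agent.Helper59.ZD
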