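import Pool.Agent.Helper59.ZD.Ring

set_option autoImplicit false
set_option linter.unusedSectionVars false

/-!
# The degree of a map on the boundary of a cube
-/

namespace Pool.Agent.Helper59.ZD

open Finset Pool.Agent.Helper29.ZBU

variable {κ : Type} [Fintype κ] [DecidableEq κ] {d : ℕ}

/-- The flags in a compact set without zeros contribute nothing, if the mesh is fine. -/
theorem small_flag (g : (κ → ℝ) → Fin d → ℝ) {A : Set (κ → ℝ)} (hA : IsCompact A)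
    (hA1 : ∀ z ∈ A, ‖z‖ ≤ 1) (hg : ContinuousOn g A) (h0 : ∀ z ∈ A, g z ≠ 0) :
    ∃ M₀ : ℕ, 0 < M₀ ∧ ∀ M, M₀ ≤ M → ∀ t : (κ → ℤ) → ℤ, ∀ τ : Flag κ d,
      (∀ l, pt M (vtx τ l) ∈ A) →
        ∏ j : Fin d, (sgm g M t j (vtx τ (j + 1)) - sgm g M t j (vtx τ j)) = 0 := by
  classical
  rcases A.eq_empty_or_nonempty with hAe | hne
  · refine ⟨1, one_pos, fun M _ t τ h => ?_⟩
    have := h 0
    rw [hAe] at this
    exact absurd this (Set.notMem_empty _)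
  obtain ⟨x₀, hx₀, hmin⟩ := hA.exists_isMinOn hne hg.norm
  have hδ : 0 < ‖g x₀‖ := norm_pos_iff.mpr (h0 x₀ hx₀)
  have hδ' : ∀ x ∈ A, ‖g x₀‖ ≤ ‖g x‖ := fun x hx => hmin hx
  have huc := hA.uniformContinuousOn_of_continuous hg
  rw [Metric.uniformContinuousOn_iff] at huc
  obtain ⟨δ, hδ0, hδ1⟩ := huc (‖g x₀‖ / 2) (by positivity)
  obtain ⟨n, hn⟩ := exists_nat_gt (1 / δ)
  refine ⟨n + 1, Nat.succ_pos n, fun M hM t τ hmem => ?_⟩
  have hM0 : 0 < M := lt_of_lt_of_le (Nat.succ_pos n) hM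
  have hM' : (0 : ℝ) < M := by exact_mod_cast hM0
  have hMδ : 1 / (M : ℝ) < δ := by
    have h1 : 1 / δ < M := by
      refine hn.trans_le ?_
      have : ((n + 1 : ℕ) : ℝ) ≤ M := by exact_mod_cast hM
      push_cast at this
      linarith
    rw [div_lt_iff₀ hδ0] at h1
    rw [div_lt_iff₀ hM']
    linarith
  by_contra hc
  rw [Finset.prod_eq_zero_iff] at hc
  push Not at hc
  have hle : ∀ l, ‖pt M (vtx τ l)‖ ≤ 1 := fun l => hA1 _ (hmem l)
  have hdist : ∀ l l', dist (g (pt M (vtx τ l))) (g (pt M (vtx τ l'))) < ‖g x₀‖ / 2 := by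
    intro l l'
    refine hδ1 _ (hmem l) _ (hmem l') ?_
    refine lt_of_le_of_lt ?_ hMδ
    rw [dist_pi_le_iff (by positivity)]
    intro k
    rw [Real.dist_eq]
    unfold pt
    rw [← sub_div, abs_div, abs_of_pos (show (0 : ℝ) < 2 * M by positivity)]
    have h1 := vtx_sub τ l l' k
    have h2 : ((|vtx τ l k - vtx τ l' k| : ℤ) : ℝ) ≤ 1 := by exact_mod_cast h1
    push_cast at h2
    refine (div_le_div_of_nonneg_right h2 (by positivity)).trans ?_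
    exact one_div_le_one_div_of_le hM' (by linarith)
  have hsmall : ∀ j : Fin d, |g (pt M (vtx τ 0)) j| < ‖g x₀‖ := by
    intro j
    have h1 := hc j (mem_univ _)
    have h3 : sgm g M t j (vtx τ (j + 1)) ≠ sgm g M t j (vtx τ j) :=
      fun h => h1 (sub_eq_zero.mpr h)
    have h4 : g (pt M (vtx τ j)) j * g (pt M (vtx τ (j + 1))) j ≤ 0 := by
      by_contra hp
      push Not at hp
      apply h3
      unfold sgm
      rw [if_pos (hle _), if_pos (hle _)]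
      rcases lt_trichotomy (g (pt M (vtx τ j)) j) 0 with h | h | h
      · have h' : g (pt M (vtx τ (j + 1))) j < 0 := by
          by_contra hh
          push Not at hh
          have := mul_nonpos_of_nonpos_of_nonneg h.le hh
          linarith
        rw [if_pos h, if_pos h']
      · rw [h, zero_mul] at hp
        exact absurd hp (lt_irrefl _)
      · have h' : 0 < g (pt M (vtx τ (j + 1))) j := by
          by_contra hh
          push Not at hh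
          have := mul_nonpos_of_nonneg_of_nonpos h.le hh
          linarith
        rw [if_neg (by linarith), if_pos h', if_neg (by linarith), if_pos h]
    have h5 : |g (pt M (vtx τ j)) j| ≤
        |g (pt M (vtx τ j)) j - g (pt M (vtx τ (j + 1))) j| := by
      rw [← sq_le_sq]
      nlinarith [sq_nonneg (g (pt M (vtx τ (j + 1))) j)]
    have h6 : ∀ l l', |g (pt M (vtx τ l)) j - g (pt M (vtx τ l')) j| < ‖g x₀‖ / 2 := by
      intro l l'
      have := (dist_le_pi_dist (g (pt M (vtx τ l))) (g (pt M (vtx τ l'))) j).trans_lt (hdist l l')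
      rwa [Real.dist_eq] at this
    calc |g (pt M (vtx τ 0)) j|
        = |(g (pt M (vtx τ 0)) j - g (pt M (vtx τ j)) j) + g (pt M (vtx τ j)) j| := by
          rw [sub_add_cancel]
      _ ≤ |g (pt M (vtx τ 0)) j - g (pt M (vtx τ j)) j| + |g (pt M (vtx τ j)) j| := abs_add_le _ _
      _ < ‖g x₀‖ / 2 + ‖g x₀‖ / 2 := add_lt_add (h6 0 j) (h5.trans_lt (h6 j (j + 1)))
      _ = ‖g x₀‖ := add_halves _
  have h7 : ‖g (pt M (vtx τ 0))‖ < ‖g x₀‖ := by
    rw [pi_norm_lt_iff hδ]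
    exact hsmall
  exact absurd (hδ' _ (hmem 0)) (not_le.mpr h7)

theorem sgm_congr {g g' : (κ → ℝ) → Fin d → ℝ} {N N' : ℕ} {t t' : (κ → ℤ) → ℤ} {j : Fin d}
    {x : κ → ℤ} (h1 : ‖pt N x‖ ≤ 1) (h2 : ‖pt N' x‖ ≤ 1) (h : g (pt N x) j = g' (pt N' x) j)
    (ht : t x = t' x) : sgm g N t j x = sgm g' N' t' j x := by
  unfold sgm
  rw [if_pos h1, if_pos h2, h, ht]

omit [Fintype κ] [DecidableEq κ] in
theorem pt_two (M : ℕ) (x : κ → ℤ) : pt (2 * M) x = (1 / 2 : ℝ) • pt M x := by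
  funext k
  show (x k : ℝ) / (2 * ((2 * M : ℕ) : ℝ)) = (1 / 2 : ℝ) * ((x k : ℝ) / (2 * M))
  push_cast
  field_simp

/-- The signed sums at two levels for a homotopy of maps without zeros on the boundary. -/
theorem two_level (hd : 0 < d) (e : Fin d ≃ κ) (H : ℝ → (κ → ℝ) → Fin d → ℝ)
    (hH : ContinuousOn (fun z : ℝ × (κ → ℝ) => H z.1 z.2) (Set.Icc 0 1 ×ˢ {z | ‖z‖ = 1}))
    (h0 : ∀ t ∈ Set.Icc (0 : ℝ) 1, ∀ z, ‖z‖ = 1 → H t z ≠ 0) :
    ∃ M₀ : ℕ, 0 < M₀ ∧ ∀ M, M₀ ≤ M → ∀ t t' : (κ → ℤ) → ℤ,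
      TZ e (2 * M) (sgm (H 0) (2 * M) t) = TZ e M (sgm (H 1) M t') := by
  classical
  have hRn : ∀ z ∈ Rg κ, ‖z‖ ≠ 0 := by
    intro z hz h
    have := hz.2
    rw [h] at this
    norm_num at this
  have hRs : ∀ z ∈ Rg κ, ‖‖z‖⁻¹ • z‖ = 1 := by
    intro z hz
    rw [norm_smul, norm_inv, norm_norm, inv_mul_cancel₀ (hRn z hz)]
  have hRt : ∀ z ∈ Rg κ, 2 - 2 * ‖z‖ ∈ Set.Icc (0 : ℝ) 1 := by
    rintro z ⟨h1, h2⟩
    constructor
    · linarith
    · linarith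
  let g : (κ → ℝ) → Fin d → ℝ := fun z => H (2 - 2 * ‖z‖) (‖z‖⁻¹ • z)
  have hg : ContinuousOn g (Rg κ) := by
    refine hH.comp (t := Set.Icc 0 1 ×ˢ {z | ‖z‖ = 1})
      (f := fun z : κ → ℝ => (2 - 2 * ‖z‖, ‖z‖⁻¹ • z)) ?_ fun z hz => ⟨hRt z hz, hRs z hz⟩
    refine ContinuousOn.prodMk (by fun_prop) ?_
    exact (continuous_norm.continuousOn.inv₀ hRn).smul continuousOn_id
  obtain ⟨M₀, hM₀, h1⟩ := ring_sum hd e g hg fun z hz => h0 _ (hRt z hz) _ (hRs z hz)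
  refine ⟨M₀, hM₀, fun M hM t t' => ?_⟩
  have hM0 : 0 < M := lt_of_lt_of_le hM₀ hM
  have h2 := h1 M hM fun x => if ‖pt (2 * M) x‖ = 1 then t x else t' x
  have e1 : TZ e (2 * M) (sgm g (2 * M) fun x => if ‖pt (2 * M) x‖ = 1 then t x else t' x) =
      TZ e (2 * M) (sgm (H 0) (2 * M) t) := by
    refine TZ_congr hd e fun j x hx hx' => ?_
    have h3 := norm_pt_eq (by omega) hx hx'
    have h4 : g (pt (2 * M) x) = H 0 (pt (2 * M) x) := by
      show H (2 - 2 * ‖pt (2 * M) x‖) (‖pt (2 * M) x‖⁻¹ • pt (2 * M) x) = _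
      rw [h3, inv_one, one_smul]
      norm_num
    exact sgm_congr h3.le h3.le (by rw [h4]) (if_pos h3)
  have e2 : TZ e M (sgm g (2 * M) fun x => if ‖pt (2 * M) x‖ = 1 then t x else t' x) =
      TZ e M (sgm (H 1) M t') := by
    refine TZ_congr hd e fun j x hx hx' => ?_
    have h3 := norm_pt_eq hM0 hx hx'
    have h5 : ‖pt (2 * M) x‖ = 1 / 2 := by
      rw [pt_two, norm_smul, h3]
      norm_num
    have h4 : g (pt (2 * M) x) = H 1 (pt M x) := by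
      have h6 : (2 : ℝ) - 2 * (1 / 2) = 1 := by norm_num
      have h7 : ((1 / 2 : ℝ)⁻¹ * (1 / 2)) = 1 := by norm_num
      show H (2 - 2 * ‖pt (2 * M) x‖) (‖pt (2 * M) x‖⁻¹ • pt (2 * M) x) = _
      rw [h5, pt_two, smul_smul, h6, h7, one_smul]
    refine sgm_congr (by rw [h5]; norm_num) h3.le (by rw [h4]) (if_neg ?_)
    rw [h5]
    norm_num
  rw [← e1, h2, e2]

/-- The degree: the signed sum at all fine dyadic levels. -/
def IsDeg (e : Fin d ≃ κ) (f : (κ → ℝ) → Fin d → ℝ) (δ : ℤ) : Prop :=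
  ∃ k₀ : ℕ, ∀ k, k₀ ≤ k → ∀ t : (κ → ℤ) → ℤ, TZ e (2 ^ k) (sgm f (2 ^ k) t) = δ

theorem IsDeg.unique {e : Fin d ≃ κ} {f : (κ → ℝ) → Fin d → ℝ} {δ δ' : ℤ} (h : IsDeg e f δ)
    (h' : IsDeg e f δ') : δ = δ' := by
  obtain ⟨k, hk⟩ := h
  obtain ⟨k', hk'⟩ := h'
  rw [← hk (max k k') (le_max_left _ _) 0, hk' (max k k') (le_max_right _ _) 0]

/-- The degree of homotopic maps. -/
theorem IsDeg.htp (hd : 0 < d) {e : Fin d ≃ κ} {H : ℝ → (κ → ℝ) → Fin d → ℝ} {δ : ℤ}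
    (h : IsDeg e (H 0) δ)
    (hH : ContinuousOn (fun z : ℝ × (κ → ℝ) => H z.1 z.2) (Set.Icc 0 1 ×ˢ {z | ‖z‖ = 1}))
    (h0 : ∀ t ∈ Set.Icc (0 : ℝ) 1, ∀ z, ‖z‖ = 1 → H t z ≠ 0) : IsDeg e (H 1) δ := by
  obtain ⟨k, hk⟩ := h
  obtain ⟨M₀, hM₀, h1⟩ := two_level hd e H hH h0
  refine ⟨max k M₀, fun k' hk' t => ?_⟩
  have h2 : M₀ ≤ 2 ^ k' := by
    have h3 : k' < 2 ^ k' := Nat.lt_two_pow_self
    have := (le_max_right k M₀).trans hk'
    omega
  rw [← h1 (2 ^ k') h2 0 t]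
  have h3 : 2 * 2 ^ k' = 2 ^ (k' + 1) := by ring
  rw [h3]
  exact hk (k' + 1) (((le_max_left k M₀).trans hk').trans (Nat.le_succ _)) 0

/-- A map without zeros on the boundary has a degree. -/
theorem exists_deg (hd : 0 < d) (e : Fin d ≃ κ) (f : (κ → ℝ) → Fin d → ℝ)
    (hf : ContinuousOn f {z | ‖z‖ = 1}) (h0 : ∀ z, ‖z‖ = 1 → f z ≠ 0) : ∃ δ, IsDeg e f δ := by
  obtain ⟨M₀, hM₀, h1⟩ := two_level hd e (fun _ => f) (by
    refine hf.comp continuousOn_snd ?_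
    rintro z ⟨-, hz⟩
    exact hz) fun _ _ => h0
  have h2 : ∀ k, M₀ ≤ k → M₀ ≤ 2 ^ k := by
    intro k hk
    have h3 : k < 2 ^ k := Nat.lt_two_pow_self
    omega
  refine ⟨TZ e (2 ^ M₀) (sgm f (2 ^ M₀) 0), M₀ + 1, fun k hk => ?_⟩
  induction k, hk using Nat.le_induction with
  | base =>
    intro t
    rw [← h1 (2 ^ M₀) (h2 M₀ le_rfl) t 0]
    have h3 : 2 * 2 ^ M₀ = 2 ^ (M₀ + 1) := by ring
    rw [h3]
  | succ k hk ih =>
    intro t
    rw [← ih 0, ← h1 (2 ^ k) (h2 k (by omega)) t 0]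
    have h3 : 2 * 2 ^ k = 2 ^ (k + 1) := by ring
    rw [h3]

theorem pt_flip (A : Finset κ) (M : ℕ) (x : κ → ℤ) : pt M (flip A x) = flip A (pt M x) := by
  funext k
  show ((if k ∈ A then -x k else x k : ℤ) : ℝ) / (2 * M) =
    if k ∈ A then -((x k : ℝ) / (2 * M)) else (x k : ℝ) / (2 * M)
  split_ifs
  · push_cast
    ring
  · rfl

theorem flip_flip {R : Type} [AddGroup R] (A : Finset κ) (x : κ → R) : flip A (flip A x) = x := by
  funext k
  show (if k ∈ A then -(if k ∈ A then -x k else x k) else (if k ∈ A then -x k else x k)) = x k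
  split_ifs
  · rw [neg_neg]
  · rfl

/-- The degree after a change of signs of coordinates. -/
theorem IsDeg.flip {e : Fin d ≃ κ} {f : (κ → ℝ) → Fin d → ℝ} {δ : ℤ} (h : IsDeg e f δ)
    (A : Finset κ) : IsDeg e (fun z => f (ZD.flip A z)) ((-1) ^ A.card * δ) := by
  obtain ⟨k, hk⟩ := h
  refine ⟨k, fun k' hk' t => ?_⟩
  rw [← hk k' hk' fun x => t (ZD.flip A x), ← TZ_flip]
  congr 1
  funext j x
  unfold sgm
  rw [pt_flip, flip_norm]
  simp only [flip_flip]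

/-- A map which is invariant for a change of an odd number of signs has degree zero. -/
theorem IsDeg.zero {e : Fin d ≃ κ} {f : (κ → ℝ) → Fin d → ℝ} {δ : ℤ} (h : IsDeg e f δ)
    (A : Finset κ) (hA : Odd A.card) (hf : ∀ z, f (ZD.flip A z) = f z) : δ = 0 := by
  have h1 := h.flip A
  rw [hA.neg_one_pow] at h1
  have h2 : (fun z => f (ZD.flip A z)) = f := funext hf
  rw [h2] at h1
  have := h.unique h1
  omega

/-- The degree of an odd map is odd. -/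
theorem IsDeg.odd {e : Fin d ≃ κ} {f : (κ → ℝ) → Fin d → ℝ} {δ : ℤ} (h : IsDeg e f δ)
    (hodd : ∀ z, ‖z‖ = 1 → f (-z) = -f z) : (δ : ZMod 2) = 1 := by
  obtain ⟨k, hk⟩ := h
  rw [← hk k le_rfl (tb (2 ^ k))]
  exact odd_sum (by positivity) e f hodd

theorem TZ_split (e : Fin d ≃ κ) (N : ℕ) (s : Fin d → (κ → ℤ) → ℤ) (P : Flag κ d → Prop)
    [DecidablePred P] : TZ e N s =
      ∑ τ ∈ (flags κ d N).filter P, sn e τ * ∏ j : Fin d, (s j (vtx τ (j + 1)) - s j (vtx τ j)) +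
      ∑ τ ∈ (flags κ d N).filter fun τ => ¬ P τ,
        sn e τ * ∏ j : Fin d, (s j (vtx τ (j + 1)) - s j (vtx τ j)) :=
  (Finset.sum_filter_add_sum_filter_not _ _ _).symm

theorem bi_le (b : Bool) : 0 ≤ bi b ∧ bi b ≤ 1 := by
  cases b <;> simp [bi]

/-- The coordinates of the vertices of a flag of the inner cube. -/
theorem vtx_inner {M : ℕ} {τ : Flag κ d} {k : κ} (h : -(M : ℤ) ≤ τ.1 k ∧ τ.1 k < M) (l : ℕ) :
    |vtx τ l k| ≤ 2 * (M : ℤ) := by
  have hb := bi_le (τ.2.2 k)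
  rw [abs_le]
  unfold vtx
  split_ifs <;> constructor <;> omega

/-- The coordinates of the vertices of a flag outside of the inner cube. -/
theorem vtx_outer {M : ℕ} {τ : Flag κ d} {k : κ} (h : ¬ (-(M : ℤ) ≤ τ.1 k ∧ τ.1 k < M)) (l : ℕ) :
    2 * (M : ℤ) ≤ |vtx τ l k| := by
  have hb := bi_le (τ.2.2 k)
  rw [le_abs]
  unfold vtx
  split_ifs
  · by_cases h2 : -(M : ℤ) ≤ τ.1 k
    · left
      have : ¬ τ.1 k < M := fun h' => h ⟨h2, h'⟩
      omega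
    · right
      omega
  · by_cases h2 : -(M : ℤ) ≤ τ.1 k
    · left
      have : ¬ τ.1 k < M := fun h' => h ⟨h2, h'⟩
      omega
    · right
      omega

theorem pt_abs_le {M : ℕ} (hM : 0 < M) {x : κ → ℤ} {k : κ} (h : |x k| ≤ 2 * (M : ℤ)) :
    |pt (2 * M) x k| ≤ 1 / 2 := by
  have hM' : (0 : ℝ) < M := by exact_mod_cast hM
  unfold pt
  push_cast
  rw [abs_div, abs_of_pos (show (0 : ℝ) < 2 * (2 * M) by positivity), div_le_iff₀ (by positivity)]
  have h3 : ((|x k| : ℤ) : ℝ) ≤ ((2 * (M : ℤ) : ℤ) : ℝ) := by exact_mod_cast h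
  push_cast at h3
  linarith

theorem pt_abs_ge {M : ℕ} (hM : 0 < M) {x : κ → ℤ} {k : κ} (h : 2 * (M : ℤ) ≤ |x k|) :
    1 / 2 ≤ |pt (2 * M) x k| := by
  have hM' : (0 : ℝ) < M := by exact_mod_cast hM
  unfold pt
  push_cast
  rw [abs_div, abs_of_pos (show (0 : ℝ) < 2 * (2 * M) by positivity), le_div_iff₀ (by positivity)]
  have h3 : ((2 * (M : ℤ) : ℤ) : ℝ) ≤ ((|x k| : ℤ) : ℝ) := by exact_mod_cast h
  push_cast at h3
  linarith

/-- If `f` and `f'` agree where `|z i|, |z i'| ≤ 1/2` and are invariant for the change of the sign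
of the coordinate `i` elsewhere, they have the same degree. -/
theorem IsDeg.region {e : Fin d ≃ κ} {f f' : (κ → ℝ) → Fin d → ℝ} {δ δ' : ℤ} (h : IsDeg e f δ)
    (h' : IsDeg e f' δ') (i i' : κ)
    (hin : ∀ z, ‖z‖ ≤ 1 → |z i| ≤ 1 / 2 → |z i'| ≤ 1 / 2 → f z = f' z)
    (hout : ∀ z, ‖z‖ ≤ 1 → (1 / 2 ≤ |z i| ∨ 1 / 2 ≤ |z i'|) → f (ZD.flip {i} z) = f z)
    (hout' : ∀ z, ‖z‖ ≤ 1 → (1 / 2 ≤ |z i| ∨ 1 / 2 ≤ |z i'|) → f' (ZD.flip {i} z) = f' z) :
    δ = δ' := by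
  classical
  obtain ⟨k, hk⟩ := h
  obtain ⟨k', hk'⟩ := h'
  set M : ℕ := 2 ^ max k k' with hMd
  have hM : 0 < M := by positivity
  have e1 := hk (max k k' + 1) ((le_max_left _ _).trans (Nat.le_succ _)) 0
  have e2 := hk' (max k k' + 1) ((le_max_right _ _).trans (Nat.le_succ _)) 0
  have h3 : 2 ^ (max k k' + 1) = 2 * M := by
    rw [hMd]
    ring
  rw [h3] at e1 e2
  let P : Flag κ d → Prop := fun τ => (-(M : ℤ) ≤ τ.1 i ∧ τ.1 i < M) ∧
    (-(M : ℤ) ≤ τ.1 i' ∧ τ.1 i' < M)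
  -- the outer sum
  have hzero : ∀ g : (κ → ℝ) → Fin d → ℝ,
      (∀ z, ‖z‖ ≤ 1 → (1 / 2 ≤ |z i| ∨ 1 / 2 ≤ |z i'|) → g (ZD.flip {i} z) = g z) →
      ∑ τ ∈ (flags κ d (2 * M)).filter fun τ => ¬ P τ, sn e τ *
        ∏ j : Fin d, (sgm g (2 * M) 0 j (vtx τ (j + 1)) - sgm g (2 * M) 0 j (vtx τ j)) = 0 := by
    intro g hg
    set Sg := ∑ τ ∈ (flags κ d (2 * M)).filter fun τ => ¬ P τ, sn e τ *
        ∏ j : Fin d, (sgm g (2 * M) 0 j (vtx τ (j + 1)) - sgm g (2 * M) 0 j (vtx τ j)) with hSg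
    have hPf : ∀ τ, P (flipF {i} τ) ↔ P τ := by
      intro τ
      have h5 : ∀ k : κ, (-(M : ℤ) ≤ (flipF {i} τ).1 k ∧ (flipF {i} τ).1 k < M) ↔
          (-(M : ℤ) ≤ τ.1 k ∧ τ.1 k < M) := by
        intro k
        show (-(M : ℤ) ≤ (if k ∈ ({i} : Finset κ) then -τ.1 k - 1 else τ.1 k) ∧
          (if k ∈ ({i} : Finset κ) then -τ.1 k - 1 else τ.1 k) < M) ↔ _
        split_ifs
        · constructor <;> rintro ⟨h6, h7⟩ <;> constructor <;> omega
        · exact Iff.rfl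
      exact and_congr (h5 i) (h5 i')
    have h4 : Sg = -Sg := by
      rw [hSg, ← Finset.sum_neg_distrib]
      refine Finset.sum_nbij' (flipF {i}) (flipF {i}) ?_ ?_ (fun τ _ => flipF_flipF _ τ)
        (fun τ _ => flipF_flipF _ τ) ?_
      · intro τ hτ
        rw [Finset.mem_filter] at hτ ⊢
        exact ⟨flipF_mem _ hτ.1, fun h => hτ.2 ((hPf τ).1 h)⟩
      · intro τ hτ
        rw [Finset.mem_filter] at hτ ⊢
        exact ⟨flipF_mem _ hτ.1, fun h => hτ.2 ((hPf τ).1 h)⟩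
      · intro τ hτ
        rw [Finset.mem_filter] at hτ
        have h5 : ∀ (l : ℕ) (j : Fin d), sgm g (2 * M) 0 j (vtx (flipF {i} τ) l) =
            sgm g (2 * M) 0 j (vtx τ l) := by
          intro l j
          have h6 : ‖pt (2 * M) (vtx τ l)‖ ≤ 1 :=
            norm_pt_le (by omega) fun k => vtx_abs hτ.1 l k
          have h7 : 1 / 2 ≤ |pt (2 * M) (vtx τ l) i| ∨ 1 / 2 ≤ |pt (2 * M) (vtx τ l) i'| := by
            by_cases h8 : -(M : ℤ) ≤ τ.1 i ∧ τ.1 i < M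
            · right
              exact pt_abs_ge hM (vtx_outer (fun h9 => hτ.2 ⟨h8, h9⟩) l)
            · left
              exact pt_abs_ge hM (vtx_outer h8 l)
          rw [vtx_flip]
          unfold sgm
          rw [pt_flip, flip_norm, hg _ h6 h7]
          rfl
        rw [sn_flipF, Finset.card_singleton, pow_one]
        simp only [h5]
        ring
    omega
  have hinner : ∑ τ ∈ (flags κ d (2 * M)).filter P, sn e τ *
      ∏ j : Fin d, (sgm f (2 * M) 0 j (vtx τ (j + 1)) - sgm f (2 * M) 0 j (vtx τ j)) =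
      ∑ τ ∈ (flags κ d (2 * M)).filter P, sn e τ *
      ∏ j : Fin d, (sgm f' (2 * M) 0 j (vtx τ (j + 1)) - sgm f' (2 * M) 0 j (vtx τ j)) := by
    refine Finset.sum_congr rfl fun τ hτ => ?_
    rw [Finset.mem_filter] at hτ
    have h5 : ∀ (l : ℕ) (j : Fin d), sgm f (2 * M) 0 j (vtx τ l) =
        sgm f' (2 * M) 0 j (vtx τ l) := by
      intro l j
      have h6 : ‖pt (2 * M) (vtx τ l)‖ ≤ 1 := norm_pt_le (by omega) fun k => vtx_abs hτ.1 l k
      unfold sgm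
      rw [hin _ h6 (pt_abs_le hM (vtx_inner hτ.2.1 l)) (pt_abs_le hM (vtx_inner hτ.2.2 l))]
    simp only [h5]
  rw [← e1, ← e2, TZ_split e (2 * M) _ P, TZ_split e (2 * M) (sgm f' (2 * M) 0) P, hzero f hout,
    hzero f' hout', hinner]

end Pool.Agent.Helper59.ZD
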