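import Pool.Agent.Helper59.ZD.T
import Pool.Agent.Helper20.CKP.IsoK

set_option autoImplicit false

/-!
# Homotopies of frames

The map `w ↦ R w * Aᵀ`, whose values are `k` orthogonal rows of the length of `w` in `ℝ ^ n`, `k`
even, the last row being `A w`, is homotopic to its composition with the change of the signs of the
coordinates of `w` other than the first, if `n` is at least `N + k - 1`.
-/

namespace Pool.Agent.Helper59.ZD

open Matrix

/-- The maps `a` and `b` are homotopic through matrices with orthogonal rows of the length of the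
argument. -/
def Htp {k n N : ℕ} (a b : (Fin N → ℝ) → Matrix (Fin k) (Fin n) ℝ) : Prop :=
  ∃ g : ℝ → (Fin N → ℝ) → Matrix (Fin k) (Fin n) ℝ,
    Continuous (fun z : ℝ × (Fin N → ℝ) => g z.1 z.2) ∧ (∀ y, g 0 y = a y) ∧
    (∀ y, g 1 y = b y) ∧ ∀ t y, g t y * (g t y)ᵀ = (y ⬝ᵥ y) • (1 : Matrix (Fin k) (Fin k) ℝ)

variable {k n N : ℕ}

theorem Htp.symm {a b : (Fin N → ℝ) → Matrix (Fin k) (Fin n) ℝ} (h : Htp a b) : Htp b a := by
  obtain ⟨g, h1, h2, h3, h4⟩ := h
  refine ⟨fun t y => g (1 - t) y, ?_, fun y => ?_, fun y => ?_, fun t y => h4 _ _⟩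
  · exact h1.comp ((continuous_const.sub continuous_fst).prodMk continuous_snd)
  · show g (1 - 0) y = b y
    rw [sub_zero, h3]
  · show g (1 - 1) y = a y
    rw [sub_self, h2]

theorem Htp.trans {a b c : (Fin N → ℝ) → Matrix (Fin k) (Fin n) ℝ} (h : Htp a b) (h' : Htp b c) :
    Htp a c := by
  obtain ⟨g, h1, h2, h3, h4⟩ := h
  obtain ⟨g', h1', h2', h3', h4'⟩ := h'
  refine ⟨fun t y => if t ≤ 1 / 2 then g (2 * t) y else g' (2 * t - 1) y, ?_, fun y => ?_,
    fun y => ?_, fun t y => ?_⟩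
  · refine Continuous.if_le (f' := fun z : ℝ × (Fin N → ℝ) => g (2 * z.1) z.2)
      (g' := fun z : ℝ × (Fin N → ℝ) => g' (2 * z.1 - 1) z.2) ?_ ?_ continuous_fst
      continuous_const ?_
    · exact h1.comp ((continuous_const.mul continuous_fst).prodMk continuous_snd)
    · exact h1'.comp (((continuous_const.mul continuous_fst).sub continuous_const).prodMk
        continuous_snd)
    · intro z hz
      show g (2 * z.1) z.2 = g' (2 * z.1 - 1) z.2
      rw [hz]
      norm_num
      rw [h3, h2']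
  · show (if (0 : ℝ) ≤ 1 / 2 then g (2 * 0) y else _) = a y
    rw [if_pos (by norm_num), mul_zero, h2]
  · show (if (1 : ℝ) ≤ 1 / 2 then _ else g' (2 * 1 - 1) y) = c y
    rw [if_neg (by norm_num)]
    norm_num
    rw [h3']
  · show (if t ≤ 1 / 2 then g (2 * t) y else g' (2 * t - 1) y) *
      (if t ≤ 1 / 2 then g (2 * t) y else g' (2 * t - 1) y)ᵀ = _
    split_ifs
    · exact h4 _ _
    · exact h4' _ _

theorem Htp.comp {a b : (Fin N → ℝ) → Matrix (Fin k) (Fin n) ℝ} (h : Htp a b)
    {L : (Fin N → ℝ) → Fin N → ℝ} (hL : Continuous L) (hL' : ∀ y, L y ⬝ᵥ L y = y ⬝ᵥ y) :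
    Htp (fun y => a (L y)) (fun y => b (L y)) := by
  obtain ⟨g, h1, h2, h3, h4⟩ := h
  refine ⟨fun t y => g t (L y), ?_, fun y => h2 _, fun y => h3 _, fun t y => ?_⟩
  · exact h1.comp (continuous_fst.prodMk (hL.comp continuous_snd))
  · show g t (L y) * (g t (L y))ᵀ = _
    rw [h4, hL']

theorem Htp.mul_right {a b : (Fin N → ℝ) → Matrix (Fin k) (Fin n) ℝ} (h : Htp a b)
    {V : Matrix (Fin n) (Fin n) ℝ} (hV : V * Vᵀ = 1) :
    Htp (fun y => a y * V) (fun y => b y * V) := by
  obtain ⟨g, h1, h2, h3, h4⟩ := h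
  refine ⟨fun t y => g t y * V, ?_, fun y => ?_, fun y => ?_, fun t y => ?_⟩
  · exact h1.matrix_mul continuous_const
  · show g 0 y * V = _
    rw [h2]
  · show g 1 y * V = _
    rw [h3]
  · show g t y * V * (g t y * V)ᵀ = _
    rw [transpose_mul, Matrix.mul_assoc, ← Matrix.mul_assoc V, hV, Matrix.one_mul, h4]

/-- The rotation of the rows. -/
theorem htp_neg {a : (Fin N → ℝ) → Matrix (Fin k) (Fin n) ℝ} (ha : Continuous a)
    (ha' : ∀ y, a y * (a y)ᵀ = (y ⬝ᵥ y) • (1 : Matrix (Fin k) (Fin k) ℝ))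
    {J : Matrix (Fin k) (Fin k) ℝ} (hJ : Jᵀ = -J) (hJ2 : J * Jᵀ = 1) : Htp a fun y => -a y := by
  refine ⟨fun t y => (Real.cos (Real.pi * t) • (1 : Matrix (Fin k) (Fin k) ℝ) +
    Real.sin (Real.pi * t) • J) * a y, ?_, fun y => ?_, fun y => ?_, fun t y => ?_⟩
  · have h1 : Continuous fun z : ℝ × (Fin N → ℝ) =>
        (Real.cos (Real.pi * z.1) • (1 : Matrix (Fin k) (Fin k) ℝ) +
          Real.sin (Real.pi * z.1) • J) := by fun_prop
    exact h1.matrix_mul (ha.comp continuous_snd)
  · simp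
  · simp
  · show ((Real.cos (Real.pi * t) • (1 : Matrix (Fin k) (Fin k) ℝ) +
      Real.sin (Real.pi * t) • J) * a y) * ((Real.cos (Real.pi * t) •
        (1 : Matrix (Fin k) (Fin k) ℝ) + Real.sin (Real.pi * t) • J) * a y)ᵀ = _
    set c := Real.cos (Real.pi * t)
    set s := Real.sin (Real.pi * t)
    have hcs : c ^ 2 + s ^ 2 = 1 := Real.cos_sq_add_sin_sq _
    rw [transpose_mul, Matrix.mul_assoc, ← Matrix.mul_assoc (a y), ha', Matrix.smul_mul,
      Matrix.one_mul, Matrix.mul_smul, transpose_add, transpose_smul, transpose_smul, transpose_one]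
    congr 1
    have h1 : (c • (1 : Matrix (Fin k) (Fin k) ℝ) + s • J) * (c • 1 + s • Jᵀ) =
        (c ^ 2) • (1 : Matrix (Fin k) (Fin k) ℝ) + (c * s) • (J + Jᵀ) + (s ^ 2) • (J * Jᵀ) := by
      simp only [Matrix.add_mul, Matrix.mul_add, Matrix.smul_mul, Matrix.mul_smul, Matrix.one_mul,
        Matrix.mul_one]
      module
    rw [h1, hJ2, hJ, add_neg_cancel, smul_zero, add_zero, ← add_smul, hcs, one_smul]

/-- The rotation of the columns in the span of the rows of `e`. -/
theorem htp_refl {a : (Fin N → ℝ) → Matrix (Fin k) (Fin n) ℝ} (ha : Continuous a)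
    (ha' : ∀ y, a y * (a y)ᵀ = (y ⬝ᵥ y) • (1 : Matrix (Fin k) (Fin k) ℝ)) {l : ℕ}
    {J : Matrix (Fin l) (Fin l) ℝ} (hJ : Jᵀ = -J) (hJ2 : J * Jᵀ = 1)
    {e : Matrix (Fin l) (Fin n) ℝ} (he : e * eᵀ = 1) :
    Htp a fun y => a y * (1 - (2 : ℝ) • (eᵀ * e)) := by
  let Q : ℝ → Matrix (Fin n) (Fin n) ℝ := fun t => 1 + (Real.cos (Real.pi * t) - 1) • (eᵀ * e) +
    Real.sin (Real.pi * t) • (eᵀ * J * e)
  have hQc : Continuous Q := by
    show Continuous fun t : ℝ => 1 + (Real.cos (Real.pi * t) - 1) • (eᵀ * e) +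
      Real.sin (Real.pi * t) • (eᵀ * J * e)
    fun_prop
  have hQ : ∀ t, Q t * (Q t)ᵀ = 1 := by
    intro t
    show (1 + (Real.cos (Real.pi * t) - 1) • (eᵀ * e) + Real.sin (Real.pi * t) • (eᵀ * J * e)) *
      (1 + (Real.cos (Real.pi * t) - 1) • (eᵀ * e) + Real.sin (Real.pi * t) • (eᵀ * J * e))ᵀ = 1
    set c := Real.cos (Real.pi * t)
    set s := Real.sin (Real.pi * t)
    have hcs : c ^ 2 + s ^ 2 = 1 := Real.cos_sq_add_sin_sq _
    set P := eᵀ * e with hP
    set K := eᵀ * J * e with hK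
    have hPP : P * P = P := by
      rw [hP, Matrix.mul_assoc, ← Matrix.mul_assoc e, he, Matrix.one_mul]
    have hPt : Pᵀ = P := by rw [hP, transpose_mul, transpose_transpose]
    have hKt : Kᵀ = -K := by
      rw [hK, transpose_mul, transpose_mul, transpose_transpose, hJ, Matrix.mul_assoc,
        Matrix.neg_mul, Matrix.mul_neg]
    have hPK : P * K = K := by
      rw [hP, hK, Matrix.mul_assoc eᵀ e, ← Matrix.mul_assoc e (eᵀ * J) e, ← Matrix.mul_assoc e eᵀ J,
        he, Matrix.one_mul, Matrix.mul_assoc]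
    have hKP : K * P = K := by
      rw [hP, hK, Matrix.mul_assoc (eᵀ * J) e, ← Matrix.mul_assoc e eᵀ e, he, Matrix.one_mul]
    have hKK : K * K = -P := by
      have h1 : J * J = -1 := by
        have := hJ2
        rw [hJ, Matrix.mul_neg] at this
        rw [← this, neg_neg]
      rw [hK, hP, Matrix.mul_assoc (eᵀ * J) e, ← Matrix.mul_assoc e (eᵀ * J) e,
        ← Matrix.mul_assoc e eᵀ J, he, Matrix.one_mul, Matrix.mul_assoc eᵀ J (J * e),
        ← Matrix.mul_assoc J J e, h1, Matrix.neg_mul, Matrix.mul_neg, Matrix.one_mul]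
    rw [transpose_add, transpose_add, transpose_smul, transpose_smul, transpose_one, hPt, hKt]
    have h1 : (1 + (c - 1) • P + s • K) * (1 + (c - 1) • P + s • -K) =
        1 + (2 * (c - 1)) • P + ((c - 1) * (c - 1)) • (P * P) - ((c - 1) * s) • (P * K) +
          (s * (c - 1)) • (K * P) - (s * s) • (K * K) := by
      simp only [Matrix.add_mul, Matrix.mul_add, Matrix.smul_mul, Matrix.mul_smul, Matrix.one_mul,
        Matrix.mul_one, Matrix.mul_neg]
      module
    rw [h1, hPP, hPK, hKP, hKK, smul_neg, sub_neg_eq_add, mul_comm s (c - 1), sub_add_cancel,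
      add_assoc, add_assoc, ← add_smul, ← add_smul]
    have h2 : 2 * (c - 1) + ((c - 1) * (c - 1) + s * s) = 0 := by nlinarith
    rw [h2, zero_smul, add_zero]
  refine ⟨fun t y => a y * Q t, ?_, fun y => ?_, fun y => ?_, fun t y => ?_⟩
  · exact (ha.comp continuous_snd).matrix_mul (hQc.comp continuous_fst)
  · show a y * Q 0 = a y
    simp [Q]
  · show a y * Q 1 = a y * (1 - (2 : ℝ) • (eᵀ * e))
    have h1 : Q 1 = 1 - (2 : ℝ) • (eᵀ * e) := by
      show 1 + (Real.cos (Real.pi * 1) - 1) • (eᵀ * e) + Real.sin (Real.pi * 1) • (eᵀ * J * e) = _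
      rw [mul_one, Real.cos_pi, Real.sin_pi, zero_smul, add_zero]
      have h2 : (-1 - 1 : ℝ) = -2 := by norm_num
      rw [h2, neg_smul, ← sub_eq_add_neg]
    rw [h1]
  · show a y * Q t * (a y * Q t)ᵀ = _
    rw [transpose_mul, Matrix.mul_assoc, ← Matrix.mul_assoc (Q t), hQ, Matrix.one_mul, ha']

/-- The matrix with the rows `e (f i)`. -/
def sel {l : ℕ} (f : Fin l → Fin n) : Matrix (Fin l) (Fin n) ℝ :=
  Matrix.of fun i j => if j = f i then 1 else 0

theorem sel_mul {l m : ℕ} (f : Fin l → Fin n) (g : Fin m → Fin n) :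
    sel f * (sel g)ᵀ = Matrix.of fun i j => if f i = g j then (1 : ℝ) else 0 := by
  ext i j
  rw [Matrix.mul_apply]
  simp only [sel, Matrix.of_apply, Matrix.transpose_apply]
  rw [Finset.sum_eq_single (f i)]
  · rw [if_pos rfl, one_mul]
  · intro b _ hb
    rw [if_neg hb, zero_mul]
  · intro h
    exact absurd (Finset.mem_univ _) h

theorem sel_self {l : ℕ} {f : Fin l → Fin n} (hf : Function.Injective f) :
    sel f * (sel f)ᵀ = 1 := by
  rw [sel_mul]
  ext i j
  rw [Matrix.of_apply, Matrix.one_apply]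
  by_cases h : i = j
  · subst h
    rw [if_pos rfl, if_pos rfl]
  · rw [if_neg h, if_neg fun h' => h (hf h')]

/-- The length of the argument. -/
noncomputable def nr (w : Fin N → ℝ) : ℝ := Real.sqrt (w ⬝ᵥ w)

theorem nr_sq (w : Fin N → ℝ) : nr w * nr w = w ⬝ᵥ w := by
  unfold nr
  refine Real.mul_self_sqrt ?_
  rw [dotProduct]
  exact Finset.sum_nonneg fun i _ => mul_self_nonneg _

theorem continuous_nr : Continuous (nr : (Fin N → ℝ) → ℝ) := by
  unfold nr
  refine Continuous.sqrt ?_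
  exact continuous_id.dotProduct continuous_id

/-- The first rows are moved out of the space of the argument. -/
theorem htp_slide {k' : ℕ} {D : Matrix (Fin N) (Fin n) ℝ} (hD : D * Dᵀ = 1)
    {e : Matrix (Fin (k' + 1)) (Fin n) ℝ} (he : e * eᵀ =
      Matrix.diagonal fun i => if i = Fin.last k' then (0 : ℝ) else 1) (hDe : D * eᵀ = 0)
    {R : (Fin N → ℝ) → Matrix (Fin (k' + 1)) (Fin N) ℝ} (hRc : Continuous R)
    (hR : ∀ w, R w * (R w)ᵀ = (w ⬝ᵥ w) • (1 : Matrix (Fin (k' + 1)) (Fin (k' + 1)) ℝ)) :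
    Htp (fun w => R w * D) (fun w => Matrix.diagonal (fun i => if i = Fin.last k' then
      (1 : ℝ) else 0) * R w * D + nr w • e) := by
  refine ⟨fun t w => Matrix.diagonal (fun i => if i = Fin.last k' then (1 : ℝ) else
    Real.cos (Real.pi / 2 * t)) * R w * D + (Real.sin (Real.pi / 2 * t) * nr w) • e, ?_,
    fun w => ?_, fun w => ?_, fun t w => ?_⟩
  · have h1 : Continuous fun z : ℝ × (Fin N → ℝ) => Matrix.diagonal (fun i : Fin (k' + 1) =>
        if i = Fin.last k' then (1 : ℝ) else Real.cos (Real.pi / 2 * z.1)) := by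
      refine Continuous.matrix_diagonal (continuous_pi fun i => ?_)
      split_ifs
      · exact continuous_const
      · exact Real.continuous_cos.comp (continuous_const.mul continuous_fst)
    have h2 : Continuous fun z : ℝ × (Fin N → ℝ) => (Real.sin (Real.pi / 2 * z.1) * nr z.2) • e :=
      ((Real.continuous_sin.comp (continuous_const.mul continuous_fst)).mul
        (continuous_nr.comp continuous_snd)).smul continuous_const
    exact ((h1.matrix_mul (hRc.comp continuous_snd)).matrix_mul continuous_const).add h2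
  · show Matrix.diagonal (fun i => if i = Fin.last k' then (1 : ℝ) else
      Real.cos (Real.pi / 2 * 0)) * R w * D + (Real.sin (Real.pi / 2 * 0) * nr w) • e = R w * D
    rw [mul_zero, Real.cos_zero, Real.sin_zero, zero_mul, zero_smul, add_zero]
    simp
  · show Matrix.diagonal (fun i => if i = Fin.last k' then (1 : ℝ) else
      Real.cos (Real.pi / 2 * 1)) * R w * D + (Real.sin (Real.pi / 2 * 1) * nr w) • e = _
    rw [mul_one, Real.cos_pi_div_two, Real.sin_pi_div_two, one_mul]
  · show (Matrix.diagonal (fun i => if i = Fin.last k' then (1 : ℝ) else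
      Real.cos (Real.pi / 2 * t)) * R w * D + (Real.sin (Real.pi / 2 * t) * nr w) • e) *
      (Matrix.diagonal (fun i => if i = Fin.last k' then (1 : ℝ) else
      Real.cos (Real.pi / 2 * t)) * R w * D + (Real.sin (Real.pi / 2 * t) * nr w) • e)ᵀ = _
    set c := Real.cos (Real.pi / 2 * t)
    set s := Real.sin (Real.pi / 2 * t)
    have hcs : c ^ 2 + s ^ 2 = 1 := Real.cos_sq_add_sin_sq _
    set P : Matrix (Fin (k' + 1)) (Fin (k' + 1)) ℝ :=
      Matrix.diagonal (fun i => if i = Fin.last k' then (1 : ℝ) else c) with hP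
    have heD : e * Dᵀ = 0 := by
      have := congrArg Matrix.transpose hDe
      rwa [transpose_mul, transpose_transpose, transpose_zero] at this
    have hPt : Pᵀ = P := by rw [hP, diagonal_transpose]
    have h1 : (P * R w * D) * (P * R w * D)ᵀ = (w ⬝ᵥ w) • (P * P) := by
      rw [transpose_mul, Matrix.mul_assoc (P * R w), ← Matrix.mul_assoc D, hD, Matrix.one_mul,
        transpose_mul, Matrix.mul_assoc P, ← Matrix.mul_assoc (R w), hR, Matrix.smul_mul,
        Matrix.one_mul, Matrix.mul_smul, hPt]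
    have h2 : (P * R w * D) * ((s * nr w) • e)ᵀ = 0 := by
      rw [transpose_smul, Matrix.mul_smul, Matrix.mul_assoc, hDe, Matrix.mul_zero, smul_zero]
    have h3 : ((s * nr w) • e) * (P * R w * D)ᵀ = 0 := by
      rw [transpose_mul, Matrix.smul_mul, ← Matrix.mul_assoc, heD, Matrix.zero_mul, smul_zero]
    have h4 : ((s * nr w) • e) * ((s * nr w) • e)ᵀ = (s ^ 2 * (w ⬝ᵥ w)) •
        Matrix.diagonal fun i => if i = Fin.last k' then (0 : ℝ) else 1 := by
      rw [transpose_smul, Matrix.smul_mul, Matrix.mul_smul, he, smul_smul]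
      congr 1
      rw [← nr_sq]
      ring
    rw [transpose_add, Matrix.add_mul, Matrix.mul_add, Matrix.mul_add, h1, h2, h3, h4, zero_add,
      add_zero, hP, Matrix.diagonal_mul_diagonal]
    ext i j
    by_cases hij : i = j
    · subst hij
      rw [Matrix.add_apply, Matrix.smul_apply, Matrix.smul_apply, Matrix.smul_apply,
        Matrix.diagonal_apply_eq, Matrix.diagonal_apply_eq, Matrix.one_apply_eq]
      by_cases hi : i = Fin.last k'
      · simp [hi]
      · simp only [hi, if_false, smul_eq_mul, mul_one]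
        have : w ⬝ᵥ w * (c * c) + s ^ 2 * w ⬝ᵥ w = (c ^ 2 + s ^ 2) * (w ⬝ᵥ w) := by ring
        rw [this, hcs, one_mul]
    · rw [Matrix.add_apply, Matrix.smul_apply, Matrix.smul_apply, Matrix.smul_apply,
        Matrix.diagonal_apply_ne _ hij, Matrix.diagonal_apply_ne _ hij, Matrix.one_apply_ne hij]
      simp

end Pool.Agent.Helper59.ZD
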