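import Pool.Agent.Helper59.ZD.Giv

set_option autoImplicit false
set_option linter.unusedSectionVars false

/-!
# The homotopies of two-frames
-/

namespace Pool.Agent.Helper59.ZD

open Matrix Filter Topology

variable {ι : Type} [Fintype ι] [DecidableEq ι]

/-- The complex structure, with the sign `ε` in the plane `o`. -/
def cst (o : ι) (ε : ℝ) (w : ι × Bool → ℝ) : ι × Bool → ℝ := fun j =>
  (if j.1 = o then ε else 1) * (if j.2 = true then w (j.1, false) else -w (j.1, true))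

theorem dot_cst (o : ι) (ε : ℝ) (w : ι × Bool → ℝ) : w ⬝ᵥ cst o ε w = 0 := by
  rw [dotProduct, Fintype.sum_prod_type]
  refine Finset.sum_eq_zero fun k _ => ?_
  rw [Fintype.sum_bool]
  unfold cst
  simp only [if_true, Bool.false_eq_true, if_false]
  ring

theorem cst_dot (o : ι) {ε : ℝ} (hε : ε ^ 2 = 1) (w : ι × Bool → ℝ) :
    cst o ε w ⬝ᵥ cst o ε w = w ⬝ᵥ w := by
  rw [dotProduct, dotProduct, Fintype.sum_prod_type, Fintype.sum_prod_type]
  refine Finset.sum_congr rfl fun k _ => ?_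
  rw [Fintype.sum_bool, Fintype.sum_bool]
  unfold cst
  simp only [if_true, Bool.false_eq_true, if_false]
  split_ifs
  · linear_combination (w (k, false) ^ 2 + w (k, true) ^ 2) * hε
  · ring

/-- The three rows `w`, `I w`, `0`. -/
def fr (o : ι) (ε : ℝ) (w : ι × Bool → ℝ) : Matrix (Fin 3) (ι × Bool) ℝ :=
  Matrix.of ![w, cst o ε w, 0]

/-- The projector on the first two coordinates. -/
def D3 : Matrix (Fin 3) (Fin 3) ℝ := Matrix.diagonal ![1, 1, 0]

theorem fr_gram (o : ι) {ε : ℝ} (hε : ε ^ 2 = 1) (w : ι × Bool → ℝ) :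
    fr o ε w * (fr o ε w)ᵀ = (w ⬝ᵥ w) • D3 := by
  have h1 := dot_cst o ε w
  have h2 := cst_dot o hε w
  have h3 : cst o ε w ⬝ᵥ w = 0 := by rw [dotProduct_comm, h1]
  have h4 : ∀ i j, (fr o ε w * (fr o ε w)ᵀ) i j = fr o ε w i ⬝ᵥ fr o ε w j := fun i j => rfl
  ext i j
  rw [h4, Matrix.smul_apply, D3]
  fin_cases i <;> fin_cases j
  · show w ⬝ᵥ w = (w ⬝ᵥ w) * 1
    rw [mul_one]
  · show w ⬝ᵥ cst o ε w = (w ⬝ᵥ w) * 0
    rw [h1, mul_zero]
  · show w ⬝ᵥ 0 = (w ⬝ᵥ w) * 0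
    rw [dotProduct_zero, mul_zero]
  · show cst o ε w ⬝ᵥ w = (w ⬝ᵥ w) * 0
    rw [h3, mul_zero]
  · show cst o ε w ⬝ᵥ cst o ε w = (w ⬝ᵥ w) * 1
    rw [h2, mul_one]
  · show cst o ε w ⬝ᵥ 0 = (w ⬝ᵥ w) * 0
    rw [dotProduct_zero, mul_zero]
  · show (0 : ι × Bool → ℝ) ⬝ᵥ w = (w ⬝ᵥ w) * 0
    rw [zero_dotProduct, mul_zero]
  · show (0 : ι × Bool → ℝ) ⬝ᵥ cst o ε w = (w ⬝ᵥ w) * 0
    rw [zero_dotProduct, mul_zero]
  · show (0 : ι × Bool → ℝ) ⬝ᵥ 0 = (w ⬝ᵥ w) * 0
    rw [zero_dotProduct, mul_zero]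

/-- The frames in all planes of rows. -/
def Cn (J : Type) [Fintype J] : Set (Matrix (Fin 3) J ℝ) :=
  {Y | ∃ (P : Matrix (Fin 3) (Fin 3) ℝ) (c : ℝ), P * Pᵀ = 1 ∧ Y * Yᵀ = c • (P * D3 * Pᵀ)}

theorem fr_mem (o : ι) {ε : ℝ} (hε : ε ^ 2 = 1) (w : ι × Bool → ℝ) :
    fr o ε w ∈ Cn (ι × Bool) := by
  refine ⟨1, w ⬝ᵥ w, ?_, ?_⟩
  · rw [transpose_one, Matrix.one_mul]
  · rw [fr_gram o hε, transpose_one, Matrix.one_mul, Matrix.mul_one]

theorem fr_eq_zero (o : ι) {ε : ℝ} {w : ι × Bool → ℝ} (h : fr o ε w = 0) : w = 0 :=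
  congrFun h 0

theorem continuous_fr {X : Type} [TopologicalSpace X] (o : ι) (ε : ℝ) {w : X → ι × Bool → ℝ}
    (hw : Continuous w) : Continuous fun x => fr o ε (w x) := by
  have h : ∀ j, Continuous fun x => w x j := fun j => (continuous_apply j).comp hw
  refine continuous_pi fun i => continuous_pi fun j => ?_
  fin_cases i
  · exact h j
  · show Continuous fun x => cst o ε (w x) j
    unfold cst
    refine continuous_const.mul ?_
    split_ifs
    · exact h _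
    · exact (h _).neg
  · exact continuous_const

theorem fr_smul_add (o : ι) (ε a b : ℝ) (w w' : ι × Bool → ℝ) :
    a • fr o ε w + b • fr o ε w' = fr o ε (a • w + b • w') := by
  ext i j
  fin_cases i
  · rfl
  · show a * ((if j.1 = o then ε else 1) * (if j.2 = true then w (j.1, false) else
      -w (j.1, true))) + b * ((if j.1 = o then ε else 1) * (if j.2 = true then w' (j.1, false) else
      -w' (j.1, true))) = (if j.1 = o then ε else 1) * (if j.2 = true then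
      a * w (j.1, false) + b * w' (j.1, false) else -(a * w (j.1, true) + b * w' (j.1, true)))
    split_ifs <;> ring
  · show a * 0 + b * 0 = (0 : ℝ)
    ring

/-- The rotated frames. -/
noncomputable def Gm (o o' : ι) (ε u v l : ℝ) (w : ι × Bool → ℝ) :
    Matrix (Fin 3) (ι × Bool) ℝ :=
  Pc u v (Real.cos (Real.pi * l)) (Real.sin (Real.pi * l)) * Matrix.of fun i =>
    Qc o o' u v (Real.cos (Real.pi * l)) (Real.sin (Real.pi * l)) Finset.univ.toList (fr o ε w i)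

theorem Gm_gram (o o' : ι) {ε u v : ℝ} (hε : ε ^ 2 = 1) (huv : u ^ 2 + v ^ 2 = 1) (l : ℝ)
    (w : ι × Bool → ℝ) : Gm o o' ε u v l w * (Gm o o' ε u v l w)ᵀ = (w ⬝ᵥ w) •
      (Pc u v (Real.cos (Real.pi * l)) (Real.sin (Real.pi * l)) * D3 *
        (Pc u v (Real.cos (Real.pi * l)) (Real.sin (Real.pi * l)))ᵀ) := by
  unfold Gm
  set p := Real.cos (Real.pi * l)
  set q := Real.sin (Real.pi * l)
  have hpq : p ^ 2 + q ^ 2 = 1 := Real.cos_sq_add_sin_sq _
  set M : Matrix (Fin 3) (ι × Bool) ℝ := Matrix.of fun i =>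
    Qc o o' u v p q Finset.univ.toList (fr o ε w i) with hM
  have h1 : M * Mᵀ = (w ⬝ᵥ w) • D3 := by
    rw [← fr_gram o hε]
    ext i j
    show M i ⬝ᵥ M j = fr o ε w i ⬝ᵥ fr o ε w j
    exact Qc_dot o o' huv hpq _ _ _
  rw [transpose_mul, Matrix.mul_assoc, ← Matrix.mul_assoc M, h1, Matrix.smul_mul, Matrix.mul_smul,
    Matrix.mul_assoc]

theorem Gm_mem (o o' : ι) {ε u v : ℝ} (hε : ε ^ 2 = 1) (huv : u ^ 2 + v ^ 2 = 1) (l : ℝ)
    (w : ι × Bool → ℝ) : Gm o o' ε u v l w ∈ Cn (ι × Bool) :=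
  ⟨_, _, Pc_orth huv (Real.cos_sq_add_sin_sq _), Gm_gram o o' hε huv l w⟩

theorem Gm_eq_zero (o o' : ι) {ε u v : ℝ} (hε : ε ^ 2 = 1) (huv : u ^ 2 + v ^ 2 = 1) {l : ℝ}
    {w : ι × Bool → ℝ} (h : Gm o o' ε u v l w = 0) : w = 0 := by
  have h1 := Gm_gram o o' hε huv l w
  rw [h, Matrix.zero_mul] at h1
  set P := Pc u v (Real.cos (Real.pi * l)) (Real.sin (Real.pi * l))
  have hP : P * Pᵀ = 1 := Pc_orth huv (Real.cos_sq_add_sin_sq _)
  have hP' : Pᵀ * P = 1 := mul_eq_one_comm.1 hP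
  have h2 : (w ⬝ᵥ w) • D3 = 0 := by
    have h3 : Pᵀ * ((w ⬝ᵥ w) • (P * D3 * Pᵀ)) * P = (w ⬝ᵥ w) • D3 := by
      rw [Matrix.mul_smul, Matrix.smul_mul]
      congr 1
      calc Pᵀ * (P * D3 * Pᵀ) * P = (Pᵀ * P) * D3 * (Pᵀ * P) := by
            simp only [Matrix.mul_assoc]
        _ = D3 := by rw [hP', Matrix.one_mul, Matrix.mul_one]
    rw [← h3, ← h1, Matrix.mul_zero, Matrix.zero_mul]
  have h3 := congrFun (congrFun h2 0) 0
  have h4 : (w ⬝ᵥ w) * 1 = 0 := h3
  rw [mul_one] at h4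
  exact dotProduct_self_eq_zero.1 h4

theorem Gm_zero (o o' : ι) (ε : ℝ) {u v : ℝ} (huv : u ^ 2 + v ^ 2 = 1) (w : ι × Bool → ℝ) :
    Gm o o' ε u v 0 w = fr o ε w := by
  unfold Gm
  rw [mul_zero, Real.cos_zero, Real.sin_zero, Pc_zero huv, Matrix.one_mul]
  ext i j
  show Qc o o' u v 1 0 Finset.univ.toList (fr o ε w i) j = _
  rw [Qc_zero o o' huv]

/-- The multiplication by `c + s i` in the plane `o`. -/
def mo (o : ι) (c s : ℝ) (w : ι × Bool → ℝ) : ι × Bool → ℝ := fun j =>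
  if j.1 = o then (if j.2 = true then s * w (j.1, false) + c * w (j.1, true) else
    c * w (j.1, false) - s * w (j.1, true)) else w j

theorem ml_univ (c s : ℝ) (w : ι × Bool → ℝ) (j : ι × Bool) :
    ml c s (Finset.univ.toList : List ι) w j = if j.2 = true then
      s * w (j.1, false) + c * w (j.1, true) else c * w (j.1, false) - s * w (j.1, true) := by
  unfold ml
  rw [if_pos]
  rw [Finset.mem_toList]
  exact Finset.mem_univ _

theorem Gm_one {o o' : ι} (h : o ≠ o') (ε : ℝ) {u v : ℝ} (w : ι × Bool → ℝ) (i : Fin 3)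
    (j : ι × Bool) : Gm o o' ε u v 1 w i j = (R01 (u ^ 2 - v ^ 2) (2 * u * v) *
      Matrix.of fun i => ml (u ^ 2 - v ^ 2) (2 * u * v) Finset.univ.toList (fr o ε w i)) i j := by
  unfold Gm
  rw [mul_one, Real.cos_pi, Real.sin_pi, Pc_one]
  have h1 : (Matrix.of fun i => Qc o o' u v (-1) 0 Finset.univ.toList (fr o ε w i)) =
      Matrix.of fun i => ml (u ^ 2 - v ^ 2) (2 * u * v) Finset.univ.toList (fr o ε w i) := by
    ext i j
    rw [Matrix.of_apply, Matrix.of_apply, Qc_one h (Finset.nodup_toList _)]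
  rw [h1]

theorem cs_sq {u v : ℝ} (huv : u ^ 2 + v ^ 2 = 1) :
    (u ^ 2 - v ^ 2) ^ 2 + (2 * u * v) ^ 2 = 1 := by
  have : (u ^ 2 - v ^ 2) ^ 2 + (2 * u * v) ^ 2 = (u ^ 2 + v ^ 2) ^ 2 := by ring
  rw [this, huv, one_pow]

theorem Gm_one_pos {o o' : ι} (h : o ≠ o') {u v : ℝ} (huv : u ^ 2 + v ^ 2 = 1)
    (w : ι × Bool → ℝ) : Gm o o' 1 u v 1 w = fr o 1 w := by
  have hcs := cs_sq huv
  ext i j
  rw [Gm_one h]
  set c := u ^ 2 - v ^ 2
  set s := 2 * u * v
  rw [Matrix.mul_apply, Fin.sum_univ_three, Matrix.of_apply, Matrix.of_apply, Matrix.of_apply,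
    ml_univ, ml_univ, ml_univ]
  obtain ⟨k, b⟩ := j
  fin_cases i <;> cases b <;> simp [R01, fr, cst]
  · linear_combination w (k, false) * hcs
  · linear_combination w (k, true) * hcs
  · linear_combination -w (k, true) * hcs
  · linear_combination w (k, false) * hcs

theorem Gm_one_neg {o o' : ι} (h : o ≠ o') {u v : ℝ} (huv : u ^ 2 + v ^ 2 = 1)
    (w : ι × Bool → ℝ) : Gm o o' (-1) u v 1 w = fr o (-1) (mo o
      ((u ^ 2 - v ^ 2) ^ 2 - (2 * u * v) ^ 2) (2 * (u ^ 2 - v ^ 2) * (2 * u * v)) w) := by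
  have hcs := cs_sq huv
  ext i j
  rw [Gm_one h]
  set c := u ^ 2 - v ^ 2
  set s := 2 * u * v
  rw [Matrix.mul_apply, Fin.sum_univ_three, Matrix.of_apply, Matrix.of_apply, Matrix.of_apply,
    ml_univ, ml_univ, ml_univ]
  obtain ⟨k, b⟩ := j
  by_cases hk : k = o
  · fin_cases i <;> cases b <;> simp [R01, fr, cst, mo, hk]
    · ring
    · ring
    · ring
    · ring
  · fin_cases i <;> cases b <;> simp [R01, fr, cst, mo, hk]
    · linear_combination w (k, false) * hcs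
    · linear_combination w (k, true) * hcs
    · linear_combination -w (k, true) * hcs
    · linear_combination w (k, false) * hcs

theorem continuous_Gm {X : Type} [TopologicalSpace X] (o o' : ι) (ε : ℝ) {u v l : X → ℝ}
    {w : X → ι × Bool → ℝ} (hu : Continuous u) (hv : Continuous v) (hl : Continuous l)
    (hw : Continuous w) : Continuous fun x => Gm o o' ε (u x) (v x) (l x) (w x) := by
  have hc : Continuous fun x => Real.cos (Real.pi * l x) :=
    Real.continuous_cos.comp (continuous_const.mul hl)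
  have hs : Continuous fun x => Real.sin (Real.pi * l x) :=
    Real.continuous_sin.comp (continuous_const.mul hl)
  unfold Gm
  refine (continuous_Pc hu hv hc hs).matrix_mul ?_
  refine continuous_pi fun i => ?_
  exact continuous_Qc o o' hu hv hc hs ((continuous_apply i).comp (continuous_fr o ε hw)) _

/-- The coordinates of the point of the circle in the direction of `(a, b)`. -/
noncomputable def un (a b : ℝ) : ℝ × ℝ :=
  if a = 0 ∧ b = 0 then (1, 0) else (a / Real.sqrt (a ^ 2 + b ^ 2), b / Real.sqrt (a ^ 2 + b ^ 2))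

theorem sq_pos_of {a b : ℝ} (h : ¬ (a = 0 ∧ b = 0)) : 0 < a ^ 2 + b ^ 2 := by
  by_cases ha : a = 0
  · have hb : b ≠ 0 := fun hb => h ⟨ha, hb⟩
    positivity
  · positivity

theorem un_unit (a b : ℝ) : (un a b).1 ^ 2 + (un a b).2 ^ 2 = 1 := by
  unfold un
  split_ifs with h
  · norm_num
  · have h1 := sq_pos_of h
    show (a / Real.sqrt (a ^ 2 + b ^ 2)) ^ 2 + (b / Real.sqrt (a ^ 2 + b ^ 2)) ^ 2 = 1
    rw [div_pow, div_pow, Real.sq_sqrt h1.le, ← add_div, div_self h1.ne']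

theorem continuousAt_un {a b : ℝ} (h : ¬ (a = 0 ∧ b = 0)) :
    ContinuousAt (fun z : ℝ × ℝ => un z.1 z.2) (a, b) := by
  have h1 := sq_pos_of h
  have h2 : (fun z : ℝ × ℝ => un z.1 z.2) =ᶠ[𝓝 (a, b)] fun z =>
      (z.1 / Real.sqrt (z.1 ^ 2 + z.2 ^ 2), z.2 / Real.sqrt (z.1 ^ 2 + z.2 ^ 2)) := by
    have h3 : {z : ℝ × ℝ | 0 < z.1 ^ 2 + z.2 ^ 2} ∈ 𝓝 (a, b) := by
      refine IsOpen.mem_nhds ?_ h1
      exact isOpen_lt continuous_const (by fun_prop)
    filter_upwards [h3] with z hz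
    have hz' : 0 < z.1 ^ 2 + z.2 ^ 2 := hz
    unfold un
    rw [if_neg]
    rintro ⟨h4, h5⟩
    rw [h4, h5] at hz'
    norm_num at hz'
  refine ContinuousAt.congr ?_ h2.symm
  have h4 : ContinuousAt (fun z : ℝ × ℝ => Real.sqrt (z.1 ^ 2 + z.2 ^ 2)) (a, b) := by fun_prop
  have h5 : Real.sqrt (a ^ 2 + b ^ 2) ≠ 0 := (Real.sqrt_pos.2 h1).ne'
  exact (continuousAt_fst.div h4 h5).prodMk (continuousAt_snd.div h4 h5)

/-- The sup norm in the plane `o`. -/
noncomputable def rh (o : ι) (y : ι × Bool → ℝ) : ℝ := max |y (o, false)| |y (o, true)|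

theorem continuous_rh (o : ι) : Continuous (rh o) :=
  (continuous_apply (o, false)).abs.max (continuous_apply (o, true)).abs

/-- The argument of the frames. -/
noncomputable def zt (o : ι) (y : ι × Bool → ℝ) : ι × Bool → ℝ := fun j =>
  if j.1 = o then (if j.2 = true then 0 else max (2 * rh o y - 1) 0) else y j

theorem continuous_zt (o : ι) : Continuous (zt o) := by
  refine continuous_pi fun j => ?_
  unfold zt
  split_ifs
  · exact continuous_const
  · exact ((continuous_const.mul (continuous_rh o)).sub continuous_const).max continuous_const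
  · exact continuous_apply j

/-- The parameter of the contraction. -/
noncomputable def lm (t r : ℝ) : ℝ := t + (1 - t) * max (1 - 2 * r) 0

/-- The homotopy of frames. -/
noncomputable def Hm (o o' : ι) (ε t : ℝ) (y : ι × Bool → ℝ) : Matrix (Fin 3) (ι × Bool) ℝ :=
  Gm o o' ε (un (y (o, false)) (y (o, true))).1 (un (y (o, false)) (y (o, true))).2
    (lm t (rh o y)) (zt o y)

theorem Hm_mem (o o' : ι) {ε : ℝ} (hε : ε ^ 2 = 1) (t : ℝ) (y : ι × Bool → ℝ) :
    Hm o o' ε t y ∈ Cn (ι × Bool) := Gm_mem o o' hε (un_unit _ _) _ _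

theorem zt_eq_zero {o : ι} {y : ι × Bool → ℝ} (h : zt o y = 0) : ‖y‖ ≤ 1 / 2 := by
  rw [pi_norm_le_iff_of_nonneg (by norm_num)]
  rintro ⟨k, b⟩
  rw [Real.norm_eq_abs]
  by_cases hk : k = o
  · have h1 := congrFun h (o, false)
    unfold zt at h1
    rw [if_pos rfl, if_neg (by simp)] at h1
    have h2 : max (2 * rh o y - 1) 0 = 0 := h1
    have h3 := le_max_left (2 * rh o y - 1) 0
    rw [h2] at h3
    have h4 : |y (k, b)| ≤ rh o y := by
      rw [hk]
      cases b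
      · exact le_max_left _ _
      · exact le_max_right _ _
    linarith
  · have h1 := congrFun h (k, b)
    unfold zt at h1
    rw [if_neg hk] at h1
    have h2 : y (k, b) = 0 := h1
    rw [h2, abs_zero]
    norm_num

theorem Hm_ne (o o' : ι) {ε : ℝ} (hε : ε ^ 2 = 1) (t : ℝ) {y : ι × Bool → ℝ} (hy : ‖y‖ = 1) :
    Hm o o' ε t y ≠ 0 := by
  intro h
  have h1 := zt_eq_zero (Gm_eq_zero o o' hε (un_unit _ _) h)
  rw [hy] at h1
  norm_num at h1

theorem zt_zero {o : ι} {y : ι × Bool → ℝ} (h : rh o y ≤ 1 / 2) (b : Bool) :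
    zt o y (o, b) = 0 := by
  unfold zt
  rw [if_pos rfl]
  cases b
  · rw [if_neg (by simp)]
    exact max_eq_right (by linarith)
  · rw [if_pos rfl]

theorem cst_of_zero {o : ι} (ε ε' : ℝ) {w : ι × Bool → ℝ} (h : ∀ b, w (o, b) = 0) :
    cst o ε w = cst o ε' w := by
  funext j
  obtain ⟨k, b⟩ := j
  unfold cst
  by_cases hk : k = o
  · subst hk
    simp only [if_true, h]
    cases b <;> simp
  · simp only [hk, if_false]

theorem fr_of_zero {o : ι} (ε ε' : ℝ) {w : ι × Bool → ℝ} (h : ∀ b, w (o, b) = 0) :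
    fr o ε w = fr o ε' w := by
  unfold fr
  rw [cst_of_zero ε ε' h]

theorem Gm_of_zero {o o' : ι} (hoo : o ≠ o') {ε : ℝ} (hε : ε = 1 ∨ ε = -1) {u v : ℝ}
    (huv : u ^ 2 + v ^ 2 = 1) {w : ι × Bool → ℝ} (h : ∀ b, w (o, b) = 0) :
    Gm o o' ε u v 1 w = fr o ε w := by
  rcases hε with rfl | rfl
  · exact Gm_one_pos hoo huv w
  · rw [Gm_one_neg hoo huv]
    congr 1
    funext j
    obtain ⟨k, b⟩ := j
    unfold mo
    by_cases hk : k = o
    · subst hk
      simp only [if_true, h]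
      cases b <;> simp
    · simp only [hk, if_false]

theorem isCompact_circle : IsCompact {k : ℝ × ℝ | k.1 ^ 2 + k.2 ^ 2 = 1} := by
  have h1 : IsClosed {k : ℝ × ℝ | k.1 ^ 2 + k.2 ^ 2 = 1} :=
    isClosed_eq (by fun_prop) continuous_const
  refine (isCompact_closedBall (0 : ℝ × ℝ) 1).of_isClosed_subset h1 ?_
  rintro ⟨a, b⟩ h
  have h' : a ^ 2 + b ^ 2 = 1 := h
  rw [mem_closedBall_zero_iff, Prod.norm_def, max_le_iff]
  constructor
  · show |a| ≤ 1
    rw [abs_le]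
    constructor <;> nlinarith [sq_nonneg b]
  · show |b| ≤ 1
    rw [abs_le]
    constructor <;> nlinarith [sq_nonneg a]

theorem continuous_Hm {o o' : ι} (hoo : o ≠ o') {ε : ℝ} (hε : ε = 1 ∨ ε = -1) :
    Continuous fun z : ℝ × (ι × Bool → ℝ) => Hm o o' ε z.1 z.2 := by
  have hlm : Continuous fun z : ℝ × (ι × Bool → ℝ) => lm z.1 (rh o z.2) := by
    unfold lm
    exact continuous_fst.add ((continuous_const.sub continuous_fst).mul
      ((continuous_const.sub (continuous_const.mul ((continuous_rh o).comp continuous_snd))).max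
        continuous_const))
  have hzt : Continuous fun z : ℝ × (ι × Bool → ℝ) => zt o z.2 :=
    (continuous_zt o).comp continuous_snd
  have hG : Continuous fun p : (ℝ × (ι × Bool → ℝ)) × (ℝ × ℝ) =>
      Gm o o' ε p.2.1 p.2.2 p.1.1 p.1.2 :=
    continuous_Gm o o' ε (continuous_fst.comp continuous_snd) (continuous_snd.comp continuous_snd)
      (continuous_fst.comp continuous_fst) (continuous_snd.comp continuous_fst)
  rw [continuous_iff_continuousAt]
  rintro ⟨t₀, y₀⟩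
  by_cases h0 : y₀ (o, false) = 0 ∧ y₀ (o, true) = 0
  · -- at the centre
    have hr : rh o y₀ = 0 := by
      unfold rh
      rw [h0.1, h0.2, abs_zero, max_self]
    have hl1 : lm t₀ (rh o y₀) = 1 := by
      unfold lm
      rw [hr, mul_zero, sub_zero, max_eq_left zero_le_one]
      ring
    have hz0 : ∀ b, zt o y₀ (o, b) = 0 := zt_zero (by rw [hr]; norm_num)
    have hval : ∀ k ∈ {k : ℝ × ℝ | k.1 ^ 2 + k.2 ^ 2 = 1},
        Gm o o' ε k.1 k.2 1 (zt o y₀) = fr o ε (zt o y₀) := fun k hk =>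
      Gm_of_zero hoo hε hk hz0
    have hH0 : Hm o o' ε t₀ y₀ = fr o ε (zt o y₀) := by
      unfold Hm
      rw [hl1]
      exact hval _ (un_unit _ _)
    show Tendsto _ _ (𝓝 (Hm o o' ε t₀ y₀))
    rw [hH0]
    intro V hV
    have h1 : ∀ᶠ x in 𝓝 ((1 : ℝ), zt o y₀), ∀ k ∈ {k : ℝ × ℝ | k.1 ^ 2 + k.2 ^ 2 = 1},
        Gm o o' ε k.1 k.2 x.1 x.2 ∈ V := by
      refine isCompact_circle.eventually_forall_of_forall_eventually
        (P := fun (x : ℝ × (ι × Bool → ℝ)) (k : ℝ × ℝ) => Gm o o' ε k.1 k.2 x.1 x.2 ∈ V) ?_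
      intro k hk
      have h2 := hG.tendsto (((1 : ℝ), zt o y₀), k)
      refine h2.eventually_mem ?_
      show V ∈ 𝓝 (Gm o o' ε k.1 k.2 1 (zt o y₀))
      rw [hval k hk]
      exact hV
    have h2 : Tendsto (fun z : ℝ × (ι × Bool → ℝ) => (lm z.1 (rh o z.2), zt o z.2))
        (𝓝 (t₀, y₀)) (𝓝 ((1 : ℝ), zt o y₀)) := by
      have h3 := (hlm.prodMk hzt).tendsto (t₀, y₀)
      have h4 : (lm t₀ (rh o y₀), zt o y₀) = ((1 : ℝ), zt o y₀) := by rw [hl1]
      rw [← h4]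
      exact h3
    rw [Filter.mem_map]
    filter_upwards [h2.eventually h1] with z hz
    exact hz _ (un_unit _ _)
  · have h1 : ContinuousAt (fun z : ℝ × (ι × Bool → ℝ) => un (z.2 (o, false)) (z.2 (o, true)))
        (t₀, y₀) := by
      refine ContinuousAt.comp (f := fun z : ℝ × (ι × Bool → ℝ) => (z.2 (o, false), z.2 (o, true)))
        (g := fun z : ℝ × ℝ => un z.1 z.2) (continuousAt_un h0) ?_
      have : Continuous fun z : ℝ × (ι × Bool → ℝ) => (z.2 (o, false), z.2 (o, true)) := by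
        fun_prop
      exact this.continuousAt
    have h2 : ContinuousAt (fun z : ℝ × (ι × Bool → ℝ) => ((lm z.1 (rh o z.2), zt o z.2),
        un (z.2 (o, false)) (z.2 (o, true)))) (t₀, y₀) :=
      (hlm.prodMk hzt).continuousAt.prodMk h1
    exact ContinuousAt.comp (f := fun z : ℝ × (ι × Bool → ℝ) => ((lm z.1 (rh o z.2), zt o z.2),
        un (z.2 (o, false)) (z.2 (o, true)))) (g := fun p : (ℝ × (ι × Bool → ℝ)) × (ℝ × ℝ) =>
          Gm o o' ε p.2.1 p.2.2 p.1.1 p.1.2) hG.continuousAt h2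

end Pool.Agent.Helper59.ZD
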