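import Mathlib

set_option autoImplicit false
set_option linter.unusedSectionVars false

/-!
# A contraction of the double rotation of a complex space
-/

namespace Pool.Agent.Helper59.ZD

open Matrix

variable {J : Type} [Fintype J] [DecidableEq J]

/-- The rotation of the coordinates `a` and `b`. -/
def gv (a b : J) (c s : ℝ) (w : J → ℝ) : J → ℝ := fun i =>
  if i = a then c * w a - s * w b else if i = b then s * w a + c * w b else w i

theorem gv_a (a b : J) (c s : ℝ) (w : J → ℝ) : gv a b c s w a = c * w a - s * w b := if_pos rfl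

theorem gv_b {a b : J} (h : a ≠ b) (c s : ℝ) (w : J → ℝ) : gv a b c s w b = s * w a + c * w b := by
  unfold gv
  rw [if_neg h.symm, if_pos rfl]

theorem gv_ne {a b i : J} (h : i ≠ a) (h' : i ≠ b) (c s : ℝ) (w : J → ℝ) :
    gv a b c s w i = w i := by
  unfold gv
  rw [if_neg h, if_neg h']

theorem gv_dot {a b : J} (h : a ≠ b) {c s : ℝ} (hcs : c ^ 2 + s ^ 2 = 1) (w w' : J → ℝ) :
    gv a b c s w ⬝ᵥ gv a b c s w' = w ⬝ᵥ w' := by
  rw [← sub_eq_zero, dotProduct, dotProduct, ← Finset.sum_sub_distrib,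
    Finset.sum_eq_add a b h]
  · rw [gv_a, gv_a, gv_b h, gv_b h]
    linear_combination (w a * w' a + w b * w' b) * hcs
  · intro i _ hi
    rw [gv_ne hi.1 hi.2, gv_ne hi.1 hi.2, sub_self]
  · intro h
    exact absurd (Finset.mem_univ _) h
  · intro h
    exact absurd (Finset.mem_univ _) h

theorem continuous_gv {X : Type} [TopologicalSpace X] (a b : J) {c s : X → ℝ} {w : X → J → ℝ}
    (hc : Continuous c) (hs : Continuous s) (hw : Continuous w) :
    Continuous fun x => gv a b (c x) (s x) (w x) := by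
  refine continuous_pi fun i => ?_
  have h : ∀ j, Continuous fun x => w x j := fun j => (continuous_apply j).comp hw
  unfold gv
  split_ifs
  · exact (hc.mul (h a)).sub (hs.mul (h b))
  · exact (hs.mul (h a)).add (hc.mul (h b))
  · exact h i

/-- The commutator of two rotations. -/
def cm (a b c : J) (u v p q : ℝ) (w : J → ℝ) : J → ℝ :=
  gv a b u v (gv b c p q (gv a b u (-v) (gv b c p (-q) w)))

theorem cm_dot {a b c : J} (h : a ≠ b) (h' : b ≠ c) {u v p q : ℝ} (huv : u ^ 2 + v ^ 2 = 1)
    (hpq : p ^ 2 + q ^ 2 = 1) (w w' : J → ℝ) :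
    cm a b c u v p q w ⬝ᵥ cm a b c u v p q w' = w ⬝ᵥ w' := by
  unfold cm
  rw [gv_dot h huv, gv_dot h' hpq, gv_dot h (by rw [neg_sq]; exact huv),
    gv_dot h' (by rw [neg_sq]; exact hpq)]

theorem continuous_cm {X : Type} [TopologicalSpace X] (a b c : J) {u v p q : X → ℝ}
    {w : X → J → ℝ} (hu : Continuous u) (hv : Continuous v) (hp : Continuous p)
    (hq : Continuous q) (hw : Continuous w) :
    Continuous fun x => cm a b c (u x) (v x) (p x) (q x) (w x) :=
  continuous_gv a b hu hv (continuous_gv b c hp hq (continuous_gv a b hu hv.neg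
    (continuous_gv b c hp hq.neg hw)))

theorem cm_zero {a b c : J} (h : a ≠ b) {u v : ℝ} (huv : u ^ 2 + v ^ 2 = 1)
    (w : J → ℝ) : cm a b c u v 1 0 w = w := by
  have h1 : ∀ w : J → ℝ, gv b c 1 0 w = w := by
    intro w
    funext i
    unfold gv
    split_ifs with h2 h3
    · rw [h2]
      ring
    · rw [h3]
      ring
    · rfl
  unfold cm
  rw [neg_zero, h1, h1]
  funext i
  by_cases hi : i = a
  · rw [hi, gv_a, gv_a, gv_b h]
    linear_combination w a * huv
  · by_cases hi' : i = b
    · rw [hi', gv_b h, gv_a, gv_b h]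
      linear_combination w b * huv
    · rw [gv_ne hi hi', gv_ne hi hi']

theorem cm_one {a b c : J} (h : a ≠ b) (h'' : a ≠ c) {u v : ℝ} (w : J → ℝ) :
    cm a b c u v (-1) 0 w = gv a b (u ^ 2 - v ^ 2) (2 * u * v) w := by
  have h1 : ∀ w : J → ℝ, gv b c (-1) 0 w = fun i => if i = b ∨ i = c then -w i else w i := by
    intro w
    funext i
    unfold gv
    by_cases h2 : i = b
    · rw [if_pos h2, if_pos (Or.inl h2), h2]
      ring
    · by_cases h3 : i = c
      · rw [if_neg h2, if_pos h3, if_pos (Or.inr h3), h3]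
        ring
      · rw [if_neg h2, if_neg h3, if_neg]
        rintro (h4 | h4)
        · exact h2 h4
        · exact h3 h4
  unfold cm
  rw [neg_zero, h1, h1]
  have ha : ¬ (a = b ∨ a = c) := by
    rintro (h4 | h4)
    · exact h h4
    · exact h'' h4
  funext i
  by_cases hi : i = a
  · rw [hi]
    simp only [gv_a, gv_b h, ha, if_false, true_or, if_true]
    ring
  · by_cases hi' : i = b
    · rw [hi']
      simp only [gv_a, gv_b h, ha, if_false, true_or, if_true]
      ring
    · rw [gv_ne hi hi', gv_ne hi hi']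
      by_cases hc : i = c
      · rw [if_pos (Or.inr hc), gv_ne hi hi', if_pos (Or.inr hc), neg_neg]
      · have h5 : ¬ (i = b ∨ i = c) := by
          rintro (h4 | h4)
          · exact hi' h4
          · exact hc h4
        rw [if_neg h5, gv_ne hi hi', if_neg h5]

variable {ι : Type} [Fintype ι] [DecidableEq ι]

/-- The third coordinate for the plane `k`. -/
def thd (o o' : ι) (k : ι) : ι × Bool := if k = o then (o', false) else (o, false)

/-- The contraction for the planes of a list. -/
def Qc (o o' : ι) (u v p q : ℝ) : List ι → (ι × Bool → ℝ) → ι × Bool → ℝ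
  | [], w => w
  | k :: l, w => cm (k, false) (k, true) (thd o o' k) u v p q (Qc o o' u v p q l w)

theorem ne_pl (k : ι) : ((k, false) : ι × Bool) ≠ (k, true) := by simp

theorem ne_thd (o o' k : ι) : ((k, true) : ι × Bool) ≠ thd o o' k := by
  unfold thd
  split_ifs <;> simp

theorem ne_thd' {o o' : ι} (h : o ≠ o') (k : ι) : ((k, false) : ι × Bool) ≠ thd o o' k := by
  unfold thd
  split_ifs with h1
  · rw [h1]
    intro h2
    exact h (Prod.ext_iff.1 h2).1
  · intro h2
    exact h1 (Prod.ext_iff.1 h2).1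

theorem Qc_dot (o o' : ι) {u v p q : ℝ} (huv : u ^ 2 + v ^ 2 = 1) (hpq : p ^ 2 + q ^ 2 = 1)
    (l : List ι) (w w' : ι × Bool → ℝ) :
    Qc o o' u v p q l w ⬝ᵥ Qc o o' u v p q l w' = w ⬝ᵥ w' := by
  induction l with
  | nil => rfl
  | cons k l ih =>
    show cm _ _ _ _ _ _ _ _ ⬝ᵥ cm _ _ _ _ _ _ _ _ = _
    rw [cm_dot (ne_pl k) (ne_thd o o' k) huv hpq, ih]

theorem continuous_Qc {X : Type} [TopologicalSpace X] (o o' : ι) {u v p q : X → ℝ}
    {w : X → ι × Bool → ℝ} (hu : Continuous u) (hv : Continuous v) (hp : Continuous p)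
    (hq : Continuous q) (hw : Continuous w) (l : List ι) :
    Continuous fun x => Qc o o' (u x) (v x) (p x) (q x) l (w x) := by
  induction l with
  | nil => exact hw
  | cons k l ih => exact continuous_cm _ _ _ hu hv hp hq ih

theorem Qc_zero (o o' : ι) {u v : ℝ} (huv : u ^ 2 + v ^ 2 = 1) (l : List ι)
    (w : ι × Bool → ℝ) : Qc o o' u v 1 0 l w = w := by
  induction l with
  | nil => rfl
  | cons k l ih =>
    show cm _ _ _ _ _ _ _ _ = _
    rw [cm_zero (ne_pl k) huv, ih]

/-- The multiplication by the complex number `c + s i` in the planes of a list. -/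
def ml (c s : ℝ) (l : List ι) (w : ι × Bool → ℝ) : ι × Bool → ℝ := fun j =>
  if j.1 ∈ l then (if j.2 = true then s * w (j.1, false) + c * w (j.1, true) else
    c * w (j.1, false) - s * w (j.1, true)) else w j

theorem Qc_one {o o' : ι} (h : o ≠ o') {u v : ℝ} {l : List ι} (hl : l.Nodup)
    (w : ι × Bool → ℝ) : Qc o o' u v (-1) 0 l w = ml (u ^ 2 - v ^ 2) (2 * u * v) l w := by
  induction l with
  | nil =>
    funext j
    unfold ml
    rw [if_neg (by simp)]
    rfl
  | cons k l ih =>
    rw [List.nodup_cons] at hl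
    show cm _ _ _ _ _ _ _ _ = _
    rw [cm_one (ne_pl k) (ne_thd' h k), ih hl.2]
    have hk : ∀ b, ml (u ^ 2 - v ^ 2) (2 * u * v) l w (k, b) = w (k, b) := fun b => if_neg hl.1
    funext j
    obtain ⟨k', b⟩ := j
    by_cases hkk : k' = k
    · subst hkk
      cases b
      · rw [gv_a, hk, hk]
        unfold ml
        simp
      · rw [gv_b (ne_pl _), hk, hk]
        unfold ml
        simp
    · rw [gv_ne (by simp [hkk]) (by simp [hkk])]
      unfold ml
      simp [hkk]

/-- The rotation of the first two rows. -/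
def R01 (c s : ℝ) : Matrix (Fin 3) (Fin 3) ℝ := !![c, -s, 0; s, c, 0; 0, 0, 1]

/-- The rotation of the last two rows. -/
def R12 (c s : ℝ) : Matrix (Fin 3) (Fin 3) ℝ := !![1, 0, 0; 0, c, -s; 0, s, c]

/-- The commutator of two rotations of the rows. -/
def Pc (u v p q : ℝ) : Matrix (Fin 3) (Fin 3) ℝ := R01 u v * R12 p q * R01 u (-v) * R12 p (-q)

theorem R01_orth {c s : ℝ} (h : c ^ 2 + s ^ 2 = 1) : R01 c s * (R01 c s)ᵀ = 1 := by
  ext i j
  fin_cases i <;> fin_cases j <;>
    simp [R01, Matrix.mul_apply, Fin.sum_univ_succ] <;>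
      first | linear_combination h | linear_combination (0 : ℝ) * h

theorem R12_orth {c s : ℝ} (h : c ^ 2 + s ^ 2 = 1) : R12 c s * (R12 c s)ᵀ = 1 := by
  ext i j
  fin_cases i <;> fin_cases j <;>
    simp [R12, Matrix.mul_apply, Fin.sum_univ_succ] <;>
      first | linear_combination h | linear_combination (0 : ℝ) * h

theorem orth_mul {A B : Matrix (Fin 3) (Fin 3) ℝ} (hA : A * Aᵀ = 1) (hB : B * Bᵀ = 1) :
    (A * B) * (A * B)ᵀ = 1 := by
  rw [transpose_mul, Matrix.mul_assoc, ← Matrix.mul_assoc B, hB, Matrix.one_mul, hA]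

theorem Pc_orth {u v p q : ℝ} (huv : u ^ 2 + v ^ 2 = 1) (hpq : p ^ 2 + q ^ 2 = 1) :
    Pc u v p q * (Pc u v p q)ᵀ = 1 :=
  orth_mul (orth_mul (orth_mul (R01_orth huv) (R12_orth hpq))
    (R01_orth (by rw [neg_sq]; exact huv))) (R12_orth (by rw [neg_sq]; exact hpq))

theorem Pc_zero {u v : ℝ} (huv : u ^ 2 + v ^ 2 = 1) : Pc u v 1 0 = 1 := by
  have h1 : R12 1 0 = 1 := by
    ext i j
    fin_cases i <;> fin_cases j <;> simp [R12]
  have h2 : R01 u (-v) = (R01 u v)ᵀ := by
    ext i j
    fin_cases i <;> fin_cases j <;> simp [R01]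
  unfold Pc
  rw [neg_zero, h1, Matrix.mul_one, Matrix.mul_one, h2, R01_orth huv]

theorem Pc_one (u v : ℝ) : Pc u v (-1) 0 = R01 (u ^ 2 - v ^ 2) (2 * u * v) := by
  ext i j
  fin_cases i <;> fin_cases j <;>
    simp [Pc, R01, R12, Matrix.mul_apply, Fin.sum_univ_succ] <;> ring

theorem continuous_Pc {X : Type} [TopologicalSpace X] {u v p q : X → ℝ} (hu : Continuous u)
    (hv : Continuous v) (hp : Continuous p) (hq : Continuous q) :
    Continuous fun x => Pc (u x) (v x) (p x) (q x) := by
  have h1 : ∀ {c s : X → ℝ}, Continuous c → Continuous s →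
      Continuous fun x => R01 (c x) (s x) := by
    intro c s hc hs
    refine continuous_pi fun i => continuous_pi fun j => ?_
    fin_cases i <;> fin_cases j
    all_goals first | exact hc | exact hs | exact hs.neg | exact continuous_const
  have h2 : ∀ {c s : X → ℝ}, Continuous c → Continuous s →
      Continuous fun x => R12 (c x) (s x) := by
    intro c s hc hs
    refine continuous_pi fun i => continuous_pi fun j => ?_
    fin_cases i <;> fin_cases j
    all_goals first | exact hc | exact hs | exact hs.neg | exact continuous_const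
  exact (((h1 hu hv).matrix_mul (h2 hp hq)).matrix_mul (h1 hu hv.neg)).matrix_mul (h2 hp hq.neg)

end Pool.Agent.Helper59.ZD
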