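import Pool.Agent.Helper59.ZD.Frames

set_option autoImplicit false

/-!
# The reversal of a family of frames
-/

namespace Pool.Agent.Helper59.ZD

open Matrix

variable {n N : ℕ}

theorem Htp.right_cont {k : ℕ} {a b : (Fin N → ℝ) → Matrix (Fin k) (Fin n) ℝ} (h : Htp a b) :
    Continuous b := by
  obtain ⟨g, h1, h2, h3, h4⟩ := h
  have h5 : b = fun y => g 1 y := by
    funext y
    rw [h3]
  rw [h5]
  exact h1.comp (continuous_const.prodMk continuous_id)

theorem Htp.right_gram {k : ℕ} {a b : (Fin N → ℝ) → Matrix (Fin k) (Fin n) ℝ} (h : Htp a b)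
    (y : Fin N → ℝ) : b y * (b y)ᵀ = (y ⬝ᵥ y) • (1 : Matrix (Fin k) (Fin k) ℝ) := by
  obtain ⟨g, h1, h2, h3, h4⟩ := h
  rw [← h3, h4]

/-- The change of the signs of the coordinates other than the first. -/
def Tr (w : Fin N → ℝ) : Fin N → ℝ := fun i => if (i : ℕ) = 0 then w i else -w i

theorem continuous_Tr : Continuous (Tr : (Fin N → ℝ) → Fin N → ℝ) := by
  refine continuous_pi fun i => ?_
  unfold Tr
  split_ifs
  · exact continuous_apply i
  · exact (continuous_apply i).neg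

theorem Tr_dot (w : Fin N → ℝ) : Tr w ⬝ᵥ Tr w = w ⬝ᵥ w := by
  rw [dotProduct, dotProduct]
  refine Finset.sum_congr rfl fun i _ => ?_
  unfold Tr
  split_ifs
  · rfl
  · ring

/-- A family of frames whose last row is the argument is homotopic to its composition with `Tr`. -/
theorem rows_htp {k' : ℕ} (hN : 0 < N) (hn : N + k' ≤ n)
    {J : Matrix (Fin (k' + 1)) (Fin (k' + 1)) ℝ} (hJ : Jᵀ = -J) (hJ2 : J * Jᵀ = 1)
    {A : Matrix (Fin n) (Fin N) ℝ} (hA : Aᵀ * A = 1)
    {R : (Fin N → ℝ) → Matrix (Fin (k' + 1)) (Fin N) ℝ} (hRc : Continuous R)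
    (hR : ∀ w, R w * (R w)ᵀ = (w ⬝ᵥ w) • (1 : Matrix (Fin (k' + 1)) (Fin (k' + 1)) ℝ))
    (hl : ∀ w, R w (Fin.last k') = w) :
    Htp (fun w => R w * Aᵀ) (fun w => R (Tr w) * Aᵀ) := by
  classical
  let α : Fin N → Fin n := Fin.castLE (by omega)
  let ε : Fin (k' + 1) → Fin n := fun i => if h : i = Fin.last k' then ⟨0, by omega⟩ else
    ⟨N + i, by
      have h1 : (i : ℕ) ≠ k' := fun h' => h (Fin.ext h')
      have := i.2
      omega⟩
  have hαi : Function.Injective α := Fin.castLE_injective _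
  have hεl : ((ε (Fin.last k') : Fin n) : ℕ) = 0 := by
    show (((if h : Fin.last k' = Fin.last k' then (⟨0, _⟩ : Fin n) else ⟨N + _, _⟩) : Fin n) : ℕ) = 0
    rw [dif_pos rfl]
  have hεn : ∀ i, i ≠ Fin.last k' → ((ε i : Fin n) : ℕ) = N + i := by
    intro i hi
    show (((if h : i = Fin.last k' then (⟨0, _⟩ : Fin n) else ⟨N + _, _⟩) : Fin n) : ℕ) = N + i
    rw [dif_neg hi]
  have hεi : Function.Injective ε := by
    intro i i' h
    have h1 := congrArg Fin.val h
    by_cases hi : i = Fin.last k'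
    · by_cases hi' : i' = Fin.last k'
      · rw [hi, hi']
      · rw [hi, hεl, hεn i' hi'] at h1
        omega
    · by_cases hi' : i' = Fin.last k'
      · rw [hi', hεl, hεn i hi] at h1
        omega
      · rw [hεn i hi, hεn i' hi'] at h1
        exact Fin.ext (by omega)
  set D : Matrix (Fin N) (Fin n) ℝ := sel α with hD
  set E : Matrix (Fin (k' + 1)) (Fin n) ℝ := sel ε with hE
  set Δ : Matrix (Fin (k' + 1)) (Fin (k' + 1)) ℝ :=
    Matrix.diagonal fun i => if i = Fin.last k' then (0 : ℝ) else 1 with hΔ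
  set P0 : Matrix (Fin (k' + 1)) (Fin (k' + 1)) ℝ :=
    Matrix.diagonal fun i => if i = Fin.last k' then (1 : ℝ) else 0 with hP0
  have hDD : D * Dᵀ = 1 := sel_self hαi
  have hEE : E * Eᵀ = 1 := sel_self hεi
  have hΔt : Δᵀ = Δ := by rw [hΔ, diagonal_transpose]
  have hΔΔ : Δ * Δ = Δ := by
    rw [hΔ, Matrix.diagonal_mul_diagonal]
    congr 1
    funext i
    split_ifs <;> simp
  have hee : (Δ * E) * (Δ * E)ᵀ = Δ := by
    rw [transpose_mul, Matrix.mul_assoc, ← Matrix.mul_assoc E, hEE, Matrix.one_mul, hΔt, hΔΔ]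
  have hDE : D * Eᵀ = Matrix.of fun (a : Fin N) (i : Fin (k' + 1)) =>
      if (a : ℕ) = 0 ∧ i = Fin.last k' then (1 : ℝ) else 0 := by
    rw [hD, hE, sel_mul]
    ext a i
    rw [Matrix.of_apply, Matrix.of_apply]
    have h1 : α a = ε i ↔ (a : ℕ) = 0 ∧ i = Fin.last k' := by
      have h2 : ((α a : Fin n) : ℕ) = a := rfl
      constructor
      · intro h
        have h3 := congrArg Fin.val h
        rw [h2] at h3
        by_cases hi : i = Fin.last k'
        · rw [hi, hεl] at h3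
          exact ⟨h3, hi⟩
        · rw [hεn i hi] at h3
          have := a.2
          omega
      · rintro ⟨h3, rfl⟩
        apply Fin.ext
        rw [h2, hεl, h3]
    simp only [h1]
  have hDe : D * (Δ * E)ᵀ = 0 := by
    rw [transpose_mul, ← Matrix.mul_assoc, hDE, hΔt]
    ext a i
    rw [hΔ, Matrix.mul_diagonal, Matrix.of_apply, Matrix.zero_apply]
    by_cases hi : i = Fin.last k'
    · rw [if_pos hi, mul_zero]
    · rw [if_neg (fun h => hi h.2), zero_mul]
  obtain ⟨V, hV, hAV⟩ := Pool.Agent.Helper20.CKP.exists_unitary (𝕜 := ℝ) (B := D) (B' := Aᵀ) (by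
    rw [conjTranspose_eq_transpose_of_trivial, conjTranspose_eq_transpose_of_trivial,
      transpose_transpose, hA, hDD])
  rw [conjTranspose_eq_transpose_of_trivial] at hV
  have h1 := htp_slide (n := n) hDD hee hDe hRc hR
  set σ : (Fin N → ℝ) → Matrix (Fin (k' + 1)) (Fin n) ℝ := fun w => P0 * R w * D +
    nr w • (Δ * E) with hσ
  have h2 : Htp (fun w => R (Tr w) * D) (fun w => σ (Tr w)) := h1.comp continuous_Tr Tr_dot
  have hσc : Continuous σ := h1.right_cont
  have hσg : ∀ w, σ w * (σ w)ᵀ = (w ⬝ᵥ w) • (1 : Matrix (Fin (k' + 1)) (Fin (k' + 1)) ℝ) :=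
    fun w => h1.right_gram w
  have h3 : Htp σ (fun w => -σ w) := htp_neg hσc hσg hJ hJ2
  have h4 : Htp (fun w => -σ w) (fun w => -σ w * (1 - (2 : ℝ) • (Eᵀ * E))) :=
    htp_refl h3.right_cont (fun w => h3.right_gram w) hJ hJ2 hEE
  have hnr : ∀ w : Fin N → ℝ, nr (Tr w) = nr w := by
    intro w
    unfold nr
    rw [Tr_dot]
  have hPR : ∀ w, P0 * R (Tr w) = P0 * R w * Matrix.diagonal fun a : Fin N =>
      if (a : ℕ) = 0 then (1 : ℝ) else -1 := by
    intro w
    ext i a
    rw [Matrix.mul_diagonal, hP0, Matrix.diagonal_mul, Matrix.diagonal_mul]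
    by_cases hi : i = Fin.last k'
    · rw [if_pos hi, one_mul, one_mul, hi, hl, hl]
      unfold Tr
      split_ifs
      · rw [mul_one]
      · ring
    · rw [if_neg hi, zero_mul, zero_mul, zero_mul]
  have hZE : (2 : ℝ) • (D * Eᵀ * E) - D = (Matrix.diagonal fun a : Fin N =>
      if (a : ℕ) = 0 then (1 : ℝ) else -1) * D := by
    ext a j
    rw [Matrix.diagonal_mul, Matrix.sub_apply, Matrix.smul_apply, hDE, Matrix.mul_apply,
      Finset.sum_eq_single (Fin.last k')]
    · rw [Matrix.of_apply, hD, hE]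
      show (2 : ℝ) • ((if (a : ℕ) = 0 ∧ Fin.last k' = Fin.last k' then (1 : ℝ) else 0) *
        (if j = ε (Fin.last k') then 1 else 0)) - (if j = α a then 1 else 0) =
        (if (a : ℕ) = 0 then 1 else -1) * (if j = α a then 1 else 0)
      by_cases ha : (a : ℕ) = 0
      · have h5 : α a = ε (Fin.last k') := by
          apply Fin.ext
          rw [hεl]
          exact ha
        rw [if_pos ⟨ha, rfl⟩, if_pos ha, h5]
        split_ifs <;> norm_num
      · rw [if_neg (fun h => ha h.1), if_neg ha]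
        split_ifs <;> norm_num
    · intro i _ hi
      rw [Matrix.of_apply, if_neg (fun h => hi h.2), zero_mul]
    · intro h
      exact absurd (Finset.mem_univ _) h
  have h5 : ∀ w, -σ w * (1 - (2 : ℝ) • (Eᵀ * E)) = σ (Tr w) := by
    intro w
    have h6 : σ w * (Eᵀ * E) = P0 * R w * (D * Eᵀ * E) + nr w • (Δ * E) := by
      show (P0 * R w * D + nr w • (Δ * E)) * (Eᵀ * E) = _
      rw [Matrix.add_mul, Matrix.smul_mul]
      congr 1
      · rw [Matrix.mul_assoc (P0 * R w), Matrix.mul_assoc D]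
      · rw [Matrix.mul_assoc Δ, ← Matrix.mul_assoc E, hEE, Matrix.one_mul]
    rw [Matrix.mul_sub, Matrix.mul_one, Matrix.mul_smul, Matrix.neg_mul, h6]
    show -(P0 * R w * D + nr w • (Δ * E)) - (2 : ℝ) • -(P0 * R w * (D * Eᵀ * E) +
      nr w • (Δ * E)) = P0 * R (Tr w) * D + nr (Tr w) • (Δ * E)
    rw [hnr, hPR, Matrix.mul_assoc (P0 * R w) (Matrix.diagonal _), ← hZE, Matrix.mul_sub,
      Matrix.mul_smul]
    module
  have h6 : (fun w => -σ w * (1 - (2 : ℝ) • (Eᵀ * E))) = fun w => σ (Tr w) := funext h5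
  rw [h6] at h4
  have h7 := (h1.trans (h3.trans (h4.trans h2.symm))).mul_right hV
  have h8 : ∀ w, R w * Aᵀ = R w * D * V := by
    intro w
    rw [hAV, Matrix.mul_assoc]
  simp only [h8]
  exact h7

end Pool.Agent.Helper59.ZD
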