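import Pool.Agent.Helper59.ZD.Core

set_option autoImplicit false

/-!
# The signed sum of a family of functions
-/

namespace Pool.Agent.Helper59.ZD

open Finset Pool.Agent.Helper29.ZBU

variable {κ : Type} [Fintype κ] [DecidableEq κ] {d : ℕ}

/-- The function does not depend on the cell of dimension `l`. -/
def IndepZ (l : ℕ) (f : (ℕ → κ → ℤ) → ℤ) : Prop := ∀ v w, (∀ j, j ≠ l → v j = w j) → f v = f w

theorem stepZ {N : ℕ} (e : Fin d ≃ κ) (F : Fin d → (ℕ → κ → ℤ) → ℤ) (m : Fin d)
    (x y : (ℕ → κ → ℤ) → ℤ) (hF : ∀ v, F m v = x v + y v) (hy : IndepZ (m : ℕ) y)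
    (hj : ∀ j, j ≠ m → IndepZ (m : ℕ) (F j)) :
    ∑ τ ∈ flags κ d N, sn e τ * ∏ j, F j (vtx τ) =
      ∑ τ ∈ flags κ d N, sn e τ * ∏ j, (Function.update F m x) j (vtx τ) := by
  have h1 : ∀ v : ℕ → κ → ℤ, ∏ j, F j v = (∏ j, (Function.update F m x) j v) +
      y v * ∏ j ∈ univ.erase m, F j v := by
    intro v
    rw [← Finset.mul_prod_erase univ (fun j => F j v) (mem_univ m),
      ← Finset.mul_prod_erase univ (fun j => (Function.update F m x) j v) (mem_univ m), hF,
      Function.update_self, add_mul]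
    congr 2
    refine Finset.prod_congr rfl fun j hj => ?_
    rw [Function.update_of_ne (Finset.ne_of_mem_erase hj)]
  simp only [h1, mul_add]
  rw [Finset.sum_add_distrib, sum_omit m.2 e (fun v => y v * ∏ j ∈ univ.erase m, F j v), add_zero]
  intro v w hvw
  show y v * ∏ j ∈ univ.erase m, F j v = y w * ∏ j ∈ univ.erase m, F j w
  rw [hy v w hvw]
  congr 1
  exact Finset.prod_congr rfl fun j hj' => hj j (Finset.ne_of_mem_erase hj') v w hvw

/-- The signed sum over the flags. -/
noncomputable def TZ (e : Fin d ≃ κ) (N : ℕ) (s : Fin d → (κ → ℤ) → ℤ) : ℤ :=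
  ∑ τ ∈ flags κ d N, sn e τ * ∏ j : Fin d, (s j (vtx τ (j + 1)) - s j (vtx τ j))

theorem TZ_eq (e : Fin d ≃ κ) (N : ℕ) (s : Fin d → (κ → ℤ) → ℤ) :
    TZ e N s = ∑ τ ∈ flags κ d N, sn e τ * ∏ j : Fin d, (-s j (vtx τ j)) := by
  let G : ℕ → Fin d → (ℕ → κ → ℤ) → ℤ := fun m j v =>
    if (j : ℕ) < m then -s j (v j) else s j (v (j + 1)) - s j (v j)
  have key : ∀ m, m ≤ d → ∑ τ ∈ flags κ d N, sn e τ * ∏ j, G 0 j (vtx τ) =
      ∑ τ ∈ flags κ d N, sn e τ * ∏ j, G m j (vtx τ) := by
    intro m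
    induction m with
    | zero => intro _; rfl
    | succ m ih =>
      intro hm
      rw [ih (by omega)]
      have h1 := stepZ (N := N) e (G m) ⟨m, by omega⟩ (fun v => -s ⟨m, by omega⟩ (v m))
        (fun v => s ⟨m, by omega⟩ (v (m + 1))) (fun v => by
          show (if m < m then _ else _) = _
          rw [if_neg (lt_irrefl m)]
          ring) (fun v w h => by
          show s _ (v (m + 1)) = s _ (w (m + 1))
          rw [h (m + 1) (by simp)]) (fun j hj v w h => by
          have hj' : (j : ℕ) ≠ m := fun h => hj (Fin.ext h)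
          show (if (j : ℕ) < m then -s j (v j) else s j (v (j + 1)) - s j (v j)) =
            if (j : ℕ) < m then -s j (w j) else s j (w (j + 1)) - s j (w j)
          rw [h j hj']
          by_cases hjm : (j : ℕ) < m
          · rw [if_pos hjm, if_pos hjm]
          · rw [if_neg hjm, if_neg hjm, h (j + 1) (by simp only; omega)])
      rw [h1]
      refine Finset.sum_congr rfl fun τ _ => ?_
      congr 1
      refine Finset.prod_congr rfl fun j _ => ?_
      by_cases hj : j = ⟨m, by omega⟩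
      · subst hj
        rw [Function.update_self]
        show _ = if m < m + 1 then _ else _
        rw [if_pos (by omega)]
      · rw [Function.update_of_ne hj]
        have hj' : (j : ℕ) ≠ m := fun h => hj (Fin.ext h)
        show (if (j : ℕ) < m then _ else _) = if (j : ℕ) < m + 1 then _ else _
        by_cases hjm : (j : ℕ) < m
        · rw [if_pos hjm, if_pos (by omega)]
        · rw [if_neg hjm, if_neg (by omega)]
  have h1 := key d le_rfl
  have h2 : ∑ τ ∈ flags κ d N, sn e τ * ∏ j, G 0 j (vtx τ) = TZ e N s := by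
    refine Finset.sum_congr rfl fun τ _ => ?_
    congr 1
  have h3 : ∑ τ ∈ flags κ d N, sn e τ * ∏ j, G d j (vtx τ) =
      ∑ τ ∈ flags κ d N, sn e τ * ∏ j : Fin d, (-s j (vtx τ j)) := by
    refine Finset.sum_congr rfl fun τ _ => ?_
    congr 1
    refine Finset.prod_congr rfl fun j _ => ?_
    show (if (j : ℕ) < d then _ else _) = _
    rw [if_pos j.2]
  rw [← h2, h1, h3]

/-- The signed sum depends only on the values at the boundary of the cube. -/
theorem TZ_congr {N : ℕ} (hd : 0 < d) (e : Fin d ≃ κ) {s s' : Fin d → (κ → ℤ) → ℤ}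
    (h : ∀ j x, (∀ k, |x k| ≤ 2 * (N : ℤ)) → (∃ k, |x k| = 2 * (N : ℤ)) → s j x = s' j x) :
    TZ e N s = TZ e N s' := by
  rw [TZ_eq, TZ_eq, ← sub_eq_zero, ← Finset.sum_sub_distrib]
  simp only [← mul_sub]
  refine sum_top hd e (fun v => ∏ j : Fin d, (-s j (v j)) - ∏ j : Fin d, (-s' j (v j))) ?_ ?_
  · intro v w hvw
    have h1 : ∀ j : Fin d, v j = w j := fun j => hvw j j.2
    simp only [h1]
  · intro v hv hv'
    have h1 : ∀ j : Fin d, s j (v j) = s' j (v j) := fun j => h j _ (hv j) (hv' j j.2)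
    simp only [h1, sub_self]

/-- The signed sum modulo two. -/
theorem TZ_mod (e : Fin d ≃ κ) (N : ℕ) (s : Fin d → (κ → ℤ) → ℤ) :
    ((TZ e N s : ℤ) : ZMod 2) = T N fun j x => ((s j x : ℤ) : ZMod 2) := by
  rw [← T_eq]
  unfold TZ
  push_cast
  refine Finset.sum_congr rfl fun τ _ => ?_
  have h1 : ((sn e τ : ℤ) : ZMod 2) = 1 := by
    have h2 : sn e τ = 1 ∨ sn e τ = -1 := by
      have h3 : IsUnit (sn e τ) := by
        unfold sn
        refine IsUnit.mul (Units.isUnit _) ?_
        refine Finset.prod_induction _ (fun a : ℤ => IsUnit a) (fun a b => IsUnit.mul) isUnit_one ?_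
        intro k _
        cases τ.2.2 k <;> simp
      exact Int.isUnit_iff.mp h3
    rcases h2 with h2 | h2
    · rw [h2]
      norm_num
    · rw [h2]
      decide
  rw [h1, one_mul]
  refine Finset.prod_congr rfl fun j _ => ?_
  rw [CharTwo.sub_eq_add, add_comm]

/-- The change of the signs of the coordinates in `A`. -/
def flip {R : Type} [Neg R] (A : Finset κ) (x : κ → R) : κ → R := fun k =>
  if k ∈ A then -x k else x k

/-- The change of the signs of the coordinates in `A`, for flags. -/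
def flipF (A : Finset κ) (τ : Flag κ d) : Flag κ d :=
  (fun k => if k ∈ A then -τ.1 k - 1 else τ.1 k, τ.2.1,
    fun k => if k ∈ A then !τ.2.2 k else τ.2.2 k)

theorem vtx_flip (A : Finset κ) (τ : Flag κ d) (j : ℕ) :
    vtx (flipF A τ) j = flip A (vtx τ j) := by
  have hbi : ∀ b : Bool, bi (!b) = 1 - bi b := by
    intro b
    cases b <;> simp [bi]
  funext k
  show (if ((τ.2.1.symm k : Fin d) : ℕ) < j then
      2 * (if k ∈ A then -τ.1 k - 1 else τ.1 k) + 1 else
      2 * ((if k ∈ A then -τ.1 k - 1 else τ.1 k) +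
        bi (if k ∈ A then !τ.2.2 k else τ.2.2 k))) =
    if k ∈ A then -(if ((τ.2.1.symm k : Fin d) : ℕ) < j then 2 * τ.1 k + 1 else
      2 * (τ.1 k + bi (τ.2.2 k))) else (if ((τ.2.1.symm k : Fin d) : ℕ) < j then
        2 * τ.1 k + 1 else 2 * (τ.1 k + bi (τ.2.2 k)))
  by_cases hb : k ∈ A
  · simp only [hb, if_true]
    split_ifs
    · ring
    · rw [hbi]
      ring
  · simp only [hb, if_false]

theorem flipF_flipF (A : Finset κ) (τ : Flag κ d) : flipF A (flipF A τ) = τ := by
  refine Prod.ext ?_ (Prod.ext rfl ?_)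
  · funext k
    show (if k ∈ A then -(if k ∈ A then -τ.1 k - 1 else τ.1 k) - 1 else
      (if k ∈ A then -τ.1 k - 1 else τ.1 k)) = τ.1 k
    split_ifs
    · ring
    · rfl
  · funext k
    show (if k ∈ A then !(if k ∈ A then !τ.2.2 k else τ.2.2 k) else
      (if k ∈ A then !τ.2.2 k else τ.2.2 k)) = τ.2.2 k
    split_ifs
    · simp
    · rfl

theorem sn_flipF (e : Fin d ≃ κ) (A : Finset κ) (τ : Flag κ d) :
    sn e (flipF A τ) = (-1) ^ A.card * sn e τ := by
  have h1 : ∏ k, (if (if k ∈ A then !τ.2.2 k else τ.2.2 k) then (-1 : ℤ) else 1) =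
      (-1) ^ A.card * ∏ k, (if τ.2.2 k then (-1 : ℤ) else 1) := by
    have h2 : ∀ k, (if (if k ∈ A then !τ.2.2 k else τ.2.2 k) then (-1 : ℤ) else 1) =
        (if k ∈ A then (-1 : ℤ) else 1) * (if τ.2.2 k then (-1 : ℤ) else 1) := by
      intro k
      by_cases hk : k ∈ A
      · simp only [hk, if_true]
        cases τ.2.2 k <;> simp
      · simp only [hk, if_false]
        rw [one_mul]
    simp only [h2]
    rw [Finset.prod_mul_distrib]
    congr 1
    rw [Finset.prod_ite_mem, Finset.univ_inter, Finset.prod_const]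
  show (Equiv.Perm.sign (τ.2.1.trans e.symm) : ℤ) *
    ∏ k, (if (if k ∈ A then !τ.2.2 k else τ.2.2 k) then (-1 : ℤ) else 1) = _
  rw [h1]
  unfold sn
  ring

theorem flipF_mem {N : ℕ} (A : Finset κ) {τ : Flag κ d} (hτ : τ ∈ flags κ d N) :
    flipF A τ ∈ flags κ d N := by
  rw [mem_flags] at hτ ⊢
  intro k
  have := hτ k
  show -(N : ℤ) ≤ (if k ∈ A then -τ.1 k - 1 else τ.1 k) ∧
    (if k ∈ A then -τ.1 k - 1 else τ.1 k) < N
  split_ifs
  · omega
  · exact this

/-- The signed sum after a change of the signs of the coordinates in `A`. -/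
theorem TZ_flip (e : Fin d ≃ κ) (N : ℕ) (A : Finset κ) (s : Fin d → (κ → ℤ) → ℤ) :
    TZ e N (fun j x => s j (flip A x)) = (-1) ^ A.card * TZ e N s := by
  unfold TZ
  rw [Finset.mul_sum]
  refine Finset.sum_nbij' (flipF A) (flipF A) (fun τ hτ => flipF_mem A hτ)
    (fun τ hτ => flipF_mem A hτ) (fun τ _ => flipF_flipF A τ) (fun τ _ => flipF_flipF A τ) ?_
  intro τ _
  rw [sn_flipF, ← mul_assoc, ← mul_assoc]
  have h1 : ((-1 : ℤ) ^ A.card) * (-1) ^ A.card = 1 := by
    rw [← mul_pow]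
    norm_num
  rw [h1, one_mul]
  congr 1
  refine Finset.prod_congr rfl fun j _ => ?_
  rw [vtx_flip, vtx_flip]

end Pool.Agent.Helper59.ZD
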